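import Pool.Agent.Lib.MP_ffb54b_al.P3.JSide

set_option autoImplicit false
set_option linter.unusedSectionVars false

namespace Pool.Agent.Lib.MP_ffb54b_al.P3

open PowerSeries
open scoped commutatorElement

variable {A : Type*} [AddCommGroup A] {G : Type*} [Group G] {K : ℕ → Subgroup G}
  [∀ i, (K i).Normal] {lG : ℕ → G → ZMod 3} {Φ : Act 3 A K lG} {μ : A →+ A →+ A}

lemma W3.mem_of_ad {Ψ : Filt 3 A} (h : W3 Ψ μ) {x : ℤ → A} (hx : BasZ Ψ x) {y : A} {k : ℤ}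
    (hy : ∀ j, μ y (x j) ∈ Ψ.F (j + k)) : y ∈ Ψ.F k := by
  obtain ⟨i, hi⟩ := Ψ.exh y
  have key : ∀ c : ℕ, i + c ≤ k → y ∈ Ψ.F (i + c) := by
    intro c
    induction c with
    | zero => intro _; simpa using hi
    | succ c ih =>
      intro hc
      push_cast at hc
      have h1 := ih (by omega)
      have h2 := h.lead h1 (hx (i + c + 1)).1 rfl
      rw [Ψ.ℓ_zero (hy _) (by omega), (hx _).2] at h2
      rw [Nat.cast_succ, ← add_assoc, ← Ψ.zero h1]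
      push_cast at h2
      linear_combination -h2
  rcases le_total k i with h1 | h1
  · exact Ψ.mono hi h1
  · exact Ψ.mono (key (k - i).toNat (by omega)) (by omega)

lemma Inn_lead_const {Ψ : Filt 3 A} (h : W3 Ψ μ) {d : ℤ} (hd : Three Ψ d) {i : ℤ}
    (hi : Ψ.ℓ (i + d) (3 • Ψ.e i) ≠ 0) (j : ℤ) : Ψ.ℓ (j + d) (3 • Ψ.e j) ≠ 0 := by
  have key : ∀ i j : ℤ, ((j : ZMod 3) - (i + d)) * Ψ.ℓ (i + d) (3 • Ψ.e i) =
      ((j : ZMod 3) + d - i) * Ψ.ℓ (j + d) (3 • Ψ.e j) := fun i j => by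
    have a1 := h.lead (hd (Ψ.e_mem i)) (Ψ.e_mem j) (k := i + j + d) (by ring)
    have a2 := h.lead (Ψ.e_mem i) (hd (Ψ.e_mem j)) (k := i + j + d) (by ring)
    rw [map_nsmul, AddMonoidHom.nsmul_apply, Ψ.e_one] at a1
    rw [map_nsmul, a1, Ψ.e_one] at a2
    push_cast at a2
    linear_combination a2
  have h0 : (d : ZMod 3) = 0 := mul_right_cancel₀ (mul_ne_zero (show (2 : ZMod 3) ≠ 0 by decide) hi)
    (by linear_combination -key i i)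
  have key' : ∀ i j : ℤ, (j : ZMod 3) - i ≠ 0 →
      Ψ.ℓ (i + d) (3 • Ψ.e i) = Ψ.ℓ (j + d) (3 • Ψ.e j) :=
    fun i j hij => mul_left_cancel₀ hij (by simpa [h0] using key i j)
  by_cases hj : (j : ZMod 3) - i = 0
  · rwa [key' j (j + 1) (by simp), ← key' i (j + 1) (by
      push_cast; rw [add_sub_right_comm, hj]; simp)]
  · rwa [← key' i j hj]

theorem W3.dichotomy {Ψ : Filt 3 A} (h : W3 Ψ μ) : (∀ a : A, 3 • a = 0) ∨
    ∃ d : ℕ, 1 ≤ d ∧ Three Ψ d ∧ ∀ i, Ψ.ℓ (i + d) (3 • Ψ.e i) ≠ 0 := by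
  classical
  by_cases hall : ∀ d : ℕ, Three Ψ (d + 1 : ℕ)
  · left
    intro a
    obtain ⟨i, hi⟩ := Ψ.exh a
    exact Ψ.sep' (i := i) fun c => Ψ.mono (hall c hi) (by omega)
  right
  have hex : ∃ d : ℕ, ¬ Three Ψ (d + 1 : ℕ) := not_forall.1 hall
  have h1 : Three Ψ (0 + 1 : ℕ) := by
    intro i a ha
    rw [zero_add, Nat.cast_one, ← Ψ.zero (nsmul_mem ha _), ← natCast_zsmul, Ψ.ℓ_zsmul ha]
    exact mul_eq_zero_of_left (by decide) _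
  have h2 := Nat.find_spec hex
  obtain ⟨d, hd⟩ : ∃ d, Nat.find hex = d + 1 :=
    Nat.exists_eq_succ_of_ne_zero fun e => h2 (e ▸ h1)
  have h3 : Three Ψ (d + 1 : ℕ) := not_not.1 (Nat.find_min hex (by omega))
  rw [hd] at h2
  refine ⟨d + 1, by omega, h3, ?_⟩
  by_contra hc
  apply h2
  intro i a ha
  have hl : Ψ.ℓ (i + (d + 1 : ℕ)) (3 • a) = Ψ.ℓ i a * Ψ.ℓ (i + (d + 1 : ℕ)) (3 • Ψ.e i) :=
    (Ψ.lead₁ (nsmulAddMonoidHom 3) (fun a ha => Ψ.mono (h3 ha) (by omega)) ha (Ψ.e_mem i)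
      (Ψ.e_one i) (h3 (Ψ.e_mem i))).2
  rw [Nat.cast_succ (d + 1), ← add_assoc, ← Ψ.zero (h3 ha), hl]
  exact mul_eq_zero_of_right _ (by_contra fun hi => hc (Inn_lead_const h h3 hi))

lemma Inn.mono {g : G} {x : A} {s t : ℤ} (h : Inn Φ μ g x s) (ht : t ≤ s) : Inn Φ μ g x t :=
  fun _ _ ha => Φ.mono (h ha) (by omega)

lemma Inn_ad {a : G} {x v : A} {s j k : ℤ} {i : ℕ} (ha : a ∈ K i) (hx : Inn Φ μ a x s)
    (hv : v ∈ Φ.F j) (h1 : k ≤ j + i) (h2 : k ≤ j + s) : μ x v ∈ Φ.F k := by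
  have := sub_mem (Φ.mono (Φ.ρ_deg ha hv) h1) (Φ.mono (hx hv) h2)
  rwa [sub_sub_cancel] at this

lemma Inn_zero {a : G} {i : ℕ} (ha : a ∈ K i) : Inn Φ μ a 0 i := fun _ _ hw => by
  rw [map_zero, AddMonoidHom.zero_apply, sub_zero]
  exact Φ.ρ_deg ha hw

namespace Lim

variable (h : Lim Φ μ) {a b g : G} {x y : A} {s : ℤ} {i j c m : ℕ}
include h

lemma Inn_ρ_mem (g : G) {l : ℤ} {w : A} (hw : w ∈ Φ.F l) : Φ.ρ g w ∈ Φ.F l := by
  simpa using (ρ_lead_one Φ h.nt g hw).1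

lemma Inn_top (g : G) : g ∈ K 1 := h.nt.top ▸ Subgroup.mem_top g

lemma mem_K {n : ℕ} (hg : ∀ ⦃i : ℤ⦄ ⦃w : A⦄, w ∈ Φ.F i → Φ.ρ g w - w ∈ Φ.F (i + n)) :
    g ∈ K n := by
  have key : ∀ k : ℕ, k + 1 ≤ n → g ∈ K (k + 1) := by
    intro k
    induction k with
    | zero => exact fun _ => h.Inn_top g
    | succ k ih =>
      intro hk
      have h1 := ih (by omega)
      have h2 := Φ.ρ_lead (by omega) h1 (Φ.e_mem ((k + 1 : ℕ) + 1))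
      rw [Φ.ℓ_zero (hg (Φ.e_mem _)) (by omega), Φ.e_one] at h2
      rw [← (h.nt.cls (k + 1) (by omega)).zero h1]
      push_cast at h2
      linear_combination -h2
  rcases n with _ | n
  · exact h.nt.anti (Nat.zero_le 1) (h.Inn_top g)
  · exact key n le_rfl

lemma inn_mul (ha : a ∈ K i) (hb : b ∈ K j) (hs : s ≤ i + j) (hx : Inn Φ μ a x s)
    (hy : Inn Φ μ b y s) : Inn Φ μ (a * b) (x + y) s := by
  intro l w hw
  have := add_mem (add_mem (hx hw) (hy hw))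
    (Φ.mono (Φ.ρ_deg ha (Φ.ρ_deg hb hw)) (show l + s ≤ _ by omega))
  convert this using 1
  rw [Φ.ρ_mul, map_add, AddMonoidHom.add_apply, map_sub]
  abel

lemma inn_div (ha : a ∈ K i) (hb : b ∈ K i) (hs : s ≤ 2 * i) (hx : Inn Φ μ a x s)
    (hy : Inn Φ μ b y s) : Inn Φ μ (a * b⁻¹) (x - y) s := by
  intro l w hw
  have hu := h.Inn_ρ_mem b⁻¹ hw
  have hv := Φ.ρ_deg (inv_mem hb) hw
  have := add_mem (sub_mem (hx hu) (hy hu))
    (sub_mem (Inn_ad (k := l + s) ha hx hv (by omega) (by omega))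
      (Inn_ad (k := l + s) hb hy hv (by omega) (by omega)))
  convert this using 1
  rw [Φ.ρ_mul, ρ_ρ_inv]
  simp only [map_sub, AddMonoidHom.sub_apply]
  abel

lemma inn_comm (ha : a ∈ K i) (hb : b ∈ K j) (hx : x ∈ Φ.F i) (hy : y ∈ Φ.F j) (hi : c ≤ i)
    (hj : c ≤ j) (hx' : Inn Φ μ a x (i + c)) (hy' : Inn Φ μ b y (j + c)) :
    Inn Φ μ ⁅a, b⁆ (μ x y) (i + j + c) := by
  intro l w hw
  have hc : (b * a)⁻¹ ∈ K c := inv_mem (mul_mem (h.nt.anti hj hb) (h.nt.anti hi ha))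
  have hu := h.Inn_ρ_mem (b * a)⁻¹ hw
  have hv := Φ.ρ_deg hc hw
  have e1 : Φ.ρ ⁅a, b⁆ w = Φ.ρ a (Φ.ρ b (Φ.ρ (b * a)⁻¹ w)) := by
    rw [← Φ.ρ_mul, ← Φ.ρ_mul, commutatorElement_def]
    congr 2
    group
  have e2 : w = Φ.ρ b (Φ.ρ a (Φ.ρ (b * a)⁻¹ w)) := by rw [← Φ.ρ_mul b a, ρ_ρ_inv]
  generalize Φ.ρ (b * a)⁻¹ w = u at hu hv e1 e2
  have t1 := Φ.mono (hx' (Φ.ρ_deg hb hu)) (show l + (i + j + c) ≤ _ by omega)
  have t2 := h.toW3.mem hx (hy' hu) (show l + (i + j + c) ≤ _ by omega)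
  have t3 := Φ.mono (hy' (Φ.ρ_deg ha hu)) (show l + (i + j + c) ≤ _ by omega)
  have t4 := h.toW3.mem hy (hx' hu) (show l + (i + j + c) ≤ _ by omega)
  have t5 := h.toW3.mem (h.toW3.mem hx hy le_rfl) hv (show l + (i + j + c) ≤ _ by omega)
  have := add_mem (sub_mem (add_mem t1 t2) (add_mem t3 t4)) t5
  convert this using 1
  rw [e1, map_sub (μ (μ x y)), h.toW3.leib x y u]
  simp only [map_sub]
  linear_combination (norm := abel) -e2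

lemma inn_conj (hx : Inn Φ μ a x s) (g : G) : Inn Φ μ (g * a * g⁻¹) (Φ.ρ g x) s := by
  intro l w hw
  have := h.Inn_ρ_mem g (hx (h.Inn_ρ_mem g⁻¹ hw))
  rwa [map_sub, map_sub, h.equi, ρ_ρ_inv, ← Φ.ρ_mul, ← Φ.ρ_mul] at this

lemma inn_mem (hx : Inn Φ μ a x s) (hi : i ≤ s) : a ∈ K i ↔ x ∈ Φ.F i := by
  refine ⟨fun ha => h.toW3.mem_of_ad (basZ_e _) fun j =>
    Inn_ad ha hx (Φ.e_mem j) le_rfl (by omega), fun hx' => h.mem_K fun l w hw => ?_⟩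
  have := add_mem (Φ.mono (hx hw) (show l + i ≤ _ by omega))
    (h.toW3.mem hx' hw (show l + i ≤ _ by omega))
  rwa [sub_add_cancel] at this

lemma inn_lead (hx : Inn Φ μ a x s) (h1 : 1 ≤ i) (hi : i < s) (ha : a ∈ K i) :
    lG i a = Φ.ℓ i x := by
  have hx' := (h.inn_mem hx hi.le).1 ha
  have a1 := Φ.ρ_lead h1 ha (Φ.e_mem (i + 1))
  have a2 := h.toW3.lead hx' (Φ.e_mem (i + 1)) (k := i + 1 + i) (by ring)
  have a3 := Φ.ℓ_zero (i := i + 1 + i) (hx (Φ.e_mem (i + 1))) (by omega)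
  rw [Φ.ℓ_sub (Φ.ρ_deg ha (Φ.e_mem _)) (h.toW3.mem hx' (Φ.e_mem _) (by omega)), a1, a2,
    Φ.e_one] at a3
  push_cast at a3
  linear_combination a3

lemma Inn_base (hm : 1 ≤ m) (hg : g ∈ K m) : ∃ x, Inn Φ μ g x (m + 1) := by
  have hx : ((lG m g).val : ℤ) • Φ.e m ∈ Φ.F m := zsmul_mem (Φ.e_mem _) _
  refine ⟨((lG m g).val : ℤ) • Φ.e m, fun l w hw => ?_⟩
  rw [← add_assoc]
  refine Φ.sub_mem_succ (Φ.ρ_deg hg hw) (h.toW3.mem hx hw (by omega)) ?_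
  rw [Φ.ρ_lead hm hg hw, h.toW3.lead hx hw (by ring), Φ.ℓ_zsmul (Φ.e_mem _), Φ.e_one]
  simp

lemma Inn_step (hg : g ∈ K m) (hs : s < 2 * m) (h3 : (s : ZMod 3) ≠ 0) (hx : Inn Φ μ g x s) :
    ∃ y, Inn Φ μ g y (s + 1) := by
  set ψ : A →+ A := Φ.ρ g - AddMonoidHom.id A - μ x with hψ
  have hψ' : ∀ w, ψ w = Φ.ρ g w - w - μ x w := fun w => rfl
  have hd : ∀ {l : ℤ} {w : A}, w ∈ Φ.F l → ψ w ∈ Φ.F (l + s) := fun hw => hx hw
  have hl : ∀ {l : ℤ} {w : A}, w ∈ Φ.F l →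
      Φ.ℓ (l + s) (ψ w) = Φ.ℓ l w * Φ.ℓ (l + s) (ψ (Φ.e l)) := fun {l w} hw =>
    (Φ.lead₁ ψ (fun a ha => Φ.mono (hd ha) (by omega)) hw (Φ.e_mem l) (Φ.e_one l)
      (hd (Φ.e_mem l))).2
  have hn : ∀ l : ℤ, (s : ZMod 3) * Φ.ℓ (l + s) (ψ (Φ.e l)) =
      -((l : ZMod 3) - s) * Φ.ℓ (0 + s) (ψ (Φ.e 0)) := by
    intro l
    have e1 : ψ (μ (Φ.e 0) (Φ.e l)) - μ (ψ (Φ.e 0)) (Φ.e l) - μ (Φ.e 0) (ψ (Φ.e l)) =
        μ (Φ.ρ g (Φ.e 0) - Φ.e 0) (Φ.ρ g (Φ.e l) - Φ.e l) := by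
      simp only [hψ', map_sub, AddMonoidHom.sub_apply, h.equi, h.toW3.leib x]
      abel
    have m0 : μ (Φ.e 0) (Φ.e l) ∈ Φ.F l := h.toW3.mem (Φ.e_mem 0) (Φ.e_mem l) (by omega)
    have m1 : μ (ψ (Φ.e 0)) (Φ.e l) ∈ Φ.F (l + s) :=
      h.toW3.mem (hd (Φ.e_mem 0)) (Φ.e_mem l) (by omega)
    have m2 : μ (Φ.e 0) (ψ (Φ.e l)) ∈ Φ.F (l + s) :=
      h.toW3.mem (Φ.e_mem 0) (hd (Φ.e_mem l)) (by omega)
    have e2 := Φ.ℓ_zero (i := l + s)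
      (h.toW3.mem (Φ.ρ_deg hg (Φ.e_mem 0)) (Φ.ρ_deg hg (Φ.e_mem l)) le_rfl) (by omega)
    rw [← e1, Φ.ℓ_sub (sub_mem (hd m0) m1) m2, Φ.ℓ_sub (hd m0) m1, hl m0,
      h.toW3.lead (Φ.e_mem 0) (Φ.e_mem l) (by omega),
      h.toW3.lead (hd (Φ.e_mem 0)) (Φ.e_mem l) (by omega),
      h.toW3.lead (Φ.e_mem 0) (hd (Φ.e_mem l)) (by omega), Φ.e_one, Φ.e_one] at e2
    push_cast at e2
    linear_combination -e2
  set γ : ZMod 3 := -Φ.ℓ (0 + s) (ψ (Φ.e 0)) / s with hγ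
  have hz : (γ.val : ℤ) • Φ.e s ∈ Φ.F s := zsmul_mem (Φ.e_mem _) _
  refine ⟨x + (γ.val : ℤ) • Φ.e s, fun l w hw => ?_⟩
  rw [map_add, AddMonoidHom.add_apply, ← sub_sub, ← hψ', ← add_assoc]
  refine Φ.sub_mem_succ (hd hw) (h.toW3.mem hz hw (by omega)) ?_
  rw [hl hw, h.toW3.lead hz hw (by ring), Φ.ℓ_zsmul (Φ.e_mem _), Φ.e_one]
  have e3 : (((γ.val : ℕ) : ℤ) : ZMod 3) = γ := by simp
  rw [e3, hγ]
  field_simp
  linear_combination Φ.ℓ l w * hn l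

lemma Inn_comm (k : G) (hg : g ∈ K m) (hm : m ≤ s) (hs : s < 2 * m) (hx : Inn Φ μ g x s) :
    Inn Φ μ ⁅k, g⁆ (Φ.ρ k x - x) (s + 1) := by
  intro l w hw
  have hx' := (h.inn_mem hx hm).1 hg
  have hv := h.Inn_ρ_mem g⁻¹ hw
  have hv' := Φ.ρ_deg (inv_mem hg) hw
  have e1 : Φ.ρ ⁅k, g⁆ w = Φ.ρ k (Φ.ρ g (Φ.ρ k⁻¹ (Φ.ρ g⁻¹ w))) := by
    rw [← Φ.ρ_mul, ← Φ.ρ_mul, ← Φ.ρ_mul, commutatorElement_def]
  have e2 := ρ_ρ_inv Φ g w
  generalize Φ.ρ g⁻¹ w = v at hv hv' e1 e2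
  have hu := h.Inn_ρ_mem k⁻¹ hv
  have hu' := Φ.ρ_deg (h.Inn_top k⁻¹) hv
  have e3 := ρ_ρ_inv Φ k v
  generalize Φ.ρ k⁻¹ v = u at hu hu' e1 e3
  have t1 := Φ.mono (Φ.ρ_deg (h.Inn_top k) (hx hu)) (show l + (s + 1) ≤ _ by omega)
  have t2 := Φ.mono (hx hu') (show l + (s + 1) ≤ _ by omega)
  have t3 := h.toW3.mem (Φ.ρ_deg (h.Inn_top k) hx') hv' (show l + (s + 1) ≤ _ by omega)
  have := add_mem (add_mem t1 t2) t3
  convert this using 1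
  rw [e1]
  simp only [map_sub, AddMonoidHom.sub_apply, h.equi, e3, e2]
  abel

lemma Inn_jump {t : ℕ} (h1 : 1 ≤ m) (hm : m ≤ t) (hs : t < 2 * m)
    (hP : ∀ g ∈ K m, ∃ x, Inn Φ μ g x t) (hg : g ∈ K (m + 2)) : ∃ x, Inn Φ μ g x (t + 1) := by
  let S : Subgroup G :=
    { carrier := {g | g ∈ K m ∧ ∃ x, Inn Φ μ g x (t + 1)}
      one_mem' := ⟨one_mem _, 0, Inn_zero (i := t + 1) (one_mem _)⟩
      mul_mem' := fun ⟨ha, x, hx⟩ ⟨hb, y, hy⟩ =>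
        ⟨mul_mem ha hb, x + y, h.inn_mul ha hb (by omega) hx hy⟩
      inv_mem' := fun {b} ⟨hb, y, hy⟩ => ⟨inv_mem hb, 0 - y, by
        have := h.inn_div (one_mem _) hb (by omega) (Inn_zero (i := t + 1) (one_mem _)) hy
        rwa [one_mul] at this⟩ }
  have hc : ∀ (k : G) {b : G}, b ∈ K m → ⁅k, b⁆ ∈ S := fun k b hb => by
    obtain ⟨x, hx⟩ := hP b hb
    exact ⟨h.nt.comm' (h.Inn_top k) hb (by omega), _,
      h.Inn_comm k hb (by omega) (by omega) hx⟩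
  obtain ⟨u, hu, e⟩ := h.nt.approx (M := m + 2) (by omega) (S := S) (fun r hr => by
    obtain ⟨r, rfl⟩ := Nat.exists_eq_add_of_le' (show 2 ≤ r by omega)
    by_cases h0 : (r : ZMod 3) = 0
    · obtain ⟨a, ha, ha'⟩ := h.nt.surj 2 (by omega)
      obtain ⟨b, hb, hb'⟩ := h.nt.surj r (by omega)
      refine ⟨_, hc a (h.nt.anti (by omega) hb), h.nt.comm' ha hb (by omega), ?_⟩
      have := h.nt.lead (by omega) (by omega) ha hb
      rw [add_comm r 2, this, ha', hb', h0]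
      decide
    · obtain ⟨a, ha, ha'⟩ := h.nt.surj 1 le_rfl
      obtain ⟨b, hb, hb'⟩ := h.nt.surj (r + 1) (by omega)
      refine ⟨_, hc a (h.nt.anti (by omega) hb), h.nt.comm' ha hb (by omega), ?_⟩
      have := h.nt.lead (by omega) (by omega) ha hb
      rw [show r + 2 = 1 + (r + 1) by omega, this, ha', hb']
      simpa using h0) hg t
  exact (pr_mem (S := S) (fun a ha => ⟨h.nt.anti (by omega) ha, 0,
    Inn_zero (i := t + 1) (h.nt.anti (by omega) ha)⟩) e hu).2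

lemma Inn_even (k : ℕ) : ∀ g ∈ K (2 * (k + 1)), ∃ x, Inn Φ μ g x (3 * (k + 1) : ℕ) := by
  induction k with
  | zero => exact fun g hg => h.Inn_base (m := 2) (by omega) hg
  | succ k ih =>
    intro g hg
    have h3 : (3 : ZMod 3) = 0 := rfl
    obtain ⟨x, hx⟩ := h.Inn_jump (by omega) (by omega) (by omega) ih (g := g) hg
    obtain ⟨y, hy⟩ := h.Inn_step hg (by omega) (by push_cast; rw [h3]; simp) hx
    obtain ⟨z, hz⟩ := h.Inn_step hg (by omega) (by push_cast; rw [h3, zero_mul]; decide) hy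
    exact ⟨z, hz.mono (by omega)⟩

theorem exists_inn (hm : 2 * c + 3 ≤ m) (hg : g ∈ K m) :
    ∃ x ∈ Φ.F m, Inn Φ μ g x (m + c) := by
  obtain ⟨x, hx⟩ := h.Inn_even (m / 2 - 1) g (h.nt.anti (by omega) hg)
  exact ⟨x, (h.inn_mem hx (by omega)).1 hg, hx.mono (by omega)⟩

theorem exists_inn' (hm : 2 * c + 3 ≤ m) (hx : x ∈ Φ.F m) :
    ∃ g ∈ K m, Inn Φ μ g x (m + c) := by
  have key : ∀ t : ℕ, t ≤ c → ∃ g ∈ K m, ∃ y, Inn Φ μ g y (m + c) ∧ x - y ∈ Φ.F (m + t : ℕ) := by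
    intro t
    induction t with
    | zero =>
      exact fun _ => ⟨1, one_mem _, 0, Inn_zero (i := m + c) (one_mem _), by simpa using hx⟩
    | succ t ih =>
      intro ht
      obtain ⟨g, hg, y, hy, hxy⟩ := ih (by omega)
      obtain ⟨u, hu, hu'⟩ := h.nt.surj (m + t) (by omega)
      have hv : u ^ ((Φ.ℓ (m + t : ℕ) (x - y)).val : ℤ) ∈ K (m + t) := zpow_mem hu _
      have hv' : lG (m + t) (u ^ ((Φ.ℓ (m + t : ℕ) (x - y)).val : ℤ)) = Φ.ℓ (m + t : ℕ) (x - y) := by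
        rw [(h.nt.cls _ (by omega)).zpow hu, hu']
        simp
      obtain ⟨z, -, hz⟩ := h.exists_inn hm (h.nt.anti (Nat.le_add_right m t) hv)
      refine ⟨_, mul_mem hg (h.nt.anti (Nat.le_add_right m t) hv), y + z,
        h.inn_mul hg hv (by omega) hy hz, ?_⟩
      rw [← sub_sub]
      refine Φ.mono (Φ.sub_mem_succ hxy ((h.inn_mem hz (by omega)).1 hv) ?_) (by omega)
      rw [← hv', h.inn_lead hz (by omega) (by omega) hv]
  obtain ⟨g, hg, y, hy, hxy⟩ := key c le_rfl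
  refine ⟨g, hg, fun l w hw => ?_⟩
  have := sub_mem (hy hw) (h.toW3.mem hxy hw (show l + (m + c) ≤ _ by omega))
  convert this using 1
  rw [map_sub, AddMonoidHom.sub_apply]
  abel

theorem restr (hm : 2 * c + 3 ≤ m) (h3 : Three Φ.toFilt (2 * m + c)) :
    Restr Φ.toFilt μ m c := by
  intro x hx
  obtain ⟨g, hg, hgx⟩ := h.exists_inn' hm hx
  have key : ∀ ⦃l : ℤ⦄ ⦃w : A⦄, w ∈ Φ.F l →
      Φ.ρ (g * g * g) w - w - μ x (μ x (μ x w)) ∈ Φ.F (l + (3 * m + c)) := by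
    intro l w hw
    have d1 := Φ.ρ_deg hg hw
    have d2 := Φ.ρ_deg hg d1
    have t1 := Φ.mono (hgx d2) (show l + (3 * m + c) ≤ _ by omega)
    have t2 := h.toW3.mem hx (hgx d1) (show l + (3 * m + c) ≤ _ by omega)
    have t3 := h.toW3.mem hx (h.toW3.mem hx (hgx hw) le_rfl) (show l + (3 * m + c) ≤ _ by omega)
    have t4 := Φ.mono (h3 (Φ.ρ_deg hg (h.Inn_ρ_mem g hw))) (show l + (3 * m + c) ≤ _ by omega)
    have := add_mem (add_mem (add_mem t1 t2) t3) t4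
    convert this using 1
    simp only [Φ.ρ_mul, map_sub]
    abel
  have hg3 : g * g * g ∈ K (3 * m) := h.mem_K fun l w hw => by
    have := add_mem (Φ.mono (key hw) (show l + (3 * m : ℕ) ≤ _ by omega))
      (h.toW3.mem hx (h.toW3.mem hx (h.toW3.mem hx hw le_rfl) le_rfl)
        (show l + (3 * m : ℕ) ≤ _ by omega))
    rwa [sub_add_cancel] at this
  obtain ⟨y, -, hy⟩ := h.exists_inn (c := c) (by omega) hg3
  refine ⟨y, fun l w hw => ?_⟩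
  have := sub_mem (Φ.mono (hy hw) (show l + (3 * m + c) ≤ _ by omega)) (key hw)
  rwa [sub_sub_sub_cancel_left] at this

theorem three_of_link {R : G → Nott 3 → Prop} (L : Link K lG R 200) : Three Φ.toFilt 45 := by
  rcases h.toW3.dichotomy with h0 | ⟨d, -, hd, hd'⟩
  · intro i a _
    rw [h0]
    exact zero_mem _
  obtain ⟨g, hg, hx⟩ := h.exists_inn' (m := 93) (c := 45) (by omega) (Φ.e_mem _)
  obtain ⟨g', hg'⟩ := L.left g
  have h1 := cube_mem ((L.mem hg' (by omega) (by omega)).1 hg)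
  rw [pow_three'] at h1
  have h2 : g * g * g ∈ K 138 := (L.mem (L.mul (L.mul hg' hg') hg') (by omega) (by omega)).2
    (Nott.nt.anti (by omega) h1)
  have h3 := (h.inn_mem (h.inn_mul (mul_mem hg hg) hg (by omega)
    (h.inn_mul hg hg (by omega) hx hx) hx) (by omega)).1 h2
  have h4 : 45 ≤ d := by
    by_contra hc
    refine hd' ((93 : ℕ) : ℤ) (Φ.ℓ_zero (j := ((138 : ℕ) : ℤ)) ?_ (by omega))
    rwa [three'_nsmul]
  exact fun i a ha => Φ.mono (hd ha) (by omega)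

end Lim

end Pool.Agent.Lib.MP_ffb54b_al.P3
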