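import Pool.Agent.Lib.MP_ffb54b_al.P3.Coc
import Pool.Agent.Lib.MP_ffb54b_al.P3.Inn

set_option autoImplicit false
set_option linter.unusedSectionVars false

namespace Pool.Agent.Lib.MP_ffb54b_al.P3

open PowerSeries
open scoped commutatorElement

variable {A : Type*} [AddCommGroup A] {Φ : Filt 3 A} {μ : A →+ A →+ A}

/-- The error in the Witt relation. -/
def basErr (μ : A →+ A →+ A) (x : ℤ → A) (i j : ℤ) : A := μ (x i) (x j) - (j - i) • x (i + j)

lemma basErr_add (x z : ℤ → A) (i j : ℤ) : basErr μ (x + z) i j = basErr μ x i j +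
    (μ (z i) (x j) + μ (x i) (z j) - (j - i) • z (i + j)) + μ (z i) (z j) := by
  simp only [basErr, Pi.add_apply, map_add, AddMonoidHom.add_apply, smul_add]
  abel

lemma basErr_eq (x : ℤ → A) (i j : ℤ) :
    μ (x i) (x j) = (j - i) • x (i + j) + basErr μ x i j := by
  simp [basErr]

lemma BasZ.bas_add {x z : ℤ → A} (hx : BasZ Φ x) (hz : ∀ i, z i ∈ Φ.F (i + 1)) :
    BasZ Φ (x + z) := fun i =>
  ⟨add_mem (hx i).1 (Φ.mono (hz i) (by omega)), by
    rw [Pi.add_apply, Φ.add (hx i).1 (Φ.mono (hz i) (by omega)), Φ.ℓ_zero (hz i) (by omega),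
      add_zero, (hx i).2]⟩

lemma W3.bas_one (h : W3 Φ μ) : WB Φ μ Φ.e 1 := by
  refine ⟨basZ_e Φ, fun i j => Φ.sub_mem_succ (h.mem (Φ.e_mem i) (Φ.e_mem j) le_rfl)
    (zsmul_mem (Φ.e_mem _) _) ?_⟩
  rw [h.lead (Φ.e_mem i) (Φ.e_mem j) rfl, Φ.ℓ_zsmul (Φ.e_mem _), Φ.e_one, Φ.e_one, Φ.e_one]
  push_cast
  ring

/-- The relation that restrictedness imposes on the leading errors. -/
lemma W3.bas_restr (h : W3 Φ μ) {x : ℤ → A} {D m : ℤ} (hx : BasZ Φ x)
    (he : ∀ i j, basErr μ x i j ∈ Φ.F (i + j + D)) (h3 : Three Φ (D + 1))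
    (hr : Restr Φ μ m (D + 1)) (hD : (D : ZMod 3) = 0) (b : ℤ) :
    (m : ZMod 3) ^ 2 * Φ.ℓ (m + (m + 3 * b) + D) (basErr μ x m (m + 3 * b)) +
      (1 - (m : ZMod 3) ^ 2) * Φ.ℓ (3 * m + 3 * b + D) (basErr μ x (3 * m) (3 * b)) = 0 := by
  obtain ⟨y, hy⟩ := hr (x m) (hx m).1
  have key : ∀ j : ℤ, μ (y - (1 - m ^ 2) • x (3 * m)) (x j) ∈ Φ.F (j + (3 * m + D)) ∧
      Φ.ℓ (j + (3 * m + D)) (μ (y - (1 - m ^ 2) • x (3 * m)) (x j)) =
        ((j : ZMod 3) - m) * j * Φ.ℓ (m + (m + (m + j)) + D) (basErr μ x m (m + (m + j))) +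
        ((j : ZMod 3) - m) * (((m : ZMod 3) + j + D) *
          Φ.ℓ (m + (m + j) + D) (basErr μ x m (m + j))) +
        ((m : ZMod 3) + j + D) * (((j : ZMod 3) + D) * Φ.ℓ (m + j + D) (basErr μ x m j)) -
        (1 - (m : ZMod 3) ^ 2) * Φ.ℓ (3 * m + j + D) (basErr μ x (3 * m) j) := by
    intro j
    obtain ⟨t, ht⟩ : (3 : ℤ) ∣ (j - m) * j * (m + j) - (1 - m ^ 2) * (j - 3 * m) := by
      have h1 : (3 : ℤ) ∣ j ^ 3 - j := by
        rw [show (3 : ℤ) = ((3 : ℕ) : ℤ) from rfl, ← ZMod.intCast_zmod_eq_zero_iff_dvd]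
        push_cast
        generalize (j : ZMod 3) = u
        revert u
        decide
      obtain ⟨t, ht⟩ := h1
      exact ⟨t + m - m ^ 3, by linear_combination ht⟩
    have a0 := hy (hx j).1
    have a1 : ((j - m) * j) • basErr μ x m (m + (m + j)) ∈ Φ.F (j + (3 * m + D)) :=
      zsmul_mem (Φ.mono (he _ _) (by omega)) _
    have a2' := h.mem (hx m).1 (he m (m + j)) (k := j + (3 * m + D)) (by omega)
    have a2 := zsmul_mem a2' (j - m)
    have a3' := h.mem (hx m).1 (he m j) (k := m + (m + j + D)) le_rfl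
    have a3 := h.mem (hx m).1 a3' (k := j + (3 * m + D)) (by omega)
    have a4 : (1 - m ^ 2) • basErr μ x (3 * m) j ∈ Φ.F (j + (3 * m + D)) :=
      zsmul_mem (Φ.mono (he _ _) (by omega)) _
    have a5 : t • (3 • x (3 * m + j)) ∈ Φ.F (j + (3 * m + D) + 1) :=
      zsmul_mem (Φ.mono (h3 (hx _).1) (by omega)) _
    have a6 : t • (3 • x (3 * m + j)) - (μ (x m) (μ (x m) (μ (x m) (x j))) - μ y (x j)) ∈
        Φ.F (j + (3 * m + D) + 1) := sub_mem a5 (Φ.mono a0 (by omega))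
    have e1 : μ (y - (1 - m ^ 2) • x (3 * m)) (x j) =
        (((j - m) * j) • basErr μ x m (m + (m + j)) + (j - m) • μ (x m) (basErr μ x m (m + j)) +
          μ (x m) (μ (x m) (basErr μ x m j)) - (1 - m ^ 2) • basErr μ x (3 * m) j) +
        (t • (3 • x (3 * m + j)) - (μ (x m) (μ (x m) (μ (x m) (x j))) - μ y (x j))) := by
      have e2 : μ (x m) (μ (x m) (μ (x m) (x j))) =
          ((j - m) * j * (m + j)) • x (3 * m + j) + ((j - m) * j) • basErr μ x m (m + (m + j)) +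
            (j - m) • μ (x m) (basErr μ x m (m + j)) + μ (x m) (μ (x m) (basErr μ x m j)) := by
        rw [basErr_eq x m j, map_add, map_zsmul, basErr_eq x m (m + j), map_add, map_zsmul,
          map_add, map_zsmul, basErr_eq x m (m + (m + j)),
          show m + (m + (m + j)) = 3 * m + j by ring]
        module
      have e3 : t • (3 • x (3 * m + j)) =
          ((j - m) * j * (m + j) - (1 - m ^ 2) * (j - 3 * m)) • x (3 * m + j) := by
        rw [ht]
        module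
      rw [e2, e3, map_sub, map_zsmul, AddMonoidHom.sub_apply, AddMonoidHom.zsmul_apply,
        basErr_eq x (3 * m) j]
      module
    have b1 := sub_mem (add_mem (add_mem a1 a2) a3) a4
    rw [e1]
    refine ⟨add_mem b1 (Φ.mono a6 (by omega)), ?_⟩
    rw [Φ.add b1 (Φ.mono a6 (by omega)), Φ.ℓ_zero a6 (by omega), add_zero,
      Φ.ℓ_sub (add_mem (add_mem a1 a2) a3) a4, Φ.add (add_mem a1 a2) a3, Φ.add a1 a2,
      Φ.ℓ_zsmul (Φ.mono (he _ _) (by omega)), Φ.ℓ_zsmul a2', Φ.ℓ_zsmul (Φ.mono (he _ _) (by omega)),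
      h.lead (hx m).1 (he m (m + j)) (by ring), h.lead (hx m).1 a3' (by ring),
      h.lead (hx m).1 (he m j) rfl, (hx m).2,
      show m + (m + (m + j)) + D = j + (3 * m + D) by ring,
      show 3 * m + j + D = j + (3 * m + D) by ring]
    push_cast
    ring
  have hy' := h.mem_of_ad hx fun j => (key j).1
  have k1 := (key (3 * b)).2
  rw [h.lead hy' (hx (3 * b)).1 (by ring)] at k1
  have h30 : (3 : ZMod 3) = 0 := rfl
  push_cast at k1
  rw [hD, h30] at k1
  linear_combination k1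

lemma W3.bas_step (h : W3 Φ μ) {x : ℤ → A} {D : ℤ} (hD : 1 ≤ D) (hx : WB Φ μ x D)
    (h3 : Three Φ (D + 1)) (hr : ∀ r : ZMod 3, ∃ m : ℤ, (m : ZMod 3) = r ∧ Restr Φ μ m (D + 1)) :
    ∃ z : ℤ → A, (∀ i, z i ∈ Φ.F (i + D)) ∧ WB Φ μ (x + z) (D + 1) := by
  obtain ⟨hx, he⟩ := hx
  replace he : ∀ i j, basErr μ x i j ∈ Φ.F (i + j + D) := he
  have res : ∀ {m : ℤ} (r : ℤ), (m : ZMod 3) = r → ∃ a, m = 3 * a + r := by
    intro m r hm
    obtain ⟨a, ha⟩ := (ZMod.intCast_eq_intCast_iff_dvd_sub r m 3).1 hm.symm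
    exact ⟨a, by push_cast at ha; omega⟩
  obtain ⟨b, hb⟩ := coc3 (fun i j => Φ.ℓ (i + j + D) (basErr μ x i j)) D (fun i j => by
      rw [← Φ.ℓ_neg (he j i), add_comm j]
      congr 1
      rw [basErr, basErr, h.anti, add_comm j, ← neg_sub i, neg_smul]
      abel) (fun i j k => by
      have key : ∀ i j k : ℤ, ∃ r ∈ Φ.F (i + j + k + D), μ (μ (x i) (x j)) (x k) =
          ((j - i) * (k - (i + j))) • x (i + j + k) + r ∧ Φ.ℓ (i + j + k + D) r =
          ((j : ZMod 3) - i) * Φ.ℓ (i + j + k + D) (basErr μ x (i + j) k) +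
            ((k : ZMod 3) - (i + j + D)) * Φ.ℓ (i + j + D) (basErr μ x i j) := by
        intro i j k
        have a1 := zsmul_mem (he (i + j) k) (j - i)
        have a2 := h.mem (he i j) (hx k).1 (k := i + j + k + D) (by omega)
        refine ⟨_, add_mem a1 a2, ?_, ?_⟩
        · rw [basErr_eq x i j, map_add, map_zsmul, AddMonoidHom.add_apply,
            AddMonoidHom.zsmul_apply, basErr_eq x (i + j) k]
          module
        · rw [Φ.add a1 a2, Φ.ℓ_zsmul (he _ _), h.lead (he i j) (hx k).1 (by ring), (hx k).2]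
          push_cast
          ring
      obtain ⟨r1, m1, e1, l1⟩ := key i j k
      obtain ⟨r2, m2, e2, l2⟩ := key j k i
      obtain ⟨r3, m3, e3, l3⟩ := key k i j
      rw [show j + k + i = i + j + k by ring] at m2 l2 e2 ⊢
      rw [show k + i + j = i + j + k by ring] at m3 l3 e3 ⊢
      have e4 : r1 + r2 + r3 = 0 := by
        have := h.jac (x i) (x j) (x k)
        rw [e1, e2, e3] at this
        linear_combination (norm := module) this
      have l4 := Φ.ℓ_zero (i := i + j + k + D) (e4 ▸ zero_mem _ : r1 + r2 + r3 ∈ Φ.F _)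
        (lt_add_one _)
      rw [Φ.add (add_mem m1 m2) m3, Φ.add m1 m2, l1, l2, l3] at l4
      linear_combination l4) (fun hD0 => by
      obtain ⟨m, hm, hm'⟩ := hr 0
      refine ⟨m, fun b => ?_⟩
      have := h.bas_restr hx he h3 hm' hD0 b
      rw [hm] at this
      simpa using this) (fun hD0 => by
      obtain ⟨m, hm, hm'⟩ := hr 1
      obtain ⟨a, rfl⟩ := res 1 (by simpa using hm)
      refine ⟨a, fun b => ?_⟩
      have := h.bas_restr hx he h3 hm' hD0 (b - a)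
      rw [hm, show 3 * a + 1 + 3 * (b - a) = 3 * b + 1 by ring] at this
      simpa using this) (fun hD0 => by
      obtain ⟨m, hm, hm'⟩ := hr 2
      obtain ⟨a, rfl⟩ := res 2 (by simpa using hm)
      refine ⟨a, fun b => ?_⟩
      have := h.bas_restr hx he h3 hm' hD0 (b - a)
      rw [hm, show 3 * a + 2 + 3 * (b - a) = 3 * b + 2 by ring,
        show (2 : ZMod 3) ^ 2 = 1 by decide] at this
      simpa using this)
  have hz : ∀ i, ((b i).val : ℤ) • Φ.e (i + D) ∈ Φ.F (i + D) := fun i => zsmul_mem (Φ.e_mem _) _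
  have hz' : ∀ i, Φ.ℓ (i + D) (((b i).val : ℤ) • Φ.e (i + D)) = b i :=
    fun i => by rw [Φ.ℓ_zsmul (Φ.e_mem _), Φ.e_one]; simp
  refine ⟨_, hz, hx.bas_add fun i => Φ.mono (hz i) (by omega), fun i j => ?_⟩
  have a1 := zsmul_mem (hz (i + j)) (j - i)
  have a2 := h.mem (hz i) (hx j).1 (k := i + j + D) (by omega)
  have a3 := h.mem (hx i).1 (hz j) (k := i + j + D) (by omega)
  change basErr μ _ i j ∈ _
  rw [basErr_add]
  refine add_mem ?_ (h.mem (hz i) (hz j) (by omega))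
  rw [← add_assoc, ← Φ.zero (add_mem (he i j) (sub_mem (add_mem a2 a3) a1)),
    Φ.add (he i j) (sub_mem (add_mem a2 a3) a1), Φ.ℓ_sub (add_mem a2 a3) a1, Φ.add a2 a3,
    Φ.ℓ_zsmul (hz _), h.lead (hz i) (hx j).1 (by ring), h.lead (hx i).1 (hz j) (by ring), hz', hz',
    hz', (hx i).2, (hx j).2]
  have := hb i j
  push_cast
  linear_combination this

theorem W3.exists_wb (h : W3 Φ μ) (c : ℕ) (h3 : Three Φ c)
    (hr : ∀ r : ZMod 3, ∃ m : ℤ, (m : ZMod 3) = r ∧ Restr Φ μ m c) : ∃ x, WB Φ μ x c := by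
  induction c with
  | zero => exact ⟨Φ.e, basZ_e Φ, fun i j => Φ.mono (h.bas_one.2 i j) (by omega)⟩
  | succ c ih =>
    rcases Nat.eq_zero_or_pos c with rfl | hc
    · exact ⟨Φ.e, by simpa using h.bas_one⟩
    obtain ⟨x, hx⟩ := ih (fun i a ha => Φ.mono (h3 ha) (by omega)) fun r => by
      obtain ⟨m, hm, hm'⟩ := hr r
      refine ⟨m, hm, fun x hx => ?_⟩
      obtain ⟨y, hy⟩ := hm' x hx
      exact ⟨y, fun i a ha => Φ.mono (hy ha) (by omega)⟩
    push_cast at h3 hr ⊢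
    obtain ⟨z, -, hz⟩ := h.bas_step (by omega) hx h3 hr
    exact ⟨_, hz⟩

theorem W3.exists_exact (h : W3 Φ μ) (h3 : ∀ a : A, 3 • a = 0)
    (hr : ∀ c : ℕ, ∀ r : ZMod 3, ∃ m : ℤ, (m : ZMod 3) = r ∧ Restr Φ μ m c) :
    ∃ x, BasZ Φ x ∧ ∀ i j, μ (x i) (x j) = (j - i) • x (i + j) := by
  have := fun (d : ℕ) x (hx : WB Φ μ x (d + 1)) => h.bas_step (by omega) hx
    (fun i a _ => by rw [h3]; exact zero_mem _) (by simpa [add_assoc] using hr (d + 1 + 1))
  choose! z hz hz' using this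
  let s : ℕ → ℤ → A := Nat.rec Φ.e fun d x => x + z d x
  have hs : ∀ d : ℕ, WB Φ μ (s d) (d + 1) := fun d => by
    induction d with
    | zero => exact h.bas_one
    | succ d ih => exact_mod_cast hz' d _ ih
  choose y hy using fun i : ℤ => Φ.complete (i + 1) (fun c => s (c + 1) i - s c i) fun c => by
    have := hz c _ (hs c) i
    rw [show i + 1 + c = i + (c + 1) by ring]
    simpa [s] using this
  have hy' : ∀ (c : ℕ) (i : ℤ), (s 0 + y - s c) i ∈ Φ.F (i + 1 + c) := fun c i => by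
    have := hy i c
    rw [Finset.sum_range_sub fun c => s c i] at this
    convert this using 1
    simp only [Pi.sub_apply, Pi.add_apply]
    abel
  refine ⟨s 0 + y, (hs 0).1.bas_add fun i => by simpa using hy i 0, fun i j => sub_eq_zero.1
    (Φ.sep' (a := basErr μ (s 0 + y) i j) (i := i + j + 1) fun c => ?_)⟩
  have := basErr_add (μ := μ) (s c) (s 0 + y - s c) i j
  rw [add_sub_cancel] at this
  exact this.symm ▸ add_mem (add_mem (Φ.mono ((hs c).2 i j) (by omega)) (sub_mem (add_mem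
    (h.mem (hy' c i) ((hs c).1 j).1 (by omega)) (h.mem ((hs c).1 i).1 (hy' c j) (by omega)))
    (zsmul_mem (hy' c _) _))) (h.mem (hy' c i) (hy' c j) (by omega))

end Pool.Agent.Lib.MP_ffb54b_al.P3
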