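import Pool.Agent.Lib.MP_ffb54b_al.P3.Op

set_option autoImplicit false
set_option linter.unusedSectionVars false

namespace Pool.Agent.Lib.MP_ffb54b_al.P3

open PowerSeries
open scoped commutatorElement

variable {A : Type*} [AddCommGroup A] {G : Type*} [Group G] {K : ℕ → Subgroup G}
  [∀ i, (K i).Normal] {lG : ℕ → G → ZMod 3} {Φ : Act 3 A K lG} {μ : A →+ A →+ A}

section Ops

variable {Ψ : Filt 3 A} {S T : A →+ A} {e e' N : ℤ} {r r' : ZMod 3}

lemma LeadE.cen_deg (h : LeadE Ψ T e r) : DegE Ψ T e := fun _ _ ha => (h ha).1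

lemma LeadE.cen_succ (h : LeadE Ψ T e 0) : DegE Ψ T (e + 1) := fun i a ha => by
  have := h ha
  rw [← add_assoc, ← Ψ.zero this.1, this.2, zero_mul]

lemma DegE.cen_mono (h : DegE Ψ T e) (he : e' ≤ e) : DegE Ψ T e' := fun _ _ ha =>
  Ψ.mono (h ha) (by omega)

lemma DegE.cen_lead0 (h : DegE Ψ T e) (he : e' < e) : LeadE Ψ T e' 0 := fun _ _ ha =>
  ⟨Ψ.mono (h ha) (by omega), by rw [Ψ.ℓ_zero (h ha) (by omega), zero_mul]⟩

lemma LeadE.cen_comp (h : LeadE Ψ S e r) (h' : LeadE Ψ T e' r') {d : ℤ} (hd : d = e' + e) :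
    LeadE Ψ (S.comp T) d (r * r') := fun i a ha => by
  have h1 := h' ha
  have h2 := h h1.1
  rw [hd, ← add_assoc, AddMonoidHom.comp_apply]
  exact ⟨h2.1, by rw [h2.2, h1.2, mul_assoc]⟩

lemma LeadE.cen_add (h : LeadE Ψ S e r) (h' : LeadE Ψ T e r') : LeadE Ψ (S + T) e (r + r') :=
  fun i a ha => by
    rw [AddMonoidHom.add_apply]
    exact ⟨add_mem (h ha).1 (h' ha).1, by
      rw [Ψ.add (h ha).1 (h' ha).1, (h ha).2, (h' ha).2, add_mul]⟩

lemma LeadE.cen_sub (h : LeadE Ψ S e r) (h' : LeadE Ψ T e r') : LeadE Ψ (S - T) e (r - r') :=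
  fun i a ha => by
    rw [AddMonoidHom.sub_apply]
    exact ⟨sub_mem (h ha).1 (h' ha).1, by
      rw [Ψ.ℓ_sub (h ha).1 (h' ha).1, (h ha).2, (h' ha).2, sub_mul]⟩

lemma LeadE.cen_smul (h : LeadE Ψ T e r) (t : ZMod 3) :
    LeadE Ψ ((t.val : ℤ) • T) e (t * r) := fun i a ha => by
  rw [AddMonoidHom.smul_apply]
  exact ⟨zsmul_mem (h ha).1 _, by
    rw [Ψ.ℓ_zsmul (h ha).1, (h ha).2, mul_assoc]; simp⟩

lemma Cen.cen_mono (h : Cen Ψ μ T e) (he : e' ≤ e) : Cen Ψ μ T e' := fun _ _ _ _ hy ha =>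
  Ψ.mono (h hy ha) (by omega)

lemma Cen.cen_sub (h : Cen Ψ μ S e) (h' : Cen Ψ μ T e) (n : ℤ) : Cen Ψ μ (S - n • T) e :=
  fun i j y a hy ha => by
    have := sub_mem (h hy ha) (zsmul_mem (h' hy ha) n)
    convert this using 1
    simp only [AddMonoidHom.sub_apply, AddMonoidHom.smul_apply, map_sub, map_zsmul, smul_sub]
    abel

/-- Extension of a depth estimate from a basis to all elements. -/
lemma BasZ.cen_ext {x : ℤ → A} (hx : BasZ Ψ x) (c : ℕ) (f : A → A)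
    (hf : ∀ a b, f (a + b) = f a + f b) (s : ℤ)
    (h1 : ∀ (i : ℤ) (a : A), a ∈ Ψ.F i → f a ∈ Ψ.F (i + s))
    (h2 : ∀ i, f (x i) ∈ Ψ.F (i + s + c)) {i : ℤ} {a : A} (ha : a ∈ Ψ.F i) :
    f a ∈ Ψ.F (i + s + c) :=
  hx.le (S := (Ψ.F (i + s + c)).comap (AddMonoidHom.mk' f hf)) (i := i) c
    (fun j hj => Ψ.mono (h2 j) (by omega)) (fun b hb => Ψ.mono (h1 _ b hb) (by omega)) ha

end Ops

namespace W3

variable {Ψ : Filt 3 A} (h : W3 Ψ μ)
include h

lemma cen_lead {T : A →+ A} {e N : ℤ} (hT : DegE Ψ T e) (hc : Cen Ψ μ T N) (he : e < N) :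
    ∃ r, LeadE Ψ T e r ∧ ((e : ZMod 3) ≠ 0 → r = 0) := by
  set lam : ℤ → ZMod 3 := fun i => Ψ.ℓ (i + e) (T (Ψ.e i)) with hlam
  have L : ∀ {i : ℤ} {a : A}, a ∈ Ψ.F i → Ψ.ℓ (i + e) (T a) = Ψ.ℓ i a * lam i := fun {i a} ha =>
    (Ψ.lead₁ T (fun b hb => Ψ.mono (hT hb) (by omega)) ha (Ψ.e_mem i) (Ψ.e_one i)
      (hT (Ψ.e_mem i))).2
  have R : ∀ i j : ℤ, ((i : ZMod 3) - j) * lam (i + j) = ((i : ZMod 3) + e - j) * lam i := by
    intro i j
    have m1 : μ (Ψ.e j) (Ψ.e i) ∈ Ψ.F (i + j) := h.mem (Ψ.e_mem j) (Ψ.e_mem i) (by omega)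
    have m2 : μ (Ψ.e j) (T (Ψ.e i)) ∈ Ψ.F (i + j + e) :=
      h.mem (Ψ.e_mem j) (hT (Ψ.e_mem i)) (by omega)
    have h1 := Ψ.ℓ_zero (i := i + j + e) (hc (Ψ.e_mem j) (Ψ.e_mem i)) (by omega)
    rw [Ψ.ℓ_sub (hT m1) m2, L m1, h.lead (Ψ.e_mem j) (Ψ.e_mem i) (by omega),
      h.lead (Ψ.e_mem j) (hT (Ψ.e_mem i)) (by omega), Ψ.e_one, Ψ.e_one] at h1
    push_cast at h1
    linear_combination h1
  have Z : (e : ZMod 3) ≠ 0 → ∀ i, lam i = 0 := fun he0 i => by
    have := R i i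
    rw [sub_self, zero_mul, add_sub_cancel_left] at this
    exact (mul_eq_zero.1 this.symm).resolve_left he0
  have C : ∀ i, lam i = lam 0 := by
    by_cases he0 : (e : ZMod 3) = 0
    · have C1 : ∀ m : ℤ, (m : ZMod 3) ≠ 0 → lam m = lam 0 := fun m hm => by
        have := R 0 m
        rw [he0, zero_add, add_zero] at this
        refine mul_left_cancel₀ (a := ((0 : ℤ) : ZMod 3) - m) ?_ this
        simpa using hm
      intro m
      by_cases hm : (m : ZMod 3) = 0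
      · have := R 1 (m - 1)
        rw [he0, add_zero, show 1 + (m - 1) = m by ring] at this
        have h2 : ((1 : ℤ) : ZMod 3) - ((m - 1 : ℤ) : ZMod 3) ≠ 0 := by
          push_cast; rw [hm]; decide
        rw [mul_left_cancel₀ h2 this]
        exact C1 1 (by decide)
      · exact C1 m hm
    · intro i; rw [Z he0, Z he0]
  exact ⟨lam 0, fun i a ha => ⟨hT ha, by rw [L ha, C i, mul_comm]⟩, fun he0 => Z he0 0⟩

lemma cen_term {i j k l : ℤ} {a b d w : A} (ha : a ∈ Ψ.F i) (hb : b ∈ Ψ.F j) (hd : d ∈ Ψ.F k)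
    (hw : w ∈ Ψ.F l) {s : ℤ} (hs : s = i + j + k + l) :
    μ a (μ (μ b d) w) ∈ Ψ.F s ∧ Ψ.ℓ s (μ a (μ (μ b d) w)) =
      ((k : ZMod 3) - j) * (l - j - k) * (j + k + l - i) *
        (Ψ.ℓ i a * Ψ.ℓ j b * Ψ.ℓ k d * Ψ.ℓ l w) := by
  have m1 : μ b d ∈ Ψ.F (j + k) := h.mem hb hd le_rfl
  have m2 : μ (μ b d) w ∈ Ψ.F (j + k + l) := h.mem m1 hw le_rfl
  refine ⟨h.mem ha m2 (by omega), ?_⟩
  rw [h.lead ha m2 (by omega), h.lead m1 hw rfl, h.lead hb hd rfl]
  push_cast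
  ring

lemma tri_lead {i j k : ℤ} {a b d : A} (ha : a ∈ Ψ.F i) (hb : b ∈ Ψ.F j) (hd : d ∈ Ψ.F k) :
    LeadE Ψ (triE μ a b d) (i + j + k)
      (2 * ((j : ZMod 3) - i) * (k - j) * (i - k) * Ψ.ℓ i a * Ψ.ℓ j b * Ψ.ℓ k d) := by
  intro l w hw
  have t1 := h.cen_term ha hb hd hw (s := l + (i + j + k)) (by ring)
  have t2 := h.cen_term hb hd ha hw (s := l + (i + j + k)) (by ring)
  have t3 := h.cen_term hd ha hb hw (s := l + (i + j + k)) (by ring)
  rw [triE_apply]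
  refine ⟨add_mem (add_mem t1.1 t2.1) t3.1, ?_⟩
  rw [Ψ.add (add_mem t1.1 t2.1) t3.1, Ψ.add t1.1 t2.1, t1.2, t2.2, t3.2]
  ring

lemma cen_left {x : ℤ → A} {c : ℕ} (hx : WB Ψ μ x c) (i : ℤ) {m n : ℤ} {u : A}
    (hu : u - n • x m ∈ Ψ.F (m + c)) :
    μ (x i) u - (n * (m - i)) • x (i + m) ∈ Ψ.F (i + m + c) := by
  have := add_mem (h.mem (hx.1 i).1 hu (k := i + m + c) (by omega)) (zsmul_mem (hx.2 i m) n)
  convert this using 1
  simp only [map_sub, map_zsmul, smul_sub, mul_smul]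
  abel

lemma cen_right {x : ℤ → A} {c : ℕ} (hx : WB Ψ μ x c) (i : ℤ) {m n : ℤ} {u : A}
    (hu : u - n • x m ∈ Ψ.F (m + c)) :
    μ u (x i) - (n * (i - m)) • x (m + i) ∈ Ψ.F (m + i + c) := by
  have := add_mem (h.mem hu (hx.1 i).1 (k := m + i + c) (by omega)) (zsmul_mem (hx.2 m i) n)
  convert this using 1
  simp only [map_sub, map_zsmul, smul_sub, mul_smul, AddMonoidHom.sub_apply,
    AddMonoidHom.smul_apply]
  abel

lemma cen_bterm {x : ℤ → A} {c : ℕ} (hx : WB Ψ μ x c) (i j k l : ℤ) {s : ℤ}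
    (hs : s = i + (j + k + l)) :
    μ (x i) (μ (μ (x j) (x k)) (x l)) - ((k - j) * (l - (j + k)) * (j + k + l - i)) • x s ∈
      Ψ.F (s + c) := by
  rw [hs]
  exact h.cen_left hx i (h.cen_right hx l (hx.2 j k))

lemma tri_bas {x : ℤ → A} {c : ℕ} (hx : WB Ψ μ x c) (i j k l : ℤ) :
    triE μ (x i) (x j) (x k) (x l) - (2 * (j - i) * (k - j) * (i - k)) • x (i + j + k + l) ∈
      Ψ.F (i + j + k + l + c) := by
  have t1 := h.cen_bterm hx i j k l (s := i + j + k + l) (by ring)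
  have t2 := h.cen_bterm hx j k i l (s := i + j + k + l) (by ring)
  have t3 := h.cen_bterm hx k i j l (s := i + j + k + l) (by ring)
  have := add_mem (add_mem t1 t2) t3
  convert this using 1
  rw [triE_apply, show 2 * (j - i) * (k - j) * (i - k) =
    (k - j) * (l - (j + k)) * (j + k + l - i) + (i - k) * (l - (k + i)) * (k + i + l - j) +
      (j - i) * (l - (i + j)) * (i + j + l - k) by ring, add_smul, add_smul]
  abel

lemma cen_Qdeg {i j k m l : ℤ} {a b d y w : A} (ha : a ∈ Ψ.F i) (hb : b ∈ Ψ.F j)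
    (hd : d ∈ Ψ.F k) (hy : y ∈ Ψ.F m) (hw : w ∈ Ψ.F l) {s : ℤ} (hs : s ≤ i + j + k + m + l) :
    triE μ a b d (μ y w) - μ y (triE μ a b d w) ∈ Ψ.F s :=
  sub_mem (Ψ.mono ((h.tri_lead ha hb hd) (h.mem hy hw le_rfl)).1 (by omega))
    (h.mem hy ((h.tri_lead ha hb hd) hw).1 (by omega))

lemma cen_dvd (i j k : ℤ) : (3 : ℤ) ∣ 2 * (j - i) * (k - j) * (i - k) * (i + j + k) := by
  have key : ∀ a b c : ZMod 3, 2 * (b - a) * (c - b) * (a - c) * (a + b + c) = 0 := by decide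
  have := (ZMod.intCast_zmod_eq_zero_iff_dvd
    (2 * (j - i) * (k - j) * (i - k) * (i + j + k)) 3).1 (by push_cast; exact key _ _ _)
  exact_mod_cast this

lemma cen_Qbas {x : ℤ → A} {c : ℕ} (hx : WB Ψ μ x c) (h3 : Three Ψ c) (i j k m l : ℤ) {s : ℤ}
    (hs : s = i + j + k + m + l) :
    triE μ (x i) (x j) (x k) (μ (x m) (x l)) - μ (x m) (triE μ (x i) (x j) (x k) (x l)) ∈
      Ψ.F (s + c) := by
  obtain ⟨q, hq⟩ := h.cen_dvd i j k
  set t := 2 * (j - i) * (k - j) * (i - k) with ht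
  have a1 := ((h.tri_lead (hx.1 i).1 (hx.1 j).1 (hx.1 k).1) (hx.2 m l)).1
  have a2 := zsmul_mem (h.tri_bas hx i j k (m + l)) (l - m)
  have a3 := h.cen_left hx m (h.tri_bas hx i j k l)
  have a4 := zsmul_mem (h3 (hx.1 s).1) q
  rw [show i + j + k + (m + l) = s by omega] at a2
  rw [show m + (i + j + k + l) = s by omega] at a3
  have := sub_mem (sub_mem (add_mem (Ψ.mono a1 (show s + c ≤ _ by omega)) a2) a3) a4
  convert this using 1
  have e1 : (t * (i + j + k + l - m)) • x s = ((l - m) * t) • x s + (q * 3) • x s := by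
    rw [← add_smul]; congr 1; linear_combination hq
  rw [← ht, e1]
  simp only [map_sub, map_zsmul, smul_sub, mul_smul]
  have e2 : ((3 : ℤ) • x s) = (3 : ℕ) • x s := by rw [← natCast_zsmul]; rfl
  rw [e2]
  abel

theorem triCen {x : ℤ → A} {c : ℕ} (hx : WB Ψ μ x c) (h3 : Three Ψ c) : TriCen Ψ μ c := by
  have hb := hx.1
  have s1 : ∀ (i j k m l : ℤ) {w : A}, w ∈ Ψ.F l →
      triE μ (x i) (x j) (x k) (μ (x m) w) - μ (x m) (triE μ (x i) (x j) (x k) w) ∈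
        Ψ.F (l + (i + j + k + m) + c) := fun i j k m l w hw =>
    hb.cen_ext c (fun w => triE μ (x i) (x j) (x k) (μ (x m) w) -
        μ (x m) (triE μ (x i) (x j) (x k) w))
      (fun a b => by simp only [map_add]; abel) (i + j + k + m)
      (fun l a ha => h.cen_Qdeg (hb i).1 (hb j).1 (hb k).1 (hb m).1 ha (by omega))
      (fun l => h.cen_Qbas hx h3 i j k m l (by ring)) hw
  have s2 : ∀ (i j k m l : ℤ) {y w : A}, y ∈ Ψ.F m → w ∈ Ψ.F l →
      triE μ (x i) (x j) (x k) (μ y w) - μ y (triE μ (x i) (x j) (x k) w) ∈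
        Ψ.F (m + (i + j + k + l) + c) := fun i j k m l y w hy hw =>
    hb.cen_ext c (fun y => triE μ (x i) (x j) (x k) (μ y w) - μ y (triE μ (x i) (x j) (x k) w))
      (fun a b => by simp only [map_add, AddMonoidHom.add_apply]; abel) (i + j + k + l)
      (fun m a ha => h.cen_Qdeg (hb i).1 (hb j).1 (hb k).1 ha hw (by omega))
      (fun m => Ψ.mono (s1 i j k m l hw) (by omega)) hy
  have s3 : ∀ (i j k m l : ℤ) {d y w : A}, d ∈ Ψ.F k → y ∈ Ψ.F m → w ∈ Ψ.F l →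
      triE μ (x i) (x j) d (μ y w) - μ y (triE μ (x i) (x j) d w) ∈
        Ψ.F (k + (i + j + m + l) + c) := fun i j k m l d y w hd hy hw =>
    hb.cen_ext c (fun d => triE μ (x i) (x j) d (μ y w) - μ y (triE μ (x i) (x j) d w))
      (fun a b => by simp only [triE_apply, map_add, AddMonoidHom.add_apply]; abel)
      (i + j + m + l)
      (fun k a ha => h.cen_Qdeg (hb i).1 (hb j).1 ha hy hw (by omega))
      (fun k => Ψ.mono (s2 i j k m l hy hw) (by omega)) hd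
  have s4 : ∀ (i j k m l : ℤ) {b d y w : A}, b ∈ Ψ.F j → d ∈ Ψ.F k → y ∈ Ψ.F m → w ∈ Ψ.F l →
      triE μ (x i) b d (μ y w) - μ y (triE μ (x i) b d w) ∈
        Ψ.F (j + (i + k + m + l) + c) := fun i j k m l b d y w hb' hd hy hw =>
    hb.cen_ext c (fun b => triE μ (x i) b d (μ y w) - μ y (triE μ (x i) b d w))
      (fun a b => by simp only [triE_apply, map_add, AddMonoidHom.add_apply]; abel)
      (i + k + m + l)
      (fun j a ha => h.cen_Qdeg (hb i).1 ha hd hy hw (by omega))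
      (fun j => Ψ.mono (s3 i j k m l hd hy hw) (by omega)) hb'
  intro i j k a b d ha hb' hd l m y w hy hw
  exact Ψ.mono (hb.cen_ext c (fun a => triE μ a b d (μ y w) - μ y (triE μ a b d w))
      (fun a b => by simp only [triE_apply, map_add, AddMonoidHom.add_apply]; abel)
      (j + k + m + l)
      (fun i a ha => h.cen_Qdeg ha hb' hd hy hw (by omega))
      (fun i => Ψ.mono (s4 i j k m l hb' hd hy hw) (by omega)) ha) (by omega)

end W3

/-- Powers of an operator. -/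
def cenPow (U : A →+ A) : ℕ → A →+ A
  | 0 => AddMonoidHom.id A
  | k + 1 => U.comp (cenPow U k)

lemma cen_cm_sub (g : G) (S T : A →+ A) (n : ℤ) :
    cm Φ g S = cm Φ g (S - n • T) + n • cm Φ g T := by
  ext a
  simp only [cm_apply, AddMonoidHom.add_apply, AddMonoidHom.sub_apply, AddMonoidHom.smul_apply,
    map_sub, map_zsmul, smul_sub]
  abel

namespace Lim

variable (h : Lim Φ μ) {U : A →+ A} (hU : LeadE Φ.toFilt U 3 1) (hU' : Cen Φ.toFilt μ U 10)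
include h hU hU'

theorem cm_first (g : G) : ∃ r, LeadE Φ.toFilt (cm Φ g U) 6 r ∧
    (r = 0 → ∃ r', LeadE Φ.toFilt (cm Φ g U) 9 r') := by
  have hρ : ∀ (g : G) {i : ℤ} {a : A}, a ∈ Φ.F i → Φ.ρ g a ∈ Φ.F i := fun g i a ha => by
    simpa using (ρ_lead_one Φ h.nt g ha).1
  have hρ1 : ∀ (g : G) {i : ℤ} {a : A}, a ∈ Φ.F i → Φ.ρ g a - a ∈ Φ.F (i + 1) :=
    fun g i a ha => Φ.ρ_deg (k := 1) (g := g) (h.nt.top ▸ Subgroup.mem_top g) ha
  set V : A →+ A := (Φ.ρ g).comp (U.comp (Φ.ρ g⁻¹)) - U with hV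
  have Vap : ∀ a, V a = Φ.ρ g (U (Φ.ρ g⁻¹ a)) - U a := fun a => rfl
  have hc : Cen Φ.toFilt μ V 10 := fun i j y a hy ha => by
    have := sub_mem (hρ g (hU' (hρ g⁻¹ hy) (hρ g⁻¹ ha))) (hU' hy ha)
    convert this using 1
    rw [Vap, Vap, h.equi, map_sub, map_sub, h.equi, ρ_ρ_inv]
    abel
  have d4 : DegE Φ.toFilt V 4 := fun i a ha => by
    have := add_mem (Φ.mono (hρ1 g (hU (hρ g⁻¹ ha)).1) (show i + 4 ≤ _ by omega))
      (Φ.mono (hU (hρ1 g⁻¹ ha)).1 (show i + 4 ≤ _ by omega))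
    convert this using 1
    rw [Vap, map_sub]
    abel
  have step : ∀ e : ℤ, e < 10 → (e : ZMod 3) ≠ 0 → DegE Φ.toFilt V e →
      DegE Φ.toFilt V (e + 1) := fun e he he0 hd => by
    obtain ⟨r, hr, hr0⟩ := h.toW3.cen_lead hd hc he
    rw [hr0 he0] at hr
    exact hr.cen_succ
  have hcm : cm Φ g U = V.comp (Φ.ρ g) := by
    ext a
    rw [cm_apply, AddMonoidHom.comp_apply, Vap, ρ_inv_ρ]
  have d6 : DegE Φ.toFilt V 6 := step 5 (by omega) (by decide) (step 4 (by omega) (by decide) d4)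
  obtain ⟨r, hr, -⟩ := h.toW3.cen_lead d6 hc (by omega)
  refine ⟨r, ?_, fun hr0 => ?_⟩
  · simpa [hcm] using hr.cen_comp (ρ_lead_one Φ h.nt g) (d := 6) (by omega)
  · rw [hr0] at hr
    have d9 : DegE Φ.toFilt V 9 :=
      step 8 (by omega) (by decide) (step 7 (by omega) (by decide) hr.cen_succ)
    obtain ⟨r', hr', -⟩ := h.toW3.cen_lead d9 hc (by omega)
    exact ⟨r', by simpa [hcm] using hr'.cen_comp (ρ_lead_one Φ h.nt g) (d := 9) (by omega)⟩

lemma cen_pow_lead (k : ℕ) : LeadE Φ.toFilt (cenPow U k) (3 * k) 1 := by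
  induction k with
  | zero => intro i a ha; simpa [cenPow] using ha
  | succ k ih => simpa [cenPow] using hU.cen_comp ih (d := 3 * (k + 1 : ℕ)) (by push_cast; ring)

lemma cen_pow_cen (k : ℕ) : Cen Φ.toFilt μ (cenPow U k) (3 * k + 7) := by
  induction k with
  | zero => intro i j y a hy ha; simp [cenPow]
  | succ k ih =>
    intro i j y a hy ha
    have := add_mem (Φ.mono (hU (ih hy ha)).1 (show i + j + (3 * (k + 1 : ℕ) + 7) ≤ _ by omega))
      (Φ.mono (hU' hy (h.cen_pow_lead hU hU' k ha).1)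
        (show i + j + (3 * (k + 1 : ℕ) + 7) ≤ _ by omega))
    convert this using 1
    simp only [cenPow, AddMonoidHom.comp_apply, map_sub]
    abel

lemma cen_pow_cm {g : G} {j : ℕ} {r : ZMod 3}
    (hg : LeadE Φ.toFilt (cm Φ g U) (3 + 3 * j) r) (k : ℕ) :
    LeadE Φ.toFilt (cm Φ g (cenPow U k)) (3 * k + 3 * j) (k * r) := by
  induction k with
  | zero =>
    intro i a ha
    have : cm Φ g (cenPow U 0) a = 0 := by simp [cm_apply, cenPow]
    rw [this]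
    exact ⟨zero_mem _, by rw [Φ.ℓ_zero (j := _ + 1) (zero_mem _) (lt_add_one _)]; simp⟩
  | succ k ih =>
    have e1 : cm Φ g (cenPow U (k + 1)) =
        (cm Φ g U).comp (cenPow U k) + U.comp (cm Φ g (cenPow U k)) := by
      ext a
      simp only [cm_apply, cenPow, AddMonoidHom.add_apply, AddMonoidHom.comp_apply, map_sub]
      abel
    have := (hg.cen_comp (h.cen_pow_lead hU hU' k) (d := 3 * (k + 1 : ℕ) + 3 * j)
      (by push_cast; ring)).cen_add (hU.cen_comp ih (by push_cast; ring))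
    rw [e1]
    convert this using 1
    push_cast
    ring

lemma cen_cm_deg {g : G} {j : ℕ} {r : ZMod 3}
    (hg : LeadE Φ.toFilt (cm Φ g U) (3 + 3 * j) r) (N : ℤ) (n : ℕ) :
    ∀ (e : ℤ) (T : A →+ A), 0 ≤ e → N ≤ e + n → N ≤ e + 7 → DegE Φ.toFilt T e →
      Cen Φ.toFilt μ T N → DegE Φ.toFilt (cm Φ g T) (min N (e + 3 * j)) := by
  have hρ : ∀ {i : ℤ} {a : A}, a ∈ Φ.F i → Φ.ρ g a ∈ Φ.F i := fun {i a} ha => by
    simpa using (ρ_lead_one Φ h.nt g ha).1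
  have base : ∀ (e : ℤ) (T : A →+ A), N ≤ e → DegE Φ.toFilt T e →
      DegE Φ.toFilt (cm Φ g T) (min N (e + 3 * j)) := fun e T he hT i a ha =>
    Φ.mono (sub_mem (hρ (hT ha)) (hT (hρ ha))) (by omega)
  induction n with
  | zero => exact fun e T _ he _ hT _ => base e T (by simpa using he) hT
  | succ n ih =>
    intro e T h0 he h7 hT hc
    by_cases hN : N ≤ e
    · exact base e T hN hT
    obtain ⟨t, ht, ht0⟩ := h.toW3.cen_lead hT hc (by omega)
    by_cases he0 : (e : ZMod 3) = 0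
    · obtain ⟨q, hq⟩ : (3 : ℤ) ∣ e := by
        exact_mod_cast (ZMod.intCast_zmod_eq_zero_iff_dvd e 3).1 he0
      lift q to ℕ using by omega
      have l1 := (h.cen_pow_lead hU hU' q).cen_smul t
      rw [← hq, mul_one] at l1
      have l2 := ht.cen_sub l1
      rw [sub_self] at l2
      have l3 := ih (e + 1) _ (by omega) (by omega) (by omega) l2.cen_succ
        (hc.cen_sub ((h.cen_pow_cen hU hU' q).cen_mono (by omega)) _)
      rw [cen_cm_sub g T (cenPow U q) (t.val : ℤ)]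
      intro i a ha
      exact add_mem (Φ.mono (l3 ha) (by omega))
        (Φ.mono (((h.cen_pow_cm hU hU' hg q).cen_smul t) ha).1 (by omega))
    · rw [ht0 he0] at ht
      exact (ih (e + 1) T (by omega) (by omega) (by omega) ht.cen_succ hc).cen_mono (by omega)

theorem cm_lead {g : G} {j : ℕ} (hj : j ≤ 2) {r : ZMod 3}
    (hg : LeadE Φ.toFilt (cm Φ g U) (3 + 3 * j) r) {T : A →+ A} {k : ℕ} {t : ZMod 3}
    (hT : LeadE Φ.toFilt T (3 * k) t) (hT' : Cen Φ.toFilt μ T (3 * k + 7)) :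
    LeadE Φ.toFilt (cm Φ g T) (3 * k + 3 * j) (k * t * r) := by
  have l1 := (h.cen_pow_lead hU hU' k).cen_smul t
  rw [mul_one] at l1
  have l2 := hT.cen_sub l1
  rw [sub_self] at l2
  have l3 := h.cen_cm_deg hU hU' hg (3 * k + 7) 7 (3 * k + 1) _ (by omega) (by omega) (by omega)
    l2.cen_succ (hT'.cen_sub (h.cen_pow_cen hU hU' k) _)
  have l4 := (l3.cen_lead0 (e' := 3 * k + 3 * j) (by omega)).cen_add
    ((h.cen_pow_cm hU hU' hg k).cen_smul t)
  rw [cen_cm_sub g T (cenPow U k) (t.val : ℤ)]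
  convert l4 using 1
  ring

end Lim

end Pool.Agent.Lib.MP_ffb54b_al.P3
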