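import Pool.Agent.Lib.MP_ffb54b_al.P3.Op

set_option autoImplicit false
set_option linter.unusedSectionVars false

namespace Pool.Agent.Lib.MP_ffb54b_al.P3

open PowerSeries Finset
open scoped commutatorElement

variable {A : Type*} [AddCommGroup A]

lemma W3.c3_exists_E {Φ : Filt 3 A} {μ : A →+ A →+ A} (h : W3 Φ μ) (h3 : ∀ a : A, 3 • a = 0)
    {x : ℕ → A} (hx : Bas Φ x) (hx' : ∀ n m, μ (x n) (x m) = ((m : ℤ) - n) • x (n + m - 1)) :
    ∃ E : (ZMod 3)⟦X⟧ →+ A,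
    (∀ (n : ℕ) f, E f ∈ Φ.F (n - 1) ↔ X ^ n ∣ f) ∧
    (∀ (n : ℕ) f, X ^ n ∣ f → Φ.ℓ (n - 1) (E f) = coeff n f) ∧
    (∀ a ∈ Φ.F (-1), ∃ f, E f = a) ∧ (∀ f g, μ (E f) (E g) = E (br f g)) ∧
    ∀ n, E (X ^ n) = x n := by
  let _ : Module (ZMod 3) A := AddCommGroup.zmodModule h3
  have sm : ∀ (r : ZMod 3) (a : A), r • a = (r.val : ℤ) • a := fun r a => by
    rw [← Int.cast_smul_eq_zsmul (ZMod 3)]; simp
  have hm : ∀ (r : ZMod 3) (c : ℕ), r • x c ∈ Φ.F (-1 + c) ∧ Φ.ℓ (-1 + c) (r • x c) = r := by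
    intro r c
    rw [sm, show (-1 + c : ℤ) = c - 1 by ring, Φ.ℓ_zsmul (hx c).1, (hx c).2]
    exact ⟨zsmul_mem (hx c).1 _, by simp⟩
  choose E hE using fun f : (ZMod 3)⟦X⟧ => Φ.complete (-1) (fun c => coeff c f • x c)
    fun c => (hm _ c).1
  have uq : ∀ f a, (∀ c : ℕ, a - ∑ j ∈ range c, coeff j f • x j ∈ Φ.F (-1 + c)) → E f = a :=
    fun f a ha => sub_eq_zero.1 (Φ.sep' fun c => by simpa using sub_mem (hE f c) (ha c))
  have a1 : ∀ (n : ℕ) f, X ^ n ∣ f → E f ∈ Φ.F (n - 1) ∧ Φ.ℓ (n - 1) (E f) = coeff n f := by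
    intro n f hf
    have b1 := hE f n
    have b2 := hE f (n + 1)
    rw [sum_range_succ] at b2
    rw [sum_eq_zero fun j hj => by rw [X_pow_dvd_iff.1 hf j (mem_range.1 hj), zero_smul]] at b1 b2
    have b3 := Φ.ℓ_zero b2 (i := -1 + n) (by omega)
    rw [sub_zero] at b1
    rw [zero_add, Φ.ℓ_sub b1 (hm _ n).1, (hm _ n).2, sub_eq_zero] at b3
    rw [show (n - 1 : ℤ) = -1 + n by ring]
    exact ⟨b1, b3⟩
  let E' := AddMonoidHom.mk' E fun f g => uq _ _ fun c => by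
    convert add_mem (hE f c) (hE g c) using 1
    simp only [map_add, add_smul, sum_add_distrib]
    abel
  have a2 : ∀ n, E' (X ^ n) = x n := fun n => uq _ _ fun c => by
    simp only [coeff_X_pow, ite_smul, one_smul, zero_smul, sum_ite_eq', mem_range]
    split_ifs with h1
    · simp
    · rw [sub_zero]; exact Φ.mono (hx n).1 (by omega)
  have a3 : ∀ f, E' f ∈ Φ.F (-1) := fun f => Φ.mono (a1 0 f (by simp)).1 (by simp)
  have sp : ∀ i : ℤ, ∀ b, (∀ n : ℕ, b ∈ Φ.F (i + n)) → b = 0 := fun i b => Φ.sep'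
  refine ⟨E', fun n f => ⟨fun hf => ?_, fun hf => (a1 n f hf).1⟩, fun n f hf => (a1 n f hf).2,
    fun a ha => ?_, fun f g => ?_, a2⟩
  · induction n with
    | zero => simp
    | succ n ih =>
      have b1 := ih (Φ.mono hf (by omega))
      refine X_pow_dvd_iff.2 fun m hm => ?_
      rcases Nat.lt_succ_iff_lt_or_eq.1 hm with h1 | rfl
      · exact X_pow_dvd_iff.1 b1 m h1
      · exact (a1 m f b1).2.symm.trans (Φ.ℓ_zero hf (by omega))
  · let r : ℕ → A := Nat.rec a fun c r => r - Φ.ℓ (-1 + c) r • x c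
    have hr : ∀ c : ℕ, r c ∈ Φ.F (-1 + c) := fun c => by
      induction c with
      | zero => exact Φ.mono ha (by simp)
      | succ c ih => exact Φ.mono (Φ.sub_mem_succ ih (hm _ c).1 (hm _ c).2.symm) (by omega)
    refine ⟨PowerSeries.mk fun c => Φ.ℓ (-1 + c) (r c), uq _ _ fun c => ?_⟩
    convert hr c using 1
    induction c with
    | zero => simp [r]
    | succ c ih => rw [sum_range_succ, ← sub_sub, ih, coeff_mk]
  · let D : (ZMod 3)⟦X⟧ →+ (ZMod 3)⟦X⟧ →+ A := AddMonoidHom.mk' (fun f => AddMonoidHom.mk'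
      (fun g => μ (E' f) (E' g) - E' (br f g)) fun g g' => by
        simp only [br, map_add, mul_add, map_sub]; abel) fun f f' => by
        ext g
        simp only [br, map_add, add_mul, map_sub, AddMonoidHom.mk'_apply, AddMonoidHom.add_apply]
        abel
    have an : ∀ f g, D f g = -D g f := fun f g => by
      simp only [D, br, AddMonoidHom.mk'_apply, map_sub, h.anti (E' f), mul_comm]
      abel
    have b1 : ∀ f (n : ℕ) g, X ^ n ∣ g → D f g ∈ Φ.F (-2 + n) := fun f n g hg => by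
      refine sub_mem (h.mem (a3 f) (a1 n g hg).1 (by omega)) ?_
      rcases n with _ | n
      · exact Φ.mono (a3 _) (by omega)
      · exact Φ.mono (a1 n _ (dvd_sub ((dvd_deriv hg).mul_left _)
          (((pow_dvd_pow _ n.le_succ).trans hg).mul_left _))).1 (by omega)
    refine sub_eq_zero.1 (dense_ext (D f) _ (b1 f) (fun m => ?_) (sp _) g)
    rw [an, neg_eq_zero]
    refine dense_ext (D _) _ (b1 _) (fun n => ?_) (sp _) f
    change μ (E' _) (E' _) - E' _ = 0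
    rw [a2, a2, hx', ← a2, ← map_zsmul, sub_eq_zero, br, derivative_pow, derivative_pow]
    congr 1
    rcases n with _ | n <;> rcases m with _ | m <;> simp [← add_assoc, add_right_comm _ 1] <;> ring

lemma c3_three : (3 : (ZMod 3)⟦X⟧) = 0 := by
  rw [← map_ofNat C 3, show (3 : ZMod 3) = 0 from rfl, map_zero]

lemma c3_cube_add (f g : (ZMod 3)⟦X⟧) : (f + g) ^ 3 = f ^ 3 + g ^ 3 := by
  linear_combination (f ^ 2 * g + f * g ^ 2) * c3_three

lemma c3_cube_sub (f g : (ZMod 3)⟦X⟧) : (f - g) ^ 3 = f ^ 3 - g ^ 3 := by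
  linear_combination (f * g ^ 2 - f ^ 2 * g) * c3_three

lemma c3_ext (φ : (ZMod 3)⟦X⟧ → (ZMod 3)⟦X⟧) (h0 : ∀ f g, φ (f + g) = φ f + φ g)
    (h1 : ∀ n f, X ^ n ∣ f → X ^ n ∣ φ f) (h2 : ∀ n, φ (X ^ n) = 0) (f : (ZMod 3)⟦X⟧) : φ f = 0 :=
  dense_ext (AddMonoidHom.mk' φ h0) (fun n => (Ideal.span {X ^ n}).toAddSubgroup)
    (fun n f hf => Ideal.mem_span_singleton.2 (h1 n f hf)) h2 (fun b hb => PowerSeries.ext fun n =>
      X_pow_dvd_iff.1 (Ideal.mem_span_singleton.1 (hb (n + 1))) n (by omega)) f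

lemma c3_expand (f : (ZMod 3)⟦X⟧) : expand 3 three_ne_zero f = f ^ 3 := by
  refine sub_eq_zero.1 (c3_ext (fun f => expand 3 three_ne_zero f - f ^ 3) (fun f g => ?_)
    (fun n f hf => ?_) (fun n => sub_eq_zero.2 ?_) f)
  · rw [map_add, c3_cube_add]
    ring
  · obtain ⟨g, rfl⟩ := hf
    refine ⟨X ^ (2 * n) * (expand 3 three_ne_zero g - g ^ 3), ?_⟩
    simp only [map_mul, map_pow, expand_X]
    ring
  · rw [map_pow, expand_X]
    ring

lemma c3_root {s : (ZMod 3)⟦X⟧} (hs : d⁄dX _ s = 0) : ∃ σ : (ZMod 3)⟦X⟧, σ ^ 3 = s := by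
  refine ⟨PowerSeries.mk fun k => coeff (3 * k) s, PowerSeries.ext fun n => ?_⟩
  rw [← c3_expand, coeff_expand]
  split_ifs with h
  · rw [coeff_mk, Nat.mul_div_cancel' h]
  · rcases n with _ | n
    · simp at h
    · have := congrArg (coeff n) hs
      rw [coeff_derivative, map_zero, ← Nat.cast_succ] at this
      exact ((mul_eq_zero_iff_right (mt (ZMod.natCast_eq_zero_iff _ _).1 h)).1 this).symm

lemma c3_dvd {n : ℕ} {f : (ZMod 3)⟦X⟧} (h : X ^ (3 * n) ∣ f ^ 3) : X ^ n ∣ f := by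
  induction n generalizing f with
  | zero => simp
  | succ n ih =>
    obtain ⟨g, rfl⟩ := X_prime.dvd_of_dvd_pow ((dvd_pow_self X (by omega)).trans h)
    rw [show 3 * (n + 1) = 3 + 3 * n by ring, pow_add, mul_pow,
      mul_dvd_mul_iff_left (pow_ne_zero _ X_ne_zero)] at h
    exact pow_succ' (X : (ZMod 3)⟦X⟧) n ▸ mul_dvd_mul_left _ (ih h)

lemma c3_tri (f : (ZMod 3)⟦X⟧) : tri X 1 (X ^ 5) f = X ^ 3 * f := by
  rw [tri_eq]
  congr 1
  simp only [tri, br, map_sub, Derivation.leibniz, smul_eq_mul, map_add, Derivation.map_one_eq_zero,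
    map_zero, mul_zero, mul_one, pow_succ, pow_zero, derivative_X]
  linear_combination (13 * X ^ 3) * c3_three

lemma c3_subst (φ : (ZMod 3)⟦X⟧ →+ (ZMod 3)⟦X⟧) (h0 : φ 1 ≠ 0)
    (h2 : ∀ f g, φ (br f g) = br (φ f) (φ g)) :
    ∃ σ : (ZMod 3)⟦X⟧, ∀ f, φ (X ^ 3 * f) = σ ^ 3 * φ f := by
  have hs : ∀ f, φ (X ^ 3 * f) = tri (φ X) (φ 1) (φ (X ^ 5)) 1 * φ f := fun f => by
    rw [← tri_eq, ← c3_tri]
    simp only [tri, map_add, h2]
  set s := tri (φ X) (φ 1) (φ (X ^ 5)) 1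
  have a1 := h2 (X ^ 3 * 1) 1
  rw [hs, show br (X ^ 3 * 1) (1 : (ZMod 3)⟦X⟧) = 0 by
    simp only [br, Derivation.leibniz, smul_eq_mul, Derivation.map_one_eq_zero, mul_zero, mul_one,
      pow_succ, pow_zero, derivative_X]
    linear_combination (-X ^ 2) * c3_three, map_zero, br, Derivation.leibniz] at a1
  obtain ⟨σ, hσ⟩ := c3_root (s := s) (mul_right_cancel₀ (mul_ne_zero h0 h0) (by
    simp only [smul_eq_mul] at a1
    linear_combination a1))
  exact ⟨σ, hσ ▸ hs⟩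

lemma c3_subst' (φ : (ZMod 3)⟦X⟧ →+ (ZMod 3)⟦X⟧) (h1 : ∀ n f, X ^ n ∣ f → X ^ n ∣ φ f)
    (σ : Nott 3) (hs : ∀ f, φ (X ^ 3 * f) = σ.ser ^ 3 * φ f) (f h : (ZMod 3)⟦X⟧) :
    φ (f ^ 3 * h) = f.subst σ.ser ^ 3 * φ h := by
  refine sub_eq_zero.1 (c3_ext (fun f => φ (f ^ 3 * h) - f.subst σ.ser ^ 3 * φ h) (fun f g => ?_)
    (fun n f hf => ?_) (fun n => sub_eq_zero.2 ?_) f)
  · rw [c3_cube_add, add_mul, map_add, subst_add σ.hasSubst, c3_cube_add]
    ring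
  · exact dvd_sub (h1 n _ ((dvd_pow hf (by omega)).mul_right h))
      ((dvd_pow (σ.X_pow_dvd_subst hf) (by omega)).mul_right _)
  · rw [subst_pow σ.hasSubst, subst_X σ.hasSubst]
    induction n with
    | zero => simp
    | succ n ih => rw [pow_succ' X n, mul_pow, mul_assoc, hs, ih, pow_succ' σ.ser n]; ring

variable {G : Type*} [Group G] {K : ℕ → Subgroup G}
  [∀ i, (K i).Normal] {lG : ℕ → G → ZMod 3} {Φ : Act 3 A K lG} {μ : A →+ A →+ A}

lemma c3_spread (nt : NT K lG) (θ : G →* Nott 3)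
    (h1 : ∀ i, ∀ g ∈ K (3 * i + 3), θ g ∈ Nott.Jn 3 (i + 1))
    (h2 : ∀ i, 1 ≤ i → i ≤ 2 → ∀ g ∈ K i,
      θ g ∈ Nott.Jn 3 i ∧ -coeff (i + 1) ((θ g).ser - X) = lG i g) (i : ℕ) (hi : 1 ≤ i) :
    ∀ g ∈ K i, θ g ∈ Nott.Jn 3 i ∧ -coeff (i + 1) ((θ g).ser - X) = lG i g := by
  let P : ℕ → Prop := fun r => ∃ s ∈ K r, lG r s ≠ 0 ∧ θ s ∈ Nott.Jn 3 r ∧
    -coeff (r + 1) ((θ s).ser - X) = lG r s
  have base : ∀ r, 1 ≤ r → r ≤ 2 → P r := fun r a b => by
    obtain ⟨s, hs, hs'⟩ := nt.surj r a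
    exact ⟨s, hs, by simp [hs'], h2 r a b s hs⟩
  have cm : ∀ r t, 1 ≤ r → 1 ≤ t → P r → P t → (t : ZMod 3) - r ≠ 0 → P (r + t) := by
    rintro r t hr ht ⟨a, a1, a2, a3, a4⟩ ⟨b, b1, b2, b3, b4⟩ h
    refine ⟨⁅a, b⁆, nt.comm a1 b1, ?_, ?_, ?_⟩
    · rw [nt.lead hr ht a1 b1]
      exact mul_ne_zero (mul_ne_zero h a2) b2
    · rw [map_commutatorElement]
      exact Nott.nt.comm a3 b3
    · rw [map_commutatorElement, nt.lead hr ht a1 b1, ← a4, ← b4]
      exact Nott.nt.lead hr ht a3 b3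
  have all : ∀ r, P (r + 1) ∧ P (r + 2) := fun r => by
    induction r with
    | zero => exact ⟨base 1 le_rfl (by omega), base 2 (by omega) le_rfl⟩
    | succ r ih =>
      refine ⟨ih.2, ?_⟩
      by_cases h : ((r + 2 : ℕ) : ZMod 3) - (1 : ℕ) = 0
      · have := cm 2 (r + 1) (by omega) (by omega) (base 2 (by omega) le_rfl) ih.1 fun h' => by
          push_cast at h h'
          exact absurd (show (2 : ZMod 3) = 0 by linear_combination h - h') (by decide)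
        rwa [show 2 + (r + 1) = r + 1 + 2 by ring] at this
      · have := cm 1 (r + 2) (by omega) (by omega) (base 1 le_rfl (by omega)) ih.2 h
        rwa [show 1 + (r + 2) = r + 1 + 2 by ring] at this
  have cG := nt.cls i hi
  have cJ := (Nott.nt (p := 3)).cls i hi
  let S : Subgroup G :=
    { carrier := {g | g ∈ K i ∧ θ g ∈ Nott.Jn 3 i ∧ -coeff (i + 1) ((θ g).ser - X) = lG i g}
      one_mem' := ⟨one_mem _, by rw [map_one]; exact one_mem _, by rw [map_one, cG.one, cJ.one]⟩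
      mul_mem' := fun ha hb => ⟨mul_mem ha.1 hb.1, by rw [map_mul]; exact mul_mem ha.2.1 hb.2.1, by
        rw [map_mul, cG.mul ha.1 hb.1, cJ.mul ha.2.1 hb.2.1, ha.2.2, hb.2.2]⟩
      inv_mem' := fun ha => ⟨inv_mem ha.1, by rw [map_inv]; exact inv_mem ha.2.1, by
        rw [map_inv, cG.inv ha.1, cJ.inv ha.2.1, ha.2.2]⟩ }
  have deep : ∀ g ∈ K (i + 1), θ g ∈ Nott.Jn 3 (i + 1) → g ∈ S := fun g a b =>
    ⟨nt.anti i.le_succ a, Nott.nt.anti i.le_succ b, by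
      rw [(cG.zero (nt.anti i.le_succ a)).2 a]
      exact (cJ.zero (Nott.nt.anti i.le_succ b)).2 b⟩
  intro g hg
  obtain ⟨s, hs, e⟩ := nt.approx (S := S) hi (fun r hr => by
    obtain ⟨s, s1, s2, s3, s4⟩ : P r := by
      obtain ⟨r, rfl⟩ : ∃ r', r = r' + 1 := ⟨r - 1, by omega⟩
      exact (all r).1
    refine ⟨s, ?_, s1, s2⟩
    rcases hr.eq_or_lt with rfl | hr
    · exact ⟨s1, s3, s4⟩
    · exact deep s (nt.anti hr s1) (Nott.nt.anti hr s3)) hg (2 * i + 3)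
  exact (pr_mem (S := S) (fun a ha => deep a (nt.anti (by omega) ha)
    (h1 i a (nt.anti (by omega) ha))) e hs).2

theorem Lim.exists_hom3 (h : Lim Φ μ) (h3 : ∀ a : A, 3 • a = 0) {x : ℤ → A}
    (hx : BasZ Φ.toFilt x) (hx' : ∀ i j, μ (x i) (x j) = (j - i) • x (i + j))
    (hk : KeyP Φ (triE μ (x 0) (x (-1)) (x 4))) :
    ∃ θ : G →* Nott 3, ∀ i, 1 ≤ i → ∀ g ∈ K i,
      θ g ∈ Nott.Jn 3 i ∧ -coeff (i + 1) ((θ g).ser - X) = lG i g := by
  obtain ⟨E, E1, E2, E3, E4, E5⟩ := h.toW3.c3_exists_E h3 (x := fun n : ℕ => x (n - 1))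
    (fun n => hx _) fun n m => by
      rw [hx', show (m : ℤ) - 1 - (n - 1) = m - n by ring]
      rcases Nat.eq_zero_or_pos (n + m) with h0 | h0
      · obtain ⟨rfl, rfl⟩ := Nat.add_eq_zero_iff.1 h0
        simp
      · congr 2
        omega
  have inj : Function.Injective E := (injective_iff_map_eq_zero E).2 fun f hf =>
    PowerSeries.ext fun n => X_pow_dvd_iff.1 ((E1 (n + 1) f).1 (hf ▸ zero_mem _)) n (by omega)
  have top : ∀ g, g ∈ K 1 := fun g => h.nt.top ▸ Subgroup.mem_top g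
  choose φ hφ using fun g f => E3 (Φ.ρ g (E f)) (by
    have a1 := (E1 0 f).2 (by simp)
    simpa using add_mem (Φ.mono (Φ.ρ_deg (top g) a1) (j := (0 : ℕ) - 1) (by omega)) a1)
  let ψ (g : G) := AddMonoidHom.mk' (φ g) fun f f' => inj (by simp only [hφ, map_add])
  have hψ : ∀ g f, E (ψ g f) = Φ.ρ g (E f) := hφ
  have a1 : ∀ {i g}, g ∈ K i → ∀ n f, X ^ n ∣ f → X ^ (n + i) ∣ ψ g f - f := by
    intro i g hg n f hf
    refine (E1 (n + i) _).1 ?_
    rw [map_sub, hψ]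
    exact Φ.mono (Φ.ρ_deg hg ((E1 n f).2 hf)) (by omega)
  have a2 : ∀ g, constantCoeff (ψ g 1) = 1 := fun g => by
    simpa [sub_eq_zero] using X_pow_dvd_iff.1 (a1 (top g) 0 1 (by simp)) 0 (by omega)
  have un : ∀ g, IsUnit (ψ g 1) := fun g => isUnit_iff_constantCoeff.2 (a2 g ▸ isUnit_one)
  choose s hs using fun g => c3_subst (ψ g) (un g).ne_zero
    fun f f' => inj (by simp only [hψ, ← E4, h.equi])
  have hU : ∀ f, triE μ (x 0) (x (-1)) (x 4) (E f) = E (X ^ 3 * f) := fun f => by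
    have b0 := E5 0
    have b1 := E5 1
    have b5 := E5 5
    norm_num at b0 b1 b5
    rw [← c3_tri, ← b0, ← b1, ← b5]
    simp only [triE_apply, E4, tri, map_add]
  have b : ∀ r, 1 ≤ r → r ≤ 2 → ∀ g ∈ K r, ∃ u, s g - X = X ^ (r + 1) * u ∧
      constantCoeff u = lG r g := by
    intro r h1 h2 g hg
    have c1 := hk r h1 h2 g hg ((E1 0 1).2 (by simp))
    rw [E2 0 1 (by simp), cm_apply, hU, ← hψ, ← hψ, hU, ← map_sub, hs, ← sub_mul, ← c3_cube_sub,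
      show ((0 : ℕ) : ℤ) - 1 + (3 + 3 * r) = (3 * (r + 1) : ℕ) - 1 by push_cast; ring] at c1
    have c2 := (E1 _ _).1 c1.1
    obtain ⟨u, hu⟩ := c3_dvd ((un g).dvd_mul_right.1 c2)
    refine ⟨u, hu, ?_⟩
    have c3 := c1.2
    rw [E2 _ _ c2, hu, mul_pow, ← pow_mul, mul_comm (r + 1), mul_assoc, coeff_X_pow_mul'] at c3
    simpa [a2, ZMod.pow_card] using c3
  let σ : G → Nott 3 := fun g => ⟨s g, by
      obtain ⟨u, hu, -⟩ := b 1 le_rfl (by omega) g (top g)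
      simp [eq_add_of_sub_eq hu], by
      obtain ⟨u, hu, -⟩ := b 1 le_rfl (by omega) g (top g)
      simp [eq_add_of_sub_eq hu, coeff_X_pow_mul']⟩
  have a4 : ∀ g g' f, ψ (g * g') f = ψ g (ψ g' f) := fun g g' f =>
    inj (by simp only [hψ, Φ.ρ_mul])
  let θ : G →* Nott 3 := MonoidHom.mk' (fun g => (σ g)⁻¹) fun g g' => by
    rw [← mul_inv_rev, inv_inj]
    refine Nott.ext (sub_eq_zero.1 (pow_eq_zero_iff (n := 3) (by omega) |>.1 ?_))
    rw [c3_cube_sub, sub_eq_zero]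
    refine mul_right_cancel₀ (un (g * g')).ne_zero ?_
    rw [← hs, a4, hs, c3_subst' (ψ g) (fun n f hf => by
      simpa using dvd_add ((pow_dvd_pow _ n.le_succ).trans (a1 (top g) n _ hf)) hf) (σ g) (hs g),
      a4, Nott.mul_ser]
  refine ⟨θ, c3_spread h.nt θ (fun i g hg => inv_mem (c3_dvd ((un g).dvd_mul_right.1 ?_)))
    fun r h1 h2 g hg => ?_⟩
  · have b1 := a1 hg 0 1 (by simp)
    have b2 := a1 hg 3 (X ^ 3 * 1) (by simp)
    rw [hs] at b2
    rw [c3_cube_sub]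
    convert dvd_sub b2 (show X ^ (3 + (3 * i + 3)) ∣ X ^ 3 * (ψ g 1 - 1) from
      pow_add (X : (ZMod 3)⟦X⟧) 3 _ ▸ mul_dvd_mul_left _ (by simpa using b1)) using 1
    · ring
    · ring
  · obtain ⟨u, hu, hu'⟩ := b r h1 h2 g hg
    refine ⟨inv_mem ⟨u, hu⟩, ((Nott.nt.cls r h1).inv (a := σ g) ⟨u, hu⟩).trans ?_⟩
    rw [neg_neg, show (σ g).ser - X = _ from hu]
    simpa [coeff_X_pow_mul'] using hu'

end Pool.Agent.Lib.MP_ffb54b_al.P3
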