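import Pool.Agent.Lib.MP_ffb54b_al.P3.Op

set_option autoImplicit false
set_option linter.unusedSectionVars false

namespace Pool.Agent.Lib.MP_ffb54b_al.P3

open PowerSeries
open scoped commutatorElement

lemma coc_prim (g : ℤ → ZMod 3) : ∃ φ : ℤ → ZMod 3, φ 0 = 0 ∧ ∀ a, φ (a + 1) = φ a + g a := by
  refine ⟨fun a => ∑ i ∈ Finset.range a.toNat, g i - ∑ i ∈ Finset.range (-a).toNat, g (-i - 1),
    by simp, fun a => ?_⟩
  beta_reduce
  rcases le_or_gt 0 a with h | h
  · lift a to ℕ using h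
    rw [show ((a : ℤ) + 1).toNat = a + 1 by omega, show (-((a : ℤ) + 1)).toNat = 0 by omega,
      show (-(a : ℤ)).toNat = 0 by omega, Int.toNat_natCast, Finset.sum_range_succ]
    ring
  · obtain ⟨n, rfl⟩ : ∃ n : ℕ, a = -n - 1 := ⟨(-a - 1).toNat, by omega⟩
    rw [show (-(n : ℤ) - 1 + 1).toNat = 0 by omega, show (-(-(n : ℤ) - 1 + 1)).toNat = n by omega,
      show (-(n : ℤ) - 1).toNat = 0 by omega, show (-(-(n : ℤ) - 1)).toNat = n + 1 by omega,
      Finset.sum_range_succ]
    ring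

/-- The cocycle condition in weight zero. -/
def Coc0 (c : ℤ → ℤ → ZMod 3) : Prop :=
  (∀ i j, c i j = -c j i) ∧ ∀ i j k : ℤ,
    ((j : ZMod 3) - i) * c (i + j) k + ((k : ZMod 3) - (i + j)) * c i j +
      ((k : ZMod 3) - j) * c (j + k) i + ((i : ZMod 3) - (j + k)) * c j k +
      ((i : ZMod 3) - k) * c (k + i) j + ((j : ZMod 3) - (k + i)) * c k i = 0

lemma coc_tri (i : ℤ) : ∃ a : ℤ, i = 3 * a - 1 ∨ i = 3 * a ∨ i = 3 * a + 1 :=
  ⟨(i + 1) / 3, by omega⟩

lemma coc_norm {c : ℤ → ℤ → ZMod 3} (h : Coc0 c) (h0 : ∃ a : ℤ, ∀ b : ℤ, c (3 * a) (3 * b) = 0)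
    (h1 : ∃ a : ℤ, ∀ b : ℤ, c (3 * a + 1) (3 * b + 1) = 0)
    (h2 : ∃ a : ℤ, ∀ b : ℤ, c (3 * a - 1) (3 * b - 1) = 0)
    (n1 : ∀ b, c 1 (3 * b - 1) = 0) (n2 : ∀ a, c (3 * a) 1 = 0) :
    ∃ b : ℤ → ZMod 3, ∀ i j : ℤ, c i j + ((j : ZMod 3) - i) * (b i + b j - b (i + j)) = 0 := by
  have t : (3 : ZMod 3) = 0 := rfl
  obtain ⟨an, hc⟩ := h
  have P : ∀ a b, c (3 * a + 1) (3 * b + 1) = 0 := fun a b => by
    obtain ⟨m, hm⟩ := h1
    have := hc (3 * a + 1) (3 * b + 1) (3 * m + 1)
    rw [an (3 * b + 1) (3 * m + 1), hm, hm] at this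
    push_cast at this
    simp only [t, zero_mul, zero_add, sub_self] at this
    linear_combination -this
  have Q : ∀ a b, c (3 * a - 1) (3 * b - 1) = 0 := fun a b => by
    obtain ⟨m, hm⟩ := h2
    have := hc (3 * a - 1) (3 * b - 1) (3 * m - 1)
    rw [an (3 * b - 1) (3 * m - 1), hm, hm] at this
    push_cast at this
    simp only [t, zero_mul, zero_sub, sub_self] at this
    linear_combination this
  have C : ∀ a b k, c (3 * (b + k)) (3 * a + 1) + c (3 * b + 1) (3 * k - 1) =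
      c (3 * (a + k)) (3 * b + 1) + c (3 * a + 1) (3 * k - 1) := fun a b k => by
    have := hc (3 * a + 1) (3 * b + 1) (3 * k - 1)
    rw [show 3 * b + 1 + (3 * k - 1) = 3 * (b + k) by ring,
      show 3 * k - 1 + (3 * a + 1) = 3 * (a + k) by ring, an (3 * k - 1)] at this
    push_cast at this
    simp only [t, zero_mul, zero_add, zero_sub, sub_self] at this
    linear_combination this + (c (3 * (b + k)) (3 * a + 1) + c (3 * a + 1) (3 * b + 1) -
      c (3 * (a + k)) (3 * b + 1)) * t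
  have al : ∀ a k, c (3 * k) (3 * a + 1) = c (3 * a + 1) (3 * k - 1) := fun a k => by
    have := C a 0 k
    simp only [zero_add, mul_zero, n1, n2] at this
    linear_combination this
  have Z : ∀ a b k, c (3 * a + 1) (3 * (b + k) - 1) + c (3 * b + 1) (3 * k - 1) =
      c (3 * b + 1) (3 * (a + k) - 1) + c (3 * a + 1) (3 * k - 1) := fun a b k => by
    rw [← al, ← al b (a + k), C]
  have B : ∀ a b, c (3 * a) (3 * b) = c (3 * b + 1) (3 * 0 - 1) - c (3 * a + 1) (3 * 0 - 1) := by
    intro a b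
    have := hc (3 * a) (3 * b) 1
    rw [an (3 * b + 1), an 1 (3 * a), n2, n2, add_comm 1, an (3 * a + 1), al, al] at this
    have a2 := Z a b 0
    rw [add_zero, add_zero] at a2
    push_cast at this
    simp only [t, zero_mul, zero_add, zero_sub, sub_self, sub_zero, add_zero] at this
    linear_combination this - a2
  have z0 : ∀ b, c (3 * b + 1) (3 * 0 - 1) = 0 := fun b => by
    obtain ⟨m, hm⟩ := h0
    have a1 := B m b
    have a2 := B m 0
    rw [hm] at a1 a2
    rw [show (3 * 0 + 1 : ℤ) = 1 by ring, n1] at a2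
    linear_combination a2 - a1
  have X0 : ∀ a b, c (3 * a) (3 * b) = 0 := fun a b => by rw [B, z0, z0, sub_self]
  have sy : ∀ a b, c (3 * a + 1) (3 * b - 1) = c (3 * b + 1) (3 * a - 1) := fun a b => by
    have := Z a b 0
    rw [add_zero, add_zero, z0, z0] at this
    linear_combination this
  have Y : ∀ a k, c (3 * a) (3 * k - 1) = -c (3 * a + 1) (3 * k - 1) := fun a k => by
    have := hc (3 * a) 1 (3 * k - 1)
    rw [show 1 + (3 * k - 1) = 3 * k by ring, show 3 * k - 1 + 3 * a = 3 * (a + k) - 1 by ring,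
      n1, n2, X0, an (3 * (a + k) - 1), n1, an (3 * k - 1)] at this
    push_cast at this
    simp only [t, zero_mul, zero_add, zero_sub, sub_zero, add_zero] at this
    linear_combination this + c (3 * a) (3 * k - 1) * t
  obtain ⟨φ, φ0, hφ⟩ := coc_prim fun a => c (3 * a + 1) (3 * 1 - 1)
  have φ1 : φ 1 = 0 := by
    have := hφ 0
    rw [mul_zero, zero_add, n1, φ0] at this
    simpa using this
  have W : ∀ a b, c (3 * a + 1) (3 * b - 1) = φ (a + b) - φ a - φ b := fun a b => by
    have st : ∀ b, c (3 * a + 1) (3 * (b + 1) - 1) - (φ (a + (b + 1)) - φ a - φ (b + 1)) =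
        c (3 * a + 1) (3 * b - 1) - (φ (a + b) - φ a - φ b) := fun b => by
      have := Z a 1 b
      rw [add_comm 1 b, sy 1 b, sy 1 (a + b)] at this
      rw [← add_assoc, hφ, hφ]
      linear_combination this
    induction b using Int.induction_on with
    | zero => rw [z0, add_zero, φ0]; ring
    | succ n ih => linear_combination st n + ih
    | pred n ih =>
      have := st (-n - 1)
      rw [sub_add_cancel] at this
      linear_combination ih - this
  refine ⟨fun i => φ ((i + 1) / 3), fun i j => ?_⟩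
  beta_reduce
  have e1 : ∀ a : ℤ, (3 * a - 1 + 1) / 3 = a := fun a => by omega
  have e2 : ∀ a : ℤ, (3 * a + 1) / 3 = a := fun a => by omega
  have e3 : ∀ a : ℤ, (3 * a + 1 + 1) / 3 = a := fun a => by omega
  obtain ⟨a, rfl | rfl | rfl⟩ := coc_tri i <;> obtain ⟨b, rfl | rfl | rfl⟩ := coc_tri j
  · simp [Q, t]
  · rw [an, Y, W, show (3 * a - 1 + 3 * b + 1) / 3 = b + a by omega, e1, e2]
    simp [t]; ring
  · rw [an, W, show (3 * a - 1 + (3 * b + 1) + 1) / 3 = b + a by omega, e1, e3]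
    simp only [Int.cast_add, Int.cast_sub, Int.cast_mul, Int.cast_ofNat, Int.cast_one, t]
    linear_combination (φ a + φ b - φ (b + a)) * t
  · rw [Y, W, show (3 * a + (3 * b - 1) + 1) / 3 = a + b by omega, e1, e2]
    simp [t]; ring
  · simp [X0, t]
  · rw [al, W, show (3 * a + (3 * b + 1) + 1) / 3 = b + a by omega, e2, e3]
    simp [t]; ring
  · rw [W, show (3 * a + 1 + (3 * b - 1) + 1) / 3 = a + b by omega, e1, e3]
    simp only [Int.cast_add, Int.cast_sub, Int.cast_mul, Int.cast_ofNat, Int.cast_one, t]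
    linear_combination (-φ a - φ b + φ (a + b)) * t
  · rw [an, al, W, show (3 * a + 1 + 3 * b + 1) / 3 = a + b by omega, e2, e3]
    simp [t]; ring
  · simp [P, t]

theorem coc3 (c : ℤ → ℤ → ZMod 3) (D : ZMod 3) (ha : ∀ i j, c i j = -c j i)
    (hc : ∀ i j k : ℤ, ((j : ZMod 3) - i) * c (i + j) k + ((k : ZMod 3) - (i + j + D)) * c i j +
      ((k : ZMod 3) - j) * c (j + k) i + ((i : ZMod 3) - (j + k + D)) * c j k +
      ((i : ZMod 3) - k) * c (k + i) j + ((j : ZMod 3) - (k + i + D)) * c k i = 0)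
    (h0 : D = 0 → ∃ a : ℤ, ∀ b : ℤ, c (3 * a) (3 * b) = 0)
    (h1 : D = 0 → ∃ a : ℤ, ∀ b : ℤ, c (3 * a + 1) (3 * b + 1) = 0)
    (h2 : D = 0 → ∃ a : ℤ, ∀ b : ℤ, c (3 * a + 2) (3 * b + 2) = 0) :
    ∃ b : ℤ → ZMod 3, ∀ i j : ℤ, c i j + (b i * ((j : ZMod 3) - i - D) +
      b j * ((j : ZMod 3) + D - i) - ((j : ZMod 3) - i) * b (i + j)) = 0 := by
  have t : (3 : ZMod 3) = 0 := rfl
  by_cases hD : D = 0
  swap
  · refine ⟨fun i => -c 0 i / D, fun j k => ?_⟩
    have := hc 0 j k
    rw [zero_add, add_zero, ha (j + k), ha k 0, ha k j] at this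
    push_cast at this
    field_simp
    linear_combination -this
  subst hD
  let β := -c 0 1 - c 1 (-1)
  let b : ℤ → ZMod 3 := fun i => if i % 3 = 2 then 0 else
    if i % 3 = 0 then c 1 (i - 1) + β else c (i - 1) 1 + c 1 (i - 2) + 2 * β
  have b1 : b 1 = β := by
    simp only [b, β]
    norm_num
    ring
  have b2 : ∀ a, b (3 * a - 1) = 0 := fun a => if_pos (by omega)
  have b3 : ∀ a, b (3 * a) = c 1 (3 * a - 1) + β := fun a =>
    (if_neg (by omega)).trans (if_pos (by omega))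
  have b4 : ∀ a, b (3 * a + 1) = c (3 * a) 1 + c 1 (3 * a - 1) + 2 * β := fun a =>
    (if_neg (by omega)).trans ((if_neg (by omega)).trans (by
      rw [add_sub_cancel_right, show 3 * a + 1 - 2 = 3 * a - 1 by ring]))
  obtain ⟨b', hb'⟩ := coc_norm
    (c := fun i j => c i j + ((j : ZMod 3) - i) * (b i + b j - b (i + j)))
    ⟨fun i j => by beta_reduce; rw [ha i j, add_comm j i]; ring, fun i j k => by
      have := hc i j k
      beta_reduce
      rw [show j + k + i = i + j + k by ring, show k + i + j = i + j + k by ring]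
      push_cast
      linear_combination this⟩
    ((h0 rfl).imp fun a h b => by simp [h, t]) ((h1 rfl).imp fun a h b => by simp [h, t])
    ((h2 rfl).elim fun a h => ⟨a + 1, fun b => by
      have := h (b - 1)
      rw [show 3 * a + 2 = 3 * (a + 1) - 1 by ring, show 3 * (b - 1) + 2 = 3 * b - 1 by ring] at this
      simp [this, t]⟩)
    (fun a => by
      rw [show 1 + (3 * a - 1) = 3 * a by ring, b1, b2, b3]
      simp only [Int.cast_sub, Int.cast_mul, Int.cast_ofNat, Int.cast_one, t]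
      linear_combination c 1 (3 * a - 1) * t)
    (fun a => by
      rw [b1, b3, b4]
      simp only [Int.cast_mul, Int.cast_ofNat, Int.cast_one, t]
      ring)
  exact ⟨b + b', fun i j => by
    simp only [Pi.add_apply]
    linear_combination hb' i j⟩

end Pool.Agent.Lib.MP_ffb54b_al.P3
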