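import Pool.Agent.Lib.MP_ffb54b_al.P3.Inn
import Pool.Agent.Lib.MP_ffb54b_al.P3.Cen

set_option autoImplicit false
set_option linter.unusedSectionVars false

namespace Pool.Agent.Lib.MP_ffb54b_al.P3

open PowerSeries
open scoped commutatorElement

variable {A : Type*} [AddCommGroup A] {G : Type*} [Group G] {K : ℕ → Subgroup G}
  [∀ i, (K i).Normal] {lG : ℕ → G → ZMod 3} {Φ : Act 3 A K lG} {μ : A →+ A →+ A}

/-- The element `g` of degree `i` acts as `1 + ad x` to relative depth seven. -/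
def KeyI (Φ : Act 3 A K lG) (μ : A →+ A →+ A) (g : G) (x : A) (i : ℕ) : Prop :=
  7 ≤ i ∧ g ∈ K i ∧ x ∈ Φ.F i ∧ Inn Φ μ g x (i + (7 : ℕ))

section

variable (h : Lim Φ μ) {a b c d : G} {x y z w : A} {i j k l : ℕ}
include h

lemma Lim.key_comm (ha : KeyI Φ μ a x i) (hb : KeyI Φ μ b y j) :
    KeyI Φ μ ⁅a, b⁆ (μ x y) (i + j) :=
  ⟨ha.1.trans (Nat.le_add_right _ _), h.nt.comm ha.2.1 hb.2.1,
    h.toW3.mem ha.2.2.1 hb.2.2.1 (by push_cast; exact le_rfl),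
    (h.inn_comm ha.2.1 hb.2.1 ha.2.2.1 hb.2.2.1 ha.1 hb.1 ha.2.2.2 hb.2.2.2).mono
      (by push_cast; exact le_rfl)⟩

lemma Lim.key_mul (ha : KeyI Φ μ a x i) (hb : KeyI Φ μ b y i) :
    KeyI Φ μ (a * b) (x + y) i :=
  ⟨ha.1, mul_mem ha.2.1 hb.2.1, add_mem ha.2.2.1 hb.2.2.1,
    h.inn_mul ha.2.1 hb.2.1 (by have := ha.1; omega) ha.2.2.2 hb.2.2.2⟩

lemma Lim.key_div (ha : KeyI Φ μ a x i) (hb : KeyI Φ μ b y i) :
    KeyI Φ μ (a * b⁻¹) (x - y) i :=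
  ⟨ha.1, mul_mem ha.2.1 (inv_mem hb.2.1), sub_mem ha.2.2.1 hb.2.2.1,
    h.inn_div ha.2.1 hb.2.1 (by have := ha.1; omega) ha.2.2.2 hb.2.2.2⟩

lemma Lim.key_conj (ha : KeyI Φ μ a x i) (g : G) :
    KeyI Φ μ (g * a * g⁻¹) (Φ.ρ g x) i :=
  ⟨ha.1, Subgroup.Normal.conj_mem inferInstance _ ha.2.1 g,
    by simpa using (ρ_lead_one Φ h.nt g ha.2.2.1).1, h.inn_conj ha.2.2.2 g⟩

lemma Lim.key_wd (ha : KeyI Φ μ a x i) (hb : KeyI Φ μ b y j) (hc : KeyI Φ μ c z k)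
    (hd : KeyI Φ μ d w l) : KeyI Φ μ (wd a b c d) (triE μ x y z w) (i + j + k + l) := by
  have h1 := h.key_comm ha (h.key_comm (h.key_comm hb hc) hd)
  have h2 := h.key_comm hb (h.key_comm (h.key_comm hc ha) hd)
  have h3 := h.key_comm hc (h.key_comm (h.key_comm ha hb) hd)
  rw [show i + (j + k + l) = i + j + k + l by ring] at h1
  rw [show j + (k + i + l) = i + j + k + l by ring] at h2
  rw [show k + (i + j + l) = i + j + k + l by ring] at h3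
  exact h.key_mul (h.key_mul h1 h2) h3

lemma Lim.key_wdc (ha : KeyI Φ μ a x i) (hb : KeyI Φ μ b y j) (hc : KeyI Φ μ c z k) (g : G) :
    KeyI Φ μ (wdc g a b c) (cm Φ g (triE μ x y z) x) (i + j + k + i) :=
  h.key_div (h.key_conj (h.key_wd ha hb hc ha) g) (h.key_wd ha hb hc (h.key_conj ha g))

end

section

variable {R : G → Nott 3 → Prop} {n : ℕ} (L : Link K lG R n) {a b c d : G} {a' b' c' d' : Nott 3}
include L

lemma Link.key_comm (ha : R a a') (hb : R b b') : R ⁅a, b⁆ ⁅a', b'⁆ := by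
  rw [commutatorElement_def, commutatorElement_def]
  exact L.mul (L.mul (L.mul ha hb) (L.inv ha)) (L.inv hb)

lemma Link.key_wd (ha : R a a') (hb : R b b') (hc : R c c') (hd : R d d') :
    R (wd a b c d) (wd a' b' c' d') :=
  L.mul (L.mul (L.key_comm ha (L.key_comm (L.key_comm hb hc) hd))
    (L.key_comm hb (L.key_comm (L.key_comm hc ha) hd)))
    (L.key_comm hc (L.key_comm (L.key_comm ha hb) hd))

lemma Link.key_wdc (ha : R a a') (hb : R b b') (hc : R c c') (hd : R d d') :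
    R (wdc d a b c) (wdc d' a' b' c') :=
  L.mul (L.mul (L.mul hd (L.key_wd ha hb hc ha)) (L.inv hd))
    (L.inv (L.key_wd ha hb hc (L.mul (L.mul hd ha) (L.inv hd))))

end

lemma Lim.key_lift (h : Lim Φ μ) {R : G → Nott 3 → Prop} (L : Link K lG R 200) {a' : Nott 3}
    {i : ℕ} (h1 : 17 ≤ i) (h2 : i < 200) (ha : a' ∈ Nott.Jn 3 i)
    (la : -coeff (i + 1) (a'.ser - X) = 1) :
    ∃ a x, R a a' ∧ KeyI Φ μ a x i ∧ Φ.ℓ i x = 1 := by
  obtain ⟨a, Ra⟩ := L.right a'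
  have ma : a ∈ K i := (L.mem Ra (by omega) h2.le).2 ha
  obtain ⟨x, hx, ix⟩ := h.exists_inn (c := 7) (by omega) ma
  refine ⟨a, x, Ra, ⟨by omega, ma, hx, ix⟩, ?_⟩
  rw [← h.inn_lead ix (by omega) (by omega) ma, L.lead Ra (by omega) h2 ha, la]

theorem Lim.key (h : Lim Φ μ) {R : G → Nott 3 → Prop} (L : Link K lG R 200)
    (hT : TriCen Φ.toFilt μ 7) {U : A →+ A} (hU : LeadE Φ.toFilt U 3 1)
    (hU' : Cen Φ.toFilt μ U 10) : KeyP Φ U := by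
  obtain ⟨a', b', c', ⟨ha', la'⟩, ⟨hb', lb'⟩, ⟨hc', lc'⟩, hJ⟩ := jside
  obtain ⟨a, x, Ra, ia, lx⟩ := h.key_lift L (by norm_num) (by norm_num) ha' la'
  obtain ⟨b, y, Rb, ib, ly⟩ := h.key_lift L (by norm_num) (by norm_num) hb' lb'
  obtain ⟨c, z, Rc, ic, lz⟩ := h.key_lift L (by norm_num) (by norm_num) hc' lc'
  have t1 : LeadE Φ.toFilt (triE μ x y z) (3 * (19 : ℕ)) (-1) := by
    have := h.toW3.tri_lead ia.2.2.1 ib.2.2.1 ic.2.2.1
    rw [lx, ly, lz] at this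
    convert this using 1 <;> decide
  have t2 : Cen Φ.toFilt μ (triE μ x y z) (3 * (19 : ℕ) + 7) := hT ia.2.2.1 ib.2.2.1 ic.2.2.1
  have main : ∀ r : ℕ, 1 ≤ r → r ≤ 2 → ∀ g ∈ K r, ∀ s : ZMod 3,
      LeadE Φ.toFilt (cm Φ g U) (3 + 3 * r) s → s = lG r g := by
    intro r h1 h2 g hg s hs
    obtain ⟨g', Rg⟩ := L.left g
    have hg' : g' ∈ Nott.Jn 3 r := (L.mem Rg h1 (by omega)).1 hg
    obtain ⟨m', l'⟩ := hJ r h1 h2 g' hg'
    have Rw := L.key_wdc Ra Rb Rc Rg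
    have e1 := L.lead Rw (by omega) (by omega) m'
    have e2 := L.lead Rg h1 (by omega) hg'
    have e3 := h.inn_lead (h.key_wdc ia ib ic g).2.2.2 (i := 75 + 3 * r) (by omega)
      (by push_cast; omega) ((L.mem Rw (by omega) (by omega)).2 m')
    have e4 := (h.cm_lead hU hU' h2 hs t1 t2 ia.2.2.1).2
    rw [lx, show ((18 : ℕ) : ℤ) + (3 * (19 : ℕ) + 3 * r) = (75 + 3 * r : ℕ) by push_cast; ring,
      ← e3, e1, l'] at e4
    have h3 : (3 : ZMod 3) = 0 := rfl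
    rw [e2, e4]
    push_cast
    linear_combination (-6 * s) * h3
  intro r h1 h2 g hg
  obtain ⟨s, hs, hs'⟩ := h.cm_first hU hU' g
  have e1 : s = lG 1 g := main 1 le_rfl (by norm_num) g (h.nt.anti h1 hg) s hs
  obtain rfl | rfl : r = 1 ∨ r = 2 := by omega
  · exact e1 ▸ hs
  · obtain ⟨s', hs''⟩ := hs' (e1.trans (((h.nt.cls 1 le_rfl).zero (h.nt.anti h1 hg)).2 hg))
    exact main 2 h1 h2 g hg s' hs'' ▸ hs''

end Pool.Agent.Lib.MP_ffb54b_al.P3
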