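import Pool.Agent.Lib.MP_ffb54b_al.P3.Op

set_option autoImplicit false
set_option linter.unusedSectionVars false

namespace Pool.Agent.Lib.MP_ffb54b_al.P3

open PowerSeries
open scoped commutatorElement

variable {A : Type*} [AddCommGroup A]

section mod
variable {Φ : Filt 3 A} {d : ℕ}

lemma kill_pow (hd : 1 ≤ d) (h3 : Three Φ d) {i : ℤ} {a : A} (ha : a ∈ Φ.F i) {n : ℕ} {m : ℤ}
    (hm : (3 : ℤ) ^ n ∣ m) : m • a ∈ Φ.F (i + n) := by
  obtain ⟨m, rfl⟩ := hm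
  rw [mul_comm, mul_smul]
  refine zsmul_mem ?_ _
  induction n with
  | zero => simpa using ha
  | succ n ih =>
    rw [pow_succ', mul_smul]
    have := Φ.mono (h3 ih) (show i + (n + 1 : ℕ) ≤ i + n + d by push_cast; omega)
    rwa [← natCast_zsmul] at this

lemma kill_inj (h3 : Three Φ d) (h3' : ∀ i, Φ.ℓ (i + d) (3 • Φ.e i) ≠ 0) {a : A}
    (h : 3 • a = 0) : a = 0 := by
  obtain ⟨i, hi⟩ := Φ.exh a
  refine Φ.sep' (i := i) fun c => ?_
  induction c with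
  | zero => simpa using hi
  | succ c ih =>
    have := (Φ.lead₁ (nsmulAddMonoidHom 3) (k := i + c + d)
      (fun a ha => Φ.mono (h3 ha) (by omega)) ih (Φ.e_mem _) (Φ.e_one _) (h3 (Φ.e_mem _))).2
    simp only [nsmulAddMonoidHom_apply, h] at this
    rw [Φ.ℓ_zero (j := i + c + d + 1) (zero_mem _) (by omega), eq_comm,
      mul_eq_zero_iff_right (h3' _), Φ.zero ih] at this
    rwa [Nat.cast_succ, ← add_assoc]

lemma kill_surj (h3 : Three Φ d) (h3' : ∀ i, Φ.ℓ (i + d) (3 • Φ.e i) ≠ 0) {i : ℤ} {b : A}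
    (hb : b ∈ Φ.F (i + d)) : ∃ a ∈ Φ.F i, 3 • a = b := by
  have step : ∀ k : ℤ, ∀ b ∈ Φ.F (k + d), ∃ x, x ∈ Φ.F k ∧ b - 3 • x ∈ Φ.F (k + 1 + d) := by
    intro k b hb
    refine ⟨((Φ.ℓ (k + d) b / Φ.ℓ (k + d) (3 • Φ.e k)).val : ℤ) • Φ.e k, zsmul_mem (Φ.e_mem k) _,
      ?_⟩
    rw [smul_comm, add_right_comm]
    refine Φ.sub_mem_succ hb (zsmul_mem (h3 (Φ.e_mem k)) _) ?_
    rw [Φ.ℓ_zsmul (h3 (Φ.e_mem k))]
    simp [h3' k]
  choose! f hf using step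
  let r : ℕ → A := fun c => Nat.rec b (fun c x => x - 3 • f (i + c) x) c
  have hr : ∀ c : ℕ, r c ∈ Φ.F (i + c + d) := fun c => by
    induction c with
    | zero => simpa [r] using hb
    | succ c ih => rw [Nat.cast_succ, ← add_assoc]; exact (hf _ _ ih).2
  obtain ⟨y, hy⟩ := Φ.complete i (fun c => f (i + c) (r c)) fun c => (hf _ _ (hr c)).1
  refine ⟨y, by simpa using hy 0, sub_eq_zero.1 (Φ.sep' (i := i + d) fun c => ?_)⟩
  have e : ∀ c, b - 3 • ∑ j ∈ Finset.range c, f (i + j) (r j) = r c := fun c => by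
    induction c with
    | zero => simp [r]
    | succ c ih => rw [Finset.sum_range_succ, smul_add, ← sub_sub, ih]
  have := sub_mem (h3 (hy c)) (hr c)
  rw [← e c, smul_sub, sub_sub, add_sub_cancel] at this
  exact Φ.mono this (by omega)

lemma kill_appr (z : ℤ_[3]) (n : ℕ) : (3 : ℤ_[3]) ^ n ∣ z - (z.appr n : ℤ) := by
  simpa using Ideal.mem_span_singleton.1 (z.appr_spec n)

lemma kill_dvd {z : ℤ_[3]} {n : ℕ} {m m' : ℤ} (h : (3 : ℤ_[3]) ^ n ∣ z - m)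
    (h' : (3 : ℤ_[3]) ^ n ∣ z - m') : (3 : ℤ) ^ n ∣ m' - m := by
  have := (PadicInt.pow_p_dvd_int_iff (p := 3) n (m' - m)).1 (by simpa using dvd_sub h h')
  simpa using this

lemma kill_modZ (hd : 1 ≤ d) (h3 : Three Φ d) : ∃ _ : Module ℤ_[3] A,
    ∀ (z : ℤ_[3]) (n : ℕ) (m : ℤ) {i : ℤ} {a : A}, (3 : ℤ_[3]) ^ n ∣ z - m → a ∈ Φ.F i →
      z • a - m • a ∈ Φ.F (i + n) := by
  have ex : ∀ (z : ℤ_[3]) (a : A), ∃ y, ∀ (n : ℕ) (m : ℤ) {i : ℤ}, (3 : ℤ_[3]) ^ n ∣ z - m →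
      a ∈ Φ.F i → y - m • a ∈ Φ.F (i + n) := by
    intro z a
    obtain ⟨i₀, h₀⟩ := Φ.exh a
    obtain ⟨y, hy⟩ := Φ.complete i₀ (fun c => (z.appr (c + 1) : ℤ) • a - (z.appr c : ℤ) • a)
      fun c => by
        rw [← sub_smul]
        exact kill_pow hd h3 h₀
          (kill_dvd (kill_appr z c) ((pow_dvd_pow _ c.le_succ).trans (kill_appr z _)))
    simp only [Finset.sum_range_sub fun c => (z.appr c : ℤ) • a] at hy
    refine ⟨y + (z.appr 0 : ℤ) • a, fun n m i hm ha => ?_⟩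
    have := add_mem (Φ.mono (hy (n + (i - i₀).toNat)) (show i + n ≤ _ by push_cast; omega))
      (kill_pow hd h3 ha (kill_dvd hm ((pow_dvd_pow _ (Nat.le_add_right n (i - i₀).toNat)).trans
        (kill_appr z _))))
    convert this using 1
    rw [sub_smul]; abel
  choose s hs using ex
  let _ : SMul ℤ_[3] A := ⟨s⟩
  refine ⟨Module.ofMinimalAxioms (fun z a b => ?_) (fun z w a => ?_) (fun z w a => ?_) fun a => ?_,
    fun z n m i a => hs z a n m⟩ <;> obtain ⟨i, hi⟩ := Φ.exh a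
  · obtain ⟨j, hj⟩ := Φ.exh b
    have h1 := Φ.mono hi (min_le_left i j)
    have h2 := Φ.mono hj (min_le_right i j)
    refine sub_eq_zero.1 (Φ.sep' (i := min i j) fun c => ?_)
    convert sub_mem (sub_mem (hs z _ c _ (kill_appr z c) (add_mem h1 h2))
      (hs z _ c _ (kill_appr z c) h1)) (hs z _ c _ (kill_appr z c) h2) using 1
    rw [smul_add]; change s _ _ - (s _ _ + s _ _) = _; abel
  · refine sub_eq_zero.1 (Φ.sep' (i := i) fun c => ?_)
    convert sub_mem (sub_mem (hs (z + w) _ c (z.appr c + w.appr c)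
      (by convert dvd_add (kill_appr z c) (kill_appr w c) using 1; push_cast; ring) hi)
      (hs z _ c _ (kill_appr z c) hi)) (hs w _ c _ (kill_appr w c) hi) using 1
    rw [add_smul]; change s _ _ - (s _ _ + s _ _) = _; abel
  · refine sub_eq_zero.1 (Φ.sep' (i := i) fun c => ?_)
    have h1 : s w a ∈ Φ.F i := by simpa using hs w a 0 0 (by simp) hi
    convert sub_mem (sub_mem (hs (z * w) _ c (z.appr c * w.appr c)
      (by convert dvd_add ((kill_appr z c).mul_right w) ((kill_appr w c).mul_left (z.appr c : ℤ))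
            using 1; push_cast; ring) hi)
      (hs z _ c _ (kill_appr z c) h1)) (zsmul_mem (hs w _ c _ (kill_appr w c) hi) (z.appr c : ℤ))
      using 1
    rw [mul_smul, smul_sub]; change s _ _ - s _ (s _ _) = _; abel
  · refine sub_eq_zero.1 (Φ.sep' (i := i) fun c => ?_)
    have := hs 1 a c 1 (by simp) hi
    rw [one_smul] at this
    exact this

lemma kill_gen (hd : 1 ≤ d) (h3 : Three Φ d) (h3' : ∀ i, Φ.ℓ (i + d) (3 • Φ.e i) ≠ 0)
    [Module ℤ_[3] A] (hs : ∀ (z : ℤ_[3]) (n : ℕ) (m : ℤ) {i : ℤ} {a : A},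
      (3 : ℤ_[3]) ^ n ∣ z - m → a ∈ Φ.F i → z • a - m • a ∈ Φ.F (i + n)) {a : A}
    (ha : a ∈ Φ.F 0) : ∃ c : ℕ → ℤ_[3], a = ∑ j ∈ Finset.range d, c j • Φ.e j := by
  have step : ∀ r ∈ Φ.F 0, ∃ (m : ℕ → ℤ) (r' : A), r' ∈ Φ.F 0 ∧
      r = ∑ j ∈ Finset.range d, m j • Φ.e j + (3 : ℤ) • r' := by
    intro r hr
    have : ∀ t : ℕ, ∃ m : ℕ → ℤ, r - ∑ j ∈ Finset.range t, m j • Φ.e j ∈ Φ.F t := fun t => by
      induction t with
      | zero => exact ⟨0, by simpa using hr⟩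
      | succ t ih =>
        obtain ⟨m, hm⟩ := ih
        refine ⟨Function.update m t (Φ.ℓ t (r - ∑ j ∈ Finset.range t, m j • Φ.e j)).val, ?_⟩
        rw [Finset.sum_range_succ, Function.update_self, ← sub_sub, Finset.sum_congr rfl
          fun j hj => by rw [Function.update_of_ne (Finset.mem_range.1 hj).ne]]
        exact Φ.decomp hm (Φ.e_mem _) (Φ.e_one _)
    obtain ⟨m, hm⟩ := this d
    obtain ⟨r', h1, h2⟩ := kill_surj h3 h3' (i := 0) (by rwa [zero_add])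
    exact ⟨m, r', h1, by rw [← sub_eq_iff_eq_add', ← h2]; exact (natCast_zsmul r' 3).symm⟩
  choose! g s hg using step
  have h1 : ∀ n, s^[n] a ∈ Φ.F 0 := fun n => by
    induction n with
    | zero => exact ha
    | succ n ih => rw [Function.iterate_succ_apply']; exact (hg _ ih).1
  set c : ℕ → ℕ → ℤ := fun j n => ∑ k ∈ Finset.range n, 3 ^ k * g (s^[k] a) j with hc
  have h2 : ∀ n, a = ∑ j ∈ Finset.range d, c j n • Φ.e j + (3 : ℤ) ^ n • s^[n] a := fun n => by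
    induction n with
    | zero => simp [hc]
    | succ n ih =>
      rw [(hg _ (h1 n)).2, smul_add, ← add_assoc, Finset.smul_sum, ← Finset.sum_add_distrib,
        smul_smul] at ih
      simp only [hc, Finset.sum_range_succ, add_smul, mul_smul, Function.iterate_succ_apply',
        pow_succ] at ih ⊢
      exact ih
  have h4 : ∀ j, ∃ L : ℤ_[3], ∀ n, (3 : ℤ_[3]) ^ n ∣ L - c j n := fun j => by
    have := (inferInstance : IsPrecomplete (IsLocalRing.maximalIdeal ℤ_[3]) ℤ_[3]).prec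
      (f := fun n => (c j n : ℤ_[3]))
    simp only [smul_eq_mul, Ideal.mul_top, SModEq.sub_mem, PadicInt.maximalIdeal_eq_span_p,
      Ideal.span_singleton_pow, Ideal.mem_span_singleton, Nat.cast_ofNat] at this
    obtain ⟨L, hL⟩ := this fun {m n} hmn => by
      rw [dvd_sub_comm, ← Int.cast_sub, hc]
      simp only
      rw [← Finset.sum_Ico_eq_sub _ hmn]
      push_cast
      exact Finset.dvd_sum fun k hk => (pow_dvd_pow _ (Finset.mem_Ico.1 hk).1).mul_right _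
    exact ⟨L, fun n => dvd_sub_comm.1 (hL n)⟩
  choose L hL using h4
  refine ⟨L, sub_eq_zero.1 (Φ.sep' (i := 0) fun n => ?_)⟩
  have := sub_mem (kill_pow hd h3 (h1 n) (dvd_refl ((3 : ℤ) ^ n)))
    (sum_mem (t := Finset.range d) fun j _ =>
      hs _ n _ (hL j n) (Φ.mono (Φ.e_mem (j : ℤ)) (Int.natCast_nonneg j)))
  convert this using 1
  rw [Finset.sum_sub_distrib]
  nth_rewrite 1 [h2 n]
  abel

lemma kill_mod (hd : 1 ≤ d) (h3 : Three Φ d) (h3' : ∀ i, Φ.ℓ (i + d) (3 • Φ.e i) ≠ 0) :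
    ∃ _ : Module ℚ_[3] A, (∀ (f : A →+ A) (e : ℤ), DegE Φ f e → ∀ (t : ℚ_[3]) a,
      f (t • a) = t • f a) ∧ ∀ a ∈ Φ.F 0, ∃ c : ℕ → ℤ_[3],
        a = ∑ j ∈ Finset.range d, (c j : ℚ_[3]) • Φ.e j := by
  obtain ⟨_, hs⟩ := kill_modZ hd h3
  have u3 : IsUnit ((3 : ℕ) : Module.End ℤ_[3] A) := by
    rw [Module.End.isUnit_iff]
    refine ⟨(injective_iff_map_eq_zero _).2 fun a => kill_inj h3 h3', fun b => ?_⟩
    obtain ⟨i, hi⟩ := Φ.exh b
    obtain ⟨a, -, ha⟩ := kill_surj h3 h3' (i := i - d) (by rwa [sub_add_cancel])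
    exact ⟨a, ha⟩
  have : IsLocalizedModule (nonZeroDivisors ℤ_[3]) (LinearMap.id : A →ₗ[ℤ_[3]] A) := by
    refine ⟨fun x => ?_, fun y => ⟨(y, 1), by simp⟩, fun h => ⟨1, by simpa using h⟩⟩
    rw [PadicInt.unitCoeff_spec (nonZeroDivisors.coe_ne_zero x), map_mul, map_pow, map_natCast]
    exact ((Units.isUnit _).map _).mul (u3.pow _)
  let _ : Module ℚ_[3] A := IsLocalizedModule.module (nonZeroDivisors ℤ_[3]) LinearMap.id
  have : IsScalarTower ℤ_[3] ℚ_[3] A :=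
    IsLocalizedModule.isScalarTower_module (nonZeroDivisors ℤ_[3]) LinearMap.id
  refine ⟨inferInstance, fun f e hf t a => ?_, fun a ha => ?_⟩
  · have := IsLocalization.linearMap_compatibleSMul (nonZeroDivisors ℤ_[3]) ℚ_[3] A A
    refine LinearMap.map_smul_of_tower (S := ℤ_[3]) ⟨f.toAddHom, fun z a => ?_⟩ t a
    obtain ⟨i, hi⟩ := Φ.exh a
    refine sub_eq_zero.1 (Φ.sep' (i := i + e) fun c => ?_)
    have h1 := hf (hs z c _ (kill_appr z c) hi)
    rw [map_sub, map_zsmul, add_right_comm] at h1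
    simpa using sub_mem h1 (hs z c _ (kill_appr z c) (hf hi))
  · obtain ⟨c, hc⟩ := kill_gen hd h3 h3' hs ha
    exact ⟨c, hc.trans (Finset.sum_congr rfl fun j _ => (algebraMap_smul ℚ_[3] (c j) _).symm)⟩

lemma kill_zpow (h3 : Three Φ d) (h3' : ∀ i, Φ.ℓ (i + d) (3 • Φ.e i) ≠ 0) [Module ℚ_[3] A]
    {i : ℤ} {a : A} (ha : a ∈ Φ.F i) (q : ℤ) : (3 : ℚ_[3]) ^ q • a ∈ Φ.F (i + q * d) := by
  have e : ∀ x : A, (3 : ℚ_[3]) • x = 3 • x := fun x => Nat.cast_smul_eq_nsmul ℚ_[3] 3 x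
  induction q using Int.induction_on with
  | zero => simpa using ha
  | succ q ih =>
    rw [zpow_add_one₀ (by norm_num), mul_comm _ (3 : ℚ_[3]), mul_smul, e, add_mul, one_mul, ← add_assoc]
    exact h3 ih
  | pred q ih =>
    obtain ⟨x, h1, h2⟩ := kill_surj h3 h3' (i := i + (-q - 1) * d) (Φ.mono ih (by ring_nf; rfl))
    rwa [zpow_sub_one₀ (by norm_num), mul_comm _ (3 : ℚ_[3])⁻¹, mul_smul, ← h2, ← e,
      inv_smul_smul₀ (by norm_num)]

end mod

variable {G : Type*} [Group G] {K : ℕ → Subgroup G}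
  [∀ i, (K i).Normal] {lG : ℕ → G → ZMod 3} {Φ : Act 3 A K lG} {μ : A →+ A →+ A}

lemma Lim.kill_form (h : Lim Φ μ) [Module ℚ_[3] A] [Module.Finite ℚ_[3] A]
    (hl : ∀ (f : A →+ A) (e : ℤ), DegE Φ.toFilt f e → ∀ (t : ℚ_[3]) a, f (t • a) = t • f a) :
    ∃ κ : A →ₗ[ℚ_[3]] A →ₗ[ℚ_[3]] ℚ_[3], κ ≠ 0 ∧ (∀ x a b, κ (μ x a) b + κ a (μ x b) = 0) ∧
      ∀ g a b, κ (Φ.ρ g a) (Φ.ρ g b) = κ a b := by
  let _ : LieRing A :=
    { bracket := fun a b => μ a b
      add_lie := fun x y z => by simp only [map_add, AddMonoidHom.add_apply]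
      lie_add := fun x y z => map_add _ _ _
      lie_self := fun x => (smul_eq_zero_iff_right (two_ne_zero (α := ℚ_[3]))).1 (by
        rw [two_smul]; exact eq_neg_iff_add_eq_zero.1 (h.anti x x))
      leibniz_lie := fun x y z => eq_add_of_sub_eq (h.toW3.leib x y z).symm }
  let _ : LieAlgebra ℚ_[3] A :=
    { lie_smul := fun t x y => by
        obtain ⟨i, hi⟩ := Φ.exh x
        exact hl (μ x) i (fun j a ha => h.toW3.mem hi ha (by omega)) t y }
  refine ⟨killingForm ℚ_[3] A, fun h0 => ?_, fun x a b => ?_, fun g a b => ?_⟩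
  · have h1 := LieModule.isNilpotent_derivedSeries_of_traceForm_eq_zero h0
    rw [LieModule.isNilpotent_iff_forall' (R := ℚ_[3])] at h1
    obtain ⟨n, hn⟩ := h1 ⟨⁅Φ.e 1, Φ.e 2⁆, LieSubmodule.lie_mem_lie trivial trivial⟩
    have y1 := h.toW3.mem (Φ.e_mem 1) (Φ.e_mem 2) (k := 3) (by norm_num)
    have y2 := h.toW3.lead (Φ.e_mem 1) (Φ.e_mem 2) (k := 3) (by norm_num)
    have key : ∀ n : ℕ, (μ (μ (Φ.e 1) (Φ.e 2)))^[n] (Φ.e 1) ∈ Φ.F (1 + 3 * n) ∧
        Φ.ℓ (1 + 3 * n) ((μ (μ (Φ.e 1) (Φ.e 2)))^[n] (Φ.e 1)) = 1 := fun n => by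
      induction n with
      | zero => exact ⟨Φ.e_mem _, Φ.e_one _⟩
      | succ n ih =>
        rw [Function.iterate_succ_apply']
        refine ⟨h.toW3.mem y1 ih.1 (by push_cast; omega), ?_⟩
        rw [h.toW3.lead y1 ih.1 (by push_cast; omega), ih.2, y2, Φ.e_one, Φ.e_one]
        push_cast
        have t : (3 : ZMod 3) = 0 := rfl
        linear_combination (n - 1) * t
    have h2 := LinearMap.congr_fun hn (Φ.e 1)
    rw [Module.End.pow_apply] at h2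
    have h4 := (key n).2
    rw [show (μ (μ (Φ.e 1) (Φ.e 2)))^[n] (Φ.e 1) = 0 from h2,
      Φ.ℓ_zero (j := 1 + 3 * n + 1) (zero_mem _) (by omega)] at h4
    exact zero_ne_one h4
  · exact add_eq_zero_iff_eq_neg.2 (LieModule.traceForm_apply_lie_apply' ℚ_[3] A A x a b)
  · exact LieAlgebra.killingForm_of_equiv_apply
      { toFun := Φ.ρ g
        map_add' := map_add _
        map_smul' := hl _ 0 fun i a ha => (ρ_lead_one Φ h.nt g ha).1
        map_lie' := h.equi g _ _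
        invFun := Φ.ρ g⁻¹
        left_inv := ρ_inv_ρ Φ g
        right_inv := ρ_ρ_inv Φ g } a b

theorem Lim.kill (h : Lim Φ μ) {d : ℕ} (hd : 1 ≤ d) (h3 : Three Φ.toFilt d)
    (h3' : ∀ i, Φ.ℓ (i + d) (3 • Φ.e i) ≠ 0) :
    ∃ (B : Type) (_ : AddCommGroup B) (β : A →+ A →+ B) (n : ℤ), 6 ≤ n ∧
      (∀ ⦃i j : ℤ⦄ ⦃a b : A⦄, a ∈ Φ.F i → b ∈ Φ.F j → n < i + j → β a b = 0) ∧
      (∃ i, ∃ a ∈ Φ.F i, ∃ b ∈ Φ.F (n - i), β a b ≠ 0) ∧
      (∀ x a b, β (μ x a) b + β a (μ x b) = 0) ∧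
      ∀ g a b, β (Φ.ρ g a) (Φ.ρ g b) = β a b := by
  classical
  obtain ⟨_, hl, hg⟩ := kill_mod hd h3 h3'
  have z3 : (3 : ℚ_[3]) ≠ 0 := by norm_num
  have hd' : (1 : ℤ) ≤ d := by omega
  have : Module.Finite ℚ_[3] A := by
    refine ⟨⟨(Finset.range d).image fun j : ℕ => Φ.e j, eq_top_iff.2 fun a _ => ?_⟩⟩
    obtain ⟨i, hi⟩ := Φ.exh a
    obtain ⟨c, hc⟩ := hg _ (Φ.mono (kill_zpow h3 h3' hi i.natAbs)
      (by have := le_mul_of_one_le_right (Int.natCast_nonneg i.natAbs) hd'; omega))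
    rw [← Submodule.smul_mem_iff _ (zpow_ne_zero (i.natAbs : ℤ) z3), hc]
    exact sum_mem fun j hj => Submodule.smul_mem _ _
      (Submodule.subset_span (Finset.mem_coe.2 (Finset.mem_image_of_mem _ hj)))
  obtain ⟨κ, k0, k1, k2⟩ := h.kill_form hl
  obtain ⟨C, hC⟩ : ∃ C, ∀ a ∈ Φ.F 0, ∀ b ∈ Φ.F 0, ‖κ a b‖ ≤ C := by
    refine ⟨∑ j ∈ Finset.range d, ∑ i ∈ Finset.range d, ‖κ (Φ.e i) (Φ.e j)‖, fun a ha b hb => ?_⟩
    obtain ⟨c, rfl⟩ := hg a ha
    obtain ⟨c', rfl⟩ := hg b hb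
    simp only [map_sum, map_smul, LinearMap.sum_apply, LinearMap.smul_apply]
    refine norm_sum_le_of_le _ fun j _ => ?_
    rw [norm_smul]
    refine (mul_le_of_le_one_left (norm_nonneg _) (c' j).2).trans
      (norm_sum_le_of_le _ fun i _ => ?_)
    rw [norm_smul]
    exact mul_le_of_le_one_left (norm_nonneg _) (c i).2
  obtain ⟨a₀, b₀, i₀, j₀, ha₀, hb₀, hij, hk⟩ : ∃ a b i j, a ∈ Φ.F i ∧ b ∈ Φ.F j ∧ 5 < i + j ∧
      κ a b ≠ 0 := by
    by_contra! hn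
    refine k0 (LinearMap.ext₂ fun a b => ?_)
    obtain ⟨i, hi⟩ := Φ.exh a
    obtain ⟨j, hj⟩ := Φ.exh b
    have := hn _ _ _ _ (kill_zpow h3 h3' hi ((i + j).natAbs + 6)) hj
      (by have := le_mul_of_one_le_right (a := ((i + j).natAbs : ℤ) + 6) (by omega) hd'; omega)
    rwa [map_smul, LinearMap.smul_apply, smul_eq_zero_iff_right (zpow_ne_zero _ z3)] at this
  let H : AddSubgroup ℚ_[3] :=
    { carrier := {x | ‖x‖ < ‖κ a₀ b₀‖}
      add_mem' := fun hx hy => (IsUltrametricDist.norm_add_le_max _ _).trans_lt (max_lt hx hy)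
      zero_mem' := by simpa using hk
      neg_mem' := fun hx => by simpa using hx }
  have ex : ∃ c : ℕ, ∀ ⦃i j : ℤ⦄ ⦃a b : A⦄, a ∈ Φ.F i → b ∈ Φ.F j → 5 + c < i + j → κ a b ∈ H := by
    obtain ⟨t, ht⟩ := ((tendsto_pow_atTop_nhds_zero_of_lt_one (norm_nonneg (3 : ℚ_[3]))
      (Padic.norm_p_lt_one (p := 3))).mul_const C).eventually
        (gt_mem_nhds (by simpa using hk : 0 * C < ‖κ a₀ b₀‖)) |>.exists
    refine ⟨(t + 1) * d, fun i j a b ha hb hn => ?_⟩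
    have e1 := Int.emod_nonneg i (show (d : ℤ) ≠ 0 by omega)
    have e2 := Int.emod_lt_of_pos i (show (0 : ℤ) < d by omega)
    have e3 := Int.emod_add_ediv_mul i d
    have := hC _ (Φ.mono (kill_zpow h3 h3' ha (-(i / d))) (by linarith)) _
      (Φ.mono (kill_zpow h3 h3' hb (i / d - t)) (by push_cast at hn; linarith))
    have e : κ a b = (3 : ℚ_[3]) ^ t • κ ((3 : ℚ_[3]) ^ (-(i / d)) • a)
        ((3 : ℚ_[3]) ^ (i / d - t) • b) := by
      simp only [map_smul, LinearMap.smul_apply, smul_smul]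
      rw [← zpow_natCast, ← zpow_add₀ z3, ← zpow_add₀ z3]
      ring_nf
      simp
    change ‖κ a b‖ < _
    rw [e, norm_smul, norm_pow]
    exact (mul_le_mul_of_nonneg_left this (by positivity)).trans_lt ht
  obtain ⟨c, hc⟩ : ∃ c, Nat.find ex = c + 1 := Nat.exists_eq_succ_of_ne_zero fun e =>
    lt_irrefl _ (show ‖κ a₀ b₀‖ < ‖κ a₀ b₀‖ from
      Nat.find_spec ex ha₀ hb₀ (by rw [e]; simpa using hij))
  have h1 := Nat.find_spec ex
  have h2 := Nat.find_min ex (m := c) (by omega)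
  rw [hc] at h1
  push Not at h2
  obtain ⟨i, j, a, b, ha, hb, h4, h5⟩ := h2
  refine ⟨ℚ_[3] ⧸ H, inferInstance,
    (LinearMap.toAddMonoidHom'.comp κ.toAddMonoidHom).compr₂ (QuotientAddGroup.mk' H),
    5 + (c + 1 : ℕ), by omega, fun i j a b ha hb hn => (QuotientAddGroup.eq_zero_iff _).2
      (h1 ha hb hn), ⟨i, a, ha, b, Φ.mono hb ?_, fun e => h5 ((QuotientAddGroup.eq_zero_iff _).1 e)⟩,
    fun x a b => ?_, fun g a b => congrArg (QuotientAddGroup.mk' H) (k2 g a b)⟩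
  · push_cast; omega
  · exact (map_add (QuotientAddGroup.mk' H) _ _).symm.trans
      ((congrArg (QuotientAddGroup.mk' H) (k1 x a b)).trans (map_zero _))

end Pool.Agent.Lib.MP_ffb54b_al.P3
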