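import Pool.Agent.Lib.MP_ffb54b_al.P3.Op

set_option autoImplicit false
set_option linter.unusedSectionVars false

namespace Pool.Agent.Lib.MP_ffb54b_al.P3

open PowerSeries
open scoped commutatorElement

universe u

/-- An invariant leading term is periodic in the second index. -/
lemma lim3_per (c : ℤ → ℤ → ZMod 3) (d : ZMod 3)
    (hE : ∀ k i j : ℤ, 1 ≤ k → ((i : ZMod 3) + j + d - k) * c i j =
      ((i : ZMod 3) - k) * c (i + k) j + ((j : ZMod 3) - k) * c i (j + k)) (i n : ℤ) :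
    c i (n + 3) = c i n := by
  have h3 : (3 : ZMod 3) = 0 := by decide
  have h2 : (2 : ZMod 3) ≠ 0 := by decide
  have P1 : ∀ i n : ℤ, (n : ZMod 3) - 2 * i ≠ 0 → c i (n + 3) = c i n := by
    intro i n h
    obtain ⟨k, hk, hk'⟩ := exists_int_rep (i : ZMod 3)
    have a1 := hE k i (n - k) hk
    have a2 := hE (k + 3) i (n - k) (by omega)
    rw [show n - k + (k + 3) = n + 3 by ring] at a2
    rw [sub_add_cancel] at a1
    push_cast at a1 a2
    rw [hk'] at a1 a2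
    rw [h3] at a2
    refine mul_left_cancel₀ h ?_
    linear_combination a1 - a2
  by_cases h : (n : ZMod 3) - 2 * i = 0
  · have key : ∀ k : ℤ, 1 ≤ k → (k : ZMod 3) ≠ 0 →
        ((i : ZMod 3) + n + d - k) * (c i (n + 3) - c i n) = 0 := by
      intro k hk hk'
      have a1 := hE k i n hk
      have a2 := hE k i (n + 3) hk
      rw [P1 (i + k) n (fun h1 => by
        push_cast at h1
        exact mul_ne_zero h2 hk' (by linear_combination h - h1)), add_right_comm n 3 k,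
        P1 i (n + k) (fun h1 => by
        push_cast at h1
        exact hk' (by linear_combination h1 - h))] at a2
      push_cast at a2
      rw [h3] at a2
      linear_combination a2 - a1
    have a1 := key 1 le_rfl (by decide)
    have a2 := key 2 (by norm_num) (by decide)
    push_cast at a1 a2
    linear_combination a1 - a2
  · exact P1 i n h

/-- An invariant leading term is a multiple of the Witt bracket. -/
lemma inv3 (c : ℤ → ℤ → ZMod 3) (d : ZMod 3)
    (hE : ∀ k i j : ℤ, 1 ≤ k → ((i : ZMod 3) + j + d - k) * c i j =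
      ((i : ZMod 3) - k) * c (i + k) j + ((j : ZMod 3) - k) * c i (j + k)) :
    ∃ r : ZMod 3, ∀ i j : ℤ, c i j = r * ((j : ZMod 3) - i) := by
  have h3 : (3 : ZMod 3) = 0 := by decide
  have P2 := lim3_per c d hE
  have P1 : ∀ i n : ℤ, c (i + 3) n = c i n := fun i n =>
    lim3_per (fun a b => c b a) d (fun k i j hk => by linear_combination hE k j i hk) n i
  have hd : ∀ i j, d * c i j = 0 := fun i j => by
    have a1 := hE 3 i j (by norm_num)
    rw [P1, P2] at a1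
    push_cast at a1
    rw [h3] at a1
    linear_combination a1
  by_cases h : d = 0
  swap
  · exact ⟨0, fun i j => by rw [zero_mul]; exact (mul_eq_zero.1 (hd i j)).resolve_left h⟩
  subst h
  have Q2 : ∀ i n : ℤ, c i n = c i (n % 3) := fun i n => by
    have : Function.Periodic (c i) (3 : ℤ) := P2 i
    conv_lhs => rw [show n = n % 3 + n / 3 * 3 by omega]
    exact (this.int_mul (n / 3)) _
  have Q1 : ∀ i n : ℤ, c i n = c (i % 3) n := fun i n => by
    have : Function.Periodic (fun i => c i n) (3 : ℤ) := fun i => P1 i n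
    conv_lhs => rw [show i = i % 3 + i / 3 * 3 by omega]
    exact (this.int_mul (i / 3)) _
  have e30 : c 3 0 = c 0 0 := P1 0 0
  have e31 : c 3 1 = c 0 1 := P1 0 1
  have e32 : c 3 2 = c 0 2 := P1 0 2
  have e03 : c 0 3 = c 0 0 := P2 0 0
  have e13 : c 1 3 = c 1 0 := P2 1 0
  have e23 : c 2 3 = c 2 0 := P2 2 0
  have a00 := hE 1 0 0 le_rfl
  have a11 := hE 1 1 1 le_rfl
  have a02 := hE 1 0 2 le_rfl
  have a12 := hE 1 1 2 le_rfl
  have a20 := hE 1 2 0 le_rfl
  have a21 := hE 1 2 1 le_rfl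
  have a22 := hE 1 2 2 le_rfl
  have b00 := hE 2 0 0 (by norm_num)
  have b02 := hE 2 0 2 (by norm_num)
  norm_num only [e30, e31, e32, e03, e13, e23] at a00 a11 a02 a12 a20 a21 a22 b00 b02
  have c00 : c 0 0 = 0 := by
    linear_combination b00 + 2 * a22 + (c 0 0 - 2 * c 2 2) * h3
  have c10 : c 1 0 = -c 0 1 := by linear_combination a00 + c00
  have c11 : c 1 1 = 0 := by linear_combination a11
  have c22 : c 2 2 = 0 := by linear_combination -b02 + c 2 2 * h3
  have c12 : c 1 2 = c 0 1 := by linear_combination -a12 - c10 + c 1 2 * h3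
  have c21 : c 2 1 = -c 0 1 := by linear_combination -a21 + c 2 1 * h3
  have c02 : c 0 2 = -c 0 1 := by linear_combination a02 - c12 + c00
  have c20 : c 2 0 = c 0 1 := by linear_combination a20 - c21 + c00
  refine ⟨c 0 1, fun i j => ?_⟩
  rw [Q1, Q2, ← ZMod.intCast_mod i 3, ← ZMod.intCast_mod j 3]
  push_cast
  have hi : i % 3 = 0 ∨ i % 3 = 1 ∨ i % 3 = 2 := by omega
  have hj : j % 3 = 0 ∨ j % 3 = 1 ∨ j % 3 = 2 := by omega
  rcases hi with hi | hi | hi <;> rcases hj with hj | hj | hj <;> rw [hi, hj] <;> push_cast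
  · linear_combination c00
  · ring
  · linear_combination c02 - c 0 1 * h3
  · linear_combination c10
  · linear_combination c11
  · linear_combination c12
  · linear_combination c20 + c 0 1 * h3
  · linear_combination c21
  · linear_combination c22

variable {A : Type*} [AddCommGroup A] {G : Type*} [Group G] {K : ℕ → Subgroup G}
  {lG : ℕ → G → ZMod 3}

/-- The leading term of an invariant biadditive map is a multiple of the Witt bracket. -/
lemma lim3_lead (Φ : Act 3 A K lG) (hs : ∀ i, 1 ≤ i → ∃ g ∈ K i, lG i g = 1)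
    {σ : A →+ A →+ A} (hρ : ∀ g a b, Φ.ρ g (σ a b) = σ (Φ.ρ g a) (Φ.ρ g b)) {d : ℤ}
    (hd : Φ.Deg σ d) : ∃ r : ZMod 3, ∀ i j : ℤ,
      Φ.ℓ (i + j + d) (σ (Φ.e i) (Φ.e j)) = r * ((j : ZMod 3) - i) := by
  refine inv3 _ d fun k i j hk => ?_
  lift k to ℕ using by omega
  obtain ⟨g, hg, hg'⟩ := hs k (by omega)
  have a1 : Φ.ρ g (σ (Φ.e i) (Φ.e j)) - σ (Φ.e i) (Φ.e j) =
      σ (Φ.ρ g (Φ.e i) - Φ.e i) (Φ.e j) + σ (Φ.e i) (Φ.ρ g (Φ.e j) - Φ.e j) +
      σ (Φ.ρ g (Φ.e i) - Φ.e i) (Φ.ρ g (Φ.e j) - Φ.e j) := by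
    simp only [map_sub, hρ, AddMonoidHom.sub_apply]
    abel
  have m1 := Φ.ρ_deg hg (Φ.e_mem i)
  have m2 := Φ.ρ_deg hg (Φ.e_mem j)
  have a2 := Φ.ρ_lead (by omega) hg (hd (Φ.e_mem i) (Φ.e_mem j))
  have b1 := hd.lead m1 (Φ.e_mem j)
  have b2 := hd.lead (Φ.e_mem i) m2
  rw [Φ.ρ_lead (by omega) hg (Φ.e_mem _), Φ.e_one, Φ.e_one, hg'] at b1 b2
  have n1 := hd m1 (Φ.e_mem j)
  have n2 := hd (Φ.e_mem i) m2
  rw [show i + k + j + d = i + j + d + k by ring] at b1 n1 ⊢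
  rw [show i + (j + k) + d = i + j + d + k by ring] at b2 n2 ⊢
  rw [a1, Φ.add (add_mem n1 n2) (Φ.mono (hd m1 m2) (by omega)), Φ.add n1 n2, b1, b2,
    Φ.ℓ_zero (hd m1 m2) (by omega), hg'] at a2
  push_cast at a2 ⊢
  linear_combination -a2

lemma lim3_anti (Φ : Act 3 A K lG) (hs : ∀ i, 1 ≤ i → ∃ g ∈ K i, lG i g = 1)
    {μ : A →+ A →+ A} (hμ : Φ.Deg μ 0) (hρ : ∀ g a b, Φ.ρ g (μ a b) = μ (Φ.ρ g a) (Φ.ρ g b))
    (a b : A) : μ a b = -μ b a := by
  refine eq_neg_iff_add_eq_zero.2 (Filt.Deg.eq_zero (Φ := Φ.toFilt) (β := μ + μ.flip)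
    (fun i j a b ha hb => add_mem (hμ ha hb) (Φ.mono (hμ hb ha) (by omega))) (fun d hd => ?_) a b)
  obtain ⟨r, hr⟩ := lim3_lead Φ hs (σ := μ + μ.flip) (fun g a b => by
    simp only [AddMonoidHom.add_apply, AddMonoidHom.flip_apply, map_add, hρ]) hd
  have a1 := hr 0 1
  have a2 := hr 1 0
  simp only [AddMonoidHom.add_apply, AddMonoidHom.flip_apply, add_comm (1 : ℤ) 0,
    add_comm (μ (Φ.e 1) (Φ.e 0))] at a1 a2
  rw [a1] at a2
  push_cast at a2
  have h3 : (3 : ZMod 3) = 0 := by decide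
  have : r = 0 := by linear_combination -a2 + r * h3
  intro i j
  rw [hr, this, zero_mul]

lemma lim3_jac (Φ : Act 3 A K lG) (hs : ∀ i, 1 ≤ i → ∃ g ∈ K i, lG i g = 1)
    {μ ν : A →+ A →+ A} (hμ : Φ.Witt μ) (hν : Φ.Deg ν 0)
    (hρ : ∀ g a b, Φ.ρ g (μ a b) = μ (Φ.ρ g a) (Φ.ρ g b))
    (hρ' : ∀ g a b, Φ.ρ g (ν a b) = ν (Φ.ρ g a) (Φ.ρ g b)) (ha : ∀ a b, μ a b = -μ b a)
    (hj : ∀ a b c, μ (μ a b) c - μ a (μ b c) + ν b (μ a c) = 0) (a b c : A) :
    μ (μ a b) c + μ (μ b c) a + μ (μ c a) b = 0 := by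
  have key := Filt.Deg.eq_zero (Φ := Φ.toFilt) (β := ν - μ)
    (fun i j a b ha hb => sub_mem (hν ha hb) (hμ.1 ha hb)) fun d hd => by
      obtain ⟨r, hr⟩ := lim3_lead Φ hs (σ := ν - μ) (fun g a b => by
        simp only [AddMonoidHom.sub_apply, map_sub, hρ, hρ']) hd
      have a1 : (ν - μ) (Φ.e 0) (μ (Φ.e 0) (Φ.e 1)) = -(ν - μ) (Φ.e 0) (μ (Φ.e 0) (Φ.e 1)) := by
        have b1 := hj (Φ.e 0) (Φ.e 0) (Φ.e 1)
        have b2 := hj (Φ.e 0) (Φ.e 0) (Φ.e 1)
        rw [ha (Φ.e 0) (Φ.e 0), map_neg, AddMonoidHom.neg_apply] at b2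
        simp only [AddMonoidHom.sub_apply]
        linear_combination (norm := abel) b1 + b2
      have b1 := hd.lead (Φ.e_mem 0) (hμ.1 (Φ.e_mem 0) (Φ.e_mem 1))
      have n2 := hd (Φ.e_mem 0) (hμ.1 (Φ.e_mem 0) (Φ.e_mem 1))
      have b2 := Φ.ℓ_neg n2
      rw [← a1, b1, hμ.2, Φ.e_one, hr] at b2
      push_cast at b2
      have h3 : (3 : ZMod 3) = 0 := by decide
      have : r = 0 := by linear_combination -b2 + r * h3
      intro i j
      rw [hr, this, zero_mul]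
  have b1 := hj a b c
  have b2 := key b (μ a c)
  rw [AddMonoidHom.sub_apply, AddMonoidHom.sub_apply] at b2
  rw [ha (μ b c), ha (μ c a), ha c a, map_neg]
  linear_combination (norm := abel) b1 - b2

open Subgroup Filter Finset in
theorem exists_lim3 {G : Type u} [Group G] {K : ℕ → Subgroup G} [∀ i, (K i).Normal]
    {lG : ℕ → G → ZMod 3} (h : NT K lG) :
    ∃ (A : Type u) (_ : AddCommGroup A) (Φ : Act 3 A K lG) (μ : A →+ A →+ A), Lim Φ μ := by
  obtain ⟨U, top, dvd, idem⟩ := exists_ultra (p := 3) (by norm_num)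
  obtain ⟨A, _, ⟨M⟩⟩ := exists_model h.toNS top
  have H : Hyp K lG U := ⟨h, top, dvd⟩
  set V := (U : Filter ℕ).curry (U : Filter ℕ)
  set W := (U : Filter ℕ).curry V
  have nV : V.NeBot := curry_neBot _ _
  have nW : W.NeBot := curry_neBot _ _
  have cV : Conv 3 V := (Conv.ultra U).curry (Conv.ultra U)
  have cW : Conv 3 W := (Conv.ultra U).curry cV
  have t1 : Tendsto Prod.fst V U := fun s hs =>
    eventually_curry_iff.2 (Eventually.mono hs fun _ h => Eventually.of_forall fun _ => h)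
  have t2 : Tendsto Prod.snd V U := fun s hs =>
    eventually_curry_iff.2 (Eventually.of_forall fun _ => hs)
  have r23 : Tendsto Prod.snd W V := fun s hs =>
    eventually_curry_iff.2 (Eventually.of_forall fun _ => hs)
  have r1 : ∀ {f : ℕ × ℕ → ℕ}, Tendsto f V U → Tendsto (Prod.map id f) W V := fun hf s hs =>
    eventually_curry_iff.2 ((eventually_curry_iff.1 hs).mono fun _ h => hf.eventually h)
  have r3 : Tendsto (fun τ : ℕ × ℕ × ℕ => (τ.1 + τ.2.1, τ.2.2)) W V := fun s hs =>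
    eventually_curry_iff.2 ((eventually_curry_iff.1 (idem.eventually
      (eventually_curry_iff.1 hs))).mono fun _ h => eventually_curry_iff.2 h)
  have P1 : Pat 3 U V Prod.fst := ⟨nV, cV, t1⟩
  have P2 : Pat 3 U V Prod.snd := ⟨nV, cV, t2⟩
  have P3 : Pat 3 U V (Prod.fst + Prod.snd) := ⟨nV, cV, idem⟩
  have Q1 : Pat 3 U W (fun τ => τ.2.1) := ⟨nW, cW, t1.comp r23⟩
  have Q2 : Pat 3 U W (fun τ => τ.1 + τ.2.2) := ⟨nW, cW, idem.comp (r1 t2)⟩
  have Q3 : Pat 3 U W (fun τ => τ.1 + τ.2.1 + τ.2.2) := ⟨nW, cW, idem.comp r3⟩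
  have Q4 : Pat 3 U W ((fun τ => τ.2.1) + fun τ => τ.1 + τ.2.2) := by
    convert Q3 using 2; simp only [Pi.add_apply]; omega
  obtain ⟨μ, hμ⟩ := Model.exists_br (M := M) H P1 P2 P3
  obtain ⟨ν, hν⟩ := Model.exists_br (M := M) H Q1 Q2 Q4
  have w := hμ.witt H P1 P2 P3
  have e := hμ.conj P1 P2 P3 h.toNS
  have an := lim3_anti (M.act H) h.surj w.1 e
  refine ⟨A, _, M.act H, μ, ⟨w, an, lim3_jac (M.act H) h.surj w (hν.witt H Q1 Q2 Q4).1 e
    (hν.conj Q1 Q2 Q4 h.toNS) an fun a b c => ?_⟩, h, e⟩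
  have b1 := (hμ a b).comp (r1 t1) (u := fun τ => τ.1 + τ.2.1) fun _ => rfl
  have b2 := (hμ b c).comp r23 (u := fun τ => τ.2.1 + τ.2.2) fun _ => rfl
  have b3 := (hμ a c).comp (r1 t2) (u := fun τ => τ.1 + τ.2.2) fun _ => rfl
  have a1 := hμ.lim h.toNS t1 t2 r3 (w := fun τ => τ.1 + τ.2.1 + τ.2.2) b1
    (Model.IsLim.self (y := c) (s := fun τ => τ.2.2)) (fun _ => rfl) (fun _ => rfl) fun _ => rfl
  have a2 := hμ.lim h.toNS t1 t2 (r1 idem) (w := fun τ => τ.1 + τ.2.1 + τ.2.2)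
    (Model.IsLim.self (y := a) (s := fun τ => τ.1)) b2 (fun _ => rfl) (fun _ => rfl)
    fun τ => (add_assoc ..).symm
  have a3 := hν.lim h.toNS Q1.tend Q2.tend tendsto_id (w := fun τ => τ.1 + τ.2.1 + τ.2.2)
    (Model.IsLim.self (y := b) (s := fun τ => τ.2.1)) (b3.inv Q2) (fun _ => rfl) (fun _ => rfl)
    fun τ => by omega
  have a4 := (a1.mul Q3 (a2.inv Q3)).mul Q3 (a3.inv Q3)
  rw [map_neg, neg_neg, ← sub_eq_add_neg] at a4
  refine a4.unique Q3 ((Model.IsLim.one Q3).congr fun d => ?_)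
  obtain ⟨i, hi⟩ := M.bdd a
  obtain ⟨j, hj⟩ := M.bdd b
  obtain ⟨k, hk⟩ := M.bdd c
  have T := top (d - i - j - k + |i| + |j| + |k|).toNat
  filter_upwards [(t1.comp r3).eventually T, (t1.comp (r1 t1)).eventually (hi.and T),
    Q1.tend.eventually (hj.and T), (t2.comp r3).eventually (hk.and T)] with τ _ h1 h2 h3
  have := neg_abs_le i
  have := neg_abs_le j
  have := neg_abs_le k
  have := abs_nonneg i
  have := abs_nonneg j
  have := abs_nonneg k
  refine Eq.trans ?_ ((h.jacobi h1.1 h2.1 h3.1 (n := ix (τ.1 + τ.2.1 + τ.2.2) d) ?_ ?_ ?_).trans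
    (map_one _).symm)
  · simp only [← map_mul]
    congr 1
    simp [commutatorElement_def, mul_assoc]
  all_goals
    have := h1.2
    have := h2.2
    have := h3.2
    simp only [ix, id, Function.comp, Prod.map] at *
    omega

end Pool.Agent.Lib.MP_ffb54b_al.P3
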