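import Pool.Agent.Lib.MP_ffb54b_al.P3.Cen

set_option autoImplicit false
set_option linter.unusedSectionVars false

namespace Pool.Agent.Lib.MP_ffb54b_al.P3

open PowerSeries
open scoped commutatorElement

section MixAux

variable {A : Type*} [AddCommGroup A] {B : Type*} [AddCommGroup B]

lemma mix_smul_zero {c : B} (h3 : (3 : ℤ) • c = 0) {m : ℤ} (hm : (m : ZMod 3) = 0) :
    m • c = 0 := by
  obtain ⟨k, rfl⟩ := (ZMod.intCast_zmod_eq_zero_iff_dvd m 3).1 hm
  rw [mul_comm, mul_smul]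
  push_cast
  rw [h3, smul_zero]

lemma mix_cancel {c : B} (h3 : (3 : ℤ) • c = 0) {m : ℤ} (hm : (m : ZMod 3) ≠ 0)
    (h : m • c = 0) : c = 0 := by
  have h1 : ((m * m - 1 : ℤ) : ZMod 3) = 0 := by
    push_cast
    revert hm
    generalize (m : ZMod 3) = z
    revert z
    decide
  have h2 := mix_smul_zero h3 h1
  rwa [sub_smul, mul_smul, h, smul_zero, one_smul, zero_sub, neg_eq_zero] at h2

variable {Ψ : Filt 3 A} {μ : A →+ A →+ A} {x : ℤ → A} {β : A →+ A →+ B} {n : ℤ}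

/-- The hypotheses on the invariant pairing that do not involve the group. -/
structure MixP (Ψ : Filt 3 A) (μ : A →+ A →+ A) (x : ℤ → A) (β : A →+ A →+ B) (n : ℤ) :
    Prop where
  w : W3 Ψ μ
  hx : WB Ψ μ x 7
  h3 : Three Ψ 7
  h1 : ∀ ⦃i j : ℤ⦄ ⦃a b : A⦄, a ∈ Ψ.F i → b ∈ Ψ.F j → n < i + j → β a b = 0
  h4 : ∀ x a b, β (μ x a) b + β a (μ x b) = 0

namespace MixP

variable (h : MixP Ψ μ x β n)
include h

lemma mem (i : ℤ) : x i ∈ Ψ.F i := (h.hx.1 i).1

lemma three {i j : ℤ} (hs : n < i + j + 7) : (3 : ℤ) • β (x i) (x j) = 0 := by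
  have h1 := h.h1 (h.h3 (h.mem i)) (h.mem j) (by omega)
  rw [map_nsmul, AddMonoidHom.nsmul_apply] at h1
  exact_mod_cast h1

lemma right (i j k : ℤ) (hs : n < i + j + k + 7) :
    β (x i) (μ (x j) (x k)) = (k - j) • β (x i) (x (j + k)) := by
  have h1 := h.h1 (h.mem i) (h.hx.2 j k) (by omega)
  rwa [map_sub, map_zsmul, sub_eq_zero] at h1

lemma left (i j k : ℤ) (hs : n < i + j + k + 7) :
    β (μ (x j) (x k)) (x i) = (k - j) • β (x (j + k)) (x i) := by
  have h1 := h.h1 (h.hx.2 j k) (h.mem i) (by omega)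
  rwa [map_sub, map_zsmul, AddMonoidHom.sub_apply, AddMonoidHom.zsmul_apply, sub_eq_zero] at h1

lemma rel (i j k : ℤ) (hs : n < i + j + k + 7) :
    (i - k) • β (x (k + i)) (x j) + (j - k) • β (x i) (x (k + j)) = 0 := by
  have h1 := h.h4 (x k) (x i) (x j)
  rwa [h.left j k i (by omega), h.right i k j (by omega)] at h1

lemma zero_of_ne {i j : ℤ} (hs : n < i + j + 7) (h0 : ((i + j : ℤ) : ZMod 3) ≠ 0) :
    β (x i) (x j) = 0 := by
  have h1 := h.rel i (j - i) i (by omega)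
  rw [sub_self, zero_smul, zero_add, add_sub_cancel] at h1
  refine mix_cancel (h.three hs) (fun h2 => h0 ?_) h1
  have h3 : (3 : ZMod 3) = 0 := rfl
  push_cast at h2 ⊢
  linear_combination h2 + i * h3

lemma step {i m s : ℤ} (hs : n < s + 7) (h0 : (s : ZMod 3) = 0)
    (hm : ((m + i : ℤ) : ZMod 3) ≠ 0) : β (x m) (x (s - m)) = β (x i) (x (s - i)) := by
  have h3 : (3 : ZMod 3) = 0 := rfl
  have h1 := h.rel i (s - m) (m - i) (by omega)
  rw [show m - i + i = m by ring, show m - i + (s - m) = s - i by ring] at h1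
  have t1 := h.three (i := m) (j := s - m) (by omega)
  have t2 := h.three (i := i) (j := s - i) (by omega)
  have h2 := mix_smul_zero t2 (m := (s - m - (m - i)) + (i - (m - i)))
    (by push_cast; linear_combination h0 + (i - m) * h3)
  refine sub_eq_zero.1 (mix_cancel (c := β (x m) (x (s - m)) - β (x i) (x (s - i)))
    (by rw [smul_sub, t1, t2, sub_zero]) (m := i - (m - i)) (fun h4 => hm ?_) ?_)
  · push_cast at h4 ⊢
    linear_combination -h4 + i * h3
  · rw [add_smul] at h2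
    rw [smul_sub]
    linear_combination (norm := abel) h1 - h2

lemma const {i j : ℤ} (hs : n < i + j + 7) (h0 : ((i + j : ℤ) : ZMod 3) = 0) :
    β (x i) (x j) = β (x (i + j)) (x 0) := by
  have key : ∀ z : ZMod 3, ∃ l : ℤ, z + l ≠ 0 ∧ (l : ZMod 3) ≠ 0 := by
    intro z
    by_cases hz : z = 2
    · exact ⟨2, by rw [hz]; decide, by decide⟩
    · refine ⟨1, fun h1 => hz ?_, by decide⟩
      have h3 : (3 : ZMod 3) = 0 := rfl
      push_cast at h1
      linear_combination h1 - h3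
  obtain ⟨l, h1, h2⟩ := key i
  have e1 := h.step (m := i) (i := l) hs h0 (by push_cast; exact h1)
  have e2 := h.step (m := i + j) (i := l) hs h0 (by rw [Int.cast_add, h0, zero_add]; exact h2)
  rw [add_sub_cancel_left] at e1
  rw [sub_self] at e2
  rw [e1, e2]

lemma top (h2 : ∃ i, ∃ a ∈ Ψ.F i, ∃ b ∈ Ψ.F (n - i), β a b ≠ 0) :
    (n : ZMod 3) = 0 ∧ β (x n) (x 0) ≠ 0 := by
  by_contra hc
  obtain ⟨i, a, ha, b, hb, hab⟩ := h2
  have base : ∀ i j, n ≤ i + j → β (x i) (x j) = 0 := fun i j hij => by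
    rcases hij.lt_or_eq with h1 | h1
    · exact h.h1 (h.mem i) (h.mem j) h1
    · by_cases h0 : ((i + j : ℤ) : ZMod 3) = 0
      · rw [h.const (by omega) h0, ← h1]
        by_contra h3
        exact hc ⟨h1 ▸ h0, h3⟩
      · exact h.zero_of_ne (by omega) h0
  have s1 : ∀ j, n - i ≤ j → β a (x j) = 0 := fun j hj =>
    h.hx.1.le (S := (β.flip (x j)).ker) (i := i) 1 (fun i' hi' => base i' j (by omega))
      (fun a ha => h.h1 ha (h.mem j) (by push_cast; omega)) ha
  exact hab (h.hx.1.le (S := (β a).ker) (i := n - i) 1 s1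
    (fun b hb => h.h1 ha hb (by push_cast; omega)) hb)

/-- The expression that vanishes identically near the top degree. -/
def ex (μ : A →+ A →+ A) (β : A →+ A →+ B) (w a b c : A) : B :=
  β a (μ b c) + β (triE μ a b c w) w

omit h in
lemma ex_add₁ (w a a' b c : A) : ex μ β w (a + a') b c = ex μ β w a b c + ex μ β w a' b c := by
  simp only [ex, triE_apply, map_add, AddMonoidHom.add_apply]; abel

omit h in
lemma ex_add₂ (w a b b' c : A) : ex μ β w a (b + b') c = ex μ β w a b c + ex μ β w a b' c := by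
  simp only [ex, triE_apply, map_add, AddMonoidHom.add_apply]; abel

omit h in
lemma ex_add₃ (w a b c c' : A) : ex μ β w a b (c + c') = ex μ β w a b c + ex μ β w a b c' := by
  simp only [ex, triE_apply, map_add, AddMonoidHom.add_apply]; abel

lemma ex_high {i j k : ℤ} {a b c : A} (ha : a ∈ Ψ.F i) (hb : b ∈ Ψ.F j) (hc : c ∈ Ψ.F k)
    (hs : n < i + j + k) : ex μ β (x 0) a b c = 0 := by
  rw [ex, h.h1 ha (h.w.mem hb hc le_rfl) (by omega),
    h.h1 (h.w.tri_lead ha hb hc (h.mem 0)).1 (h.mem 0) (by omega), add_zero]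

lemma ex_bas (i j k : ℤ) (hs : n < i + j + k + 7) : ex μ β (x 0) (x i) (x j) (x k) = 0 := by
  have h1 := h.h1 (h.w.tri_bas (c := 7) h.hx i j k 0) (h.mem 0) (by push_cast; omega)
  rw [map_sub, map_zsmul, AddMonoidHom.sub_apply, AddMonoidHom.zsmul_apply, sub_eq_zero,
    add_zero] at h1
  rw [ex, h1, h.right i j k hs]
  by_cases h0 : ((i + j + k : ℤ) : ZMod 3) = 0
  · rw [h.const (i := i) (j := j + k) (by omega) (by rwa [← add_assoc]), ← add_assoc, ← add_smul]
    refine mix_smul_zero (h.three (by omega)) ?_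
    push_cast at h0 ⊢
    revert h0
    generalize (i : ZMod 3) = u
    generalize (j : ZMod 3) = v
    generalize (k : ZMod 3) = t
    revert u v t
    decide
  · rw [h.zero_of_ne (i := i) (j := j + k) (by omega) (by rwa [← add_assoc]),
      h.zero_of_ne (i := i + j + k) (j := 0) (by omega) (by rwa [add_zero])]
    simp

lemma ex_zero {i j k : ℤ} {a b c : A} (ha : a ∈ Ψ.F i) (hb : b ∈ Ψ.F j) (hc : c ∈ Ψ.F k)
    (hs : n < i + j + k + 7) : ex μ β (x 0) a b c = 0 := by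
  have s1 : ∀ j' k', j ≤ j' → k ≤ k' → ex μ β (x 0) a (x j') (x k') = 0 := fun j' k' hj hk =>
    h.hx.1.le (S := (AddMonoidHom.mk' (fun a => ex μ β (x 0) a (x j') (x k'))
      fun a a' => ex_add₁ _ a a' _ _).ker) (i := i) 7
      (fun i' hi' => h.ex_bas i' j' k' (by omega))
      (fun a ha => h.ex_high ha (h.mem j') (h.mem k') (by push_cast; omega)) ha
  have s2 : ∀ k', k ≤ k' → ex μ β (x 0) a b (x k') = 0 := fun k' hk =>
    h.hx.1.le (S := (AddMonoidHom.mk' (fun b => ex μ β (x 0) a b (x k'))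
      fun b b' => ex_add₂ _ _ b b' _).ker) (i := j) 7
      (fun j' hj' => s1 j' k' hj' hk)
      (fun b hb => h.ex_high ha hb (h.mem k') (by push_cast; omega)) hb
  exact h.hx.1.le (S := (AddMonoidHom.mk' (fun c => ex μ β (x 0) a b c)
      fun c c' => ex_add₃ _ _ _ c c').ker) (i := k) 7 s2
      (fun c hc => h.ex_high ha hb hc (by push_cast; omega)) hc

end MixP

end MixAux

variable {A : Type*} [AddCommGroup A] {G : Type*} [Group G] {K : ℕ → Subgroup G}
  [∀ i, (K i).Normal] {lG : ℕ → G → ZMod 3} {Φ : Act 3 A K lG} {μ : A →+ A →+ A}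

theorem Lim.mix (h : Lim Φ μ) {x : ℤ → A} (hx : WB Φ.toFilt μ x 7) (h3 : Three Φ.toFilt 7)
    {U : A →+ A} (hU : LeadE Φ.toFilt U 3 1) (hU' : Cen Φ.toFilt μ U 10) (hk : KeyP Φ U)
    {B : Type*} [AddCommGroup B] {β : A →+ A →+ B} {n : ℤ} (hn : 6 ≤ n)
    (h1 : ∀ ⦃i j : ℤ⦄ ⦃a b : A⦄, a ∈ Φ.F i → b ∈ Φ.F j → n < i + j → β a b = 0)
    (h2 : ∃ i, ∃ a ∈ Φ.F i, ∃ b ∈ Φ.F (n - i), β a b ≠ 0)
    (h4 : ∀ x a b, β (μ x a) b + β a (μ x b) = 0)
    (h5 : ∀ g a b, β (Φ.ρ g a) (Φ.ρ g b) = β a b) : False := by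
  have P : MixP Φ.toFilt μ x β n := ⟨h.toW3, hx, h3, h1, h4⟩
  obtain ⟨n0, hc⟩ := P.top h2
  obtain ⟨ν, hν⟩ := (ZMod.intCast_zmod_eq_zero_iff_dvd n 3).1 n0
  have key : ∀ r k : ℕ, 1 ≤ r → r ≤ 2 → (k : ℤ) + r = ν → (k : ZMod 3) = 0 := by
    intro r k r1 r2 hkr
    obtain ⟨g, hg, hg'⟩ := h.nt.surj r r1
    have ma := P.mem (-1)
    have mb := P.mem 0
    have mc := P.mem (3 * k + 1)
    have t1 := h.toW3.tri_lead ma mb mc
    have t2 := h.toW3.triCen (c := 7) hx h3 ma mb mc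
    rw [show (-1 + 0 + (3 * k + 1) : ℤ) = 3 * k by ring] at t1 t2
    have t3 := h.cm_lead hU hU' r2 (hk r r1 r2 g hg) t1 t2
    have w1 := ρ_lead_one Φ h.nt g⁻¹ mb
    rw [add_zero] at w1
    obtain ⟨t4, t5⟩ := t3 w1.1
    rw [show (0 + (3 * k + 3 * r) : ℤ) = n by push_cast at hν; omega] at t4 t5
    have m : ∀ {i : ℤ} {a : A}, a ∈ Φ.F i → Φ.ρ g a ∈ Φ.F i := fun ha => by
      simpa using (ρ_lead_one Φ h.nt g ha).1
    have e1 := P.ex_zero ma mb mc (by push_cast at hν; omega)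
    have e2 := P.ex_zero (m ma) (m mb) (m mc) (by push_cast at hν; omega)
    have e3 : Φ.ρ g (triE μ (x (-1)) (x 0) (x (3 * k + 1)) (Φ.ρ g⁻¹ (x 0))) =
        triE μ (Φ.ρ g (x (-1))) (Φ.ρ g (x 0)) (Φ.ρ g (x (3 * k + 1))) (x 0) := by
      simp only [triE_apply, map_add, h.equi, ρ_ρ_inv]
    have e4 : β (cm Φ g (triE μ (x (-1)) (x 0) (x (3 * k + 1))) (Φ.ρ g⁻¹ (x 0))) (x 0) = 0 := by
      rw [cm_apply, ρ_ρ_inv, e3, map_sub, AddMonoidHom.sub_apply]
      rw [MixP.ex, ← h.equi, h5] at e2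
      rw [MixP.ex] at e1
      linear_combination (norm := abel) e2 - e1
    have e5 := h1 (Φ.decomp t4 (P.mem n) (hx.1 n).2) mb (by omega)
    rw [map_sub, map_zsmul, AddMonoidHom.sub_apply, AddMonoidHom.zsmul_apply, e4, zero_sub,
      neg_eq_zero] at e5
    by_contra hk0
    refine hc (mix_cancel (P.three (by omega)) (fun h6 => hk0 ?_) e5)
    rw [t5, w1.2, (hx.1 _).2, (hx.1 _).2, (hx.1 _).2, hg'] at h6
    have h7 : (3 : ZMod 3) = 0 := rfl
    simp only [ZMod.natCast_val] at h6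
    push_cast at h6
    rw [h7] at h6
    revert h6
    generalize (k : ZMod 3) = z
    revert z
    decide
  have a1 := key 1 (ν - 1).toNat le_rfl (by omega) (by push_cast at hν ⊢; omega)
  have a2 := key 2 (ν - 2).toNat (by omega) le_rfl (by push_cast at hν ⊢; omega)
  have a3 : (ν - 1).toNat = (ν - 2).toNat + 1 := by push_cast at hν; omega
  rw [a3, Nat.cast_add, a2] at a1
  revert a1
  decide

end Pool.Agent.Lib.MP_ffb54b_al.P3
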