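import Pool.Agent.Lib.MP_ffb54b_al.P3.NT3
import Pool.Agent.Lib.MP_ffb54b_al.P3.Lim3
import Pool.Agent.Lib.MP_ffb54b_al.P3.Bas
import Pool.Agent.Lib.MP_ffb54b_al.P3.Key
import Pool.Agent.Lib.MP_ffb54b_al.P3.Kill
import Pool.Agent.Lib.MP_ffb54b_al.P3.Mix
import Pool.Agent.Lib.MP_ffb54b_al.P3.Char3

set_option autoImplicit false
set_option linter.unusedSectionVars false

namespace Pool.Agent.Lib.MP_ffb54b_al.P3

open Subgroup Nott PowerSeries

universe u

theorem exists_hom_link {G : Type u} [Group G] {K : ℕ → Subgroup G} [∀ i, (K i).Normal]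
    {lG : ℕ → G → ZMod 3} (nt : NT K lG) {R : G → Nott 3 → Prop} (L : Link K lG R 200) :
    ∃ θ : G →* Nott 3, ∀ i, 1 ≤ i → ∀ g ∈ K i,
      θ g ∈ Jn 3 i ∧ -coeff (i + 1) ((θ g).ser - X) = lG i g := by
  obtain ⟨A, _, Φ, μ, h⟩ := exists_lim3 nt
  have key : ∀ {x : ℤ → A}, WB Φ.toFilt μ x (7 : ℕ) → Three Φ.toFilt (7 : ℕ) →
      LeadE Φ.toFilt (triE μ (x 0) (x (-1)) (x 4)) 3 1 ∧
      Cen Φ.toFilt μ (triE μ (x 0) (x (-1)) (x 4)) 10 ∧
      KeyP Φ (triE μ (x 0) (x (-1)) (x 4)) := by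
    intro x hx h3
    have hT := h.toW3.triCen hx h3
    have a1 := h.toW3.tri_lead (hx.1 0).1 (hx.1 (-1)).1 (hx.1 4).1
    rw [(hx.1 0).2, (hx.1 (-1)).2, (hx.1 4).2] at a1
    have a2 : LeadE Φ.toFilt (triE μ (x 0) (x (-1)) (x 4)) 3 1 := by
      convert a1 using 1 <;> decide
    have a3 : Cen Φ.toFilt μ (triE μ (x 0) (x (-1)) (x 4)) 10 :=
      hT (hx.1 0).1 (hx.1 (-1)).1 (hx.1 4).1
    exact ⟨a2, a3, h.key L hT a2 a3⟩
  rcases h.toW3.dichotomy with h3 | ⟨d, hd, h3, h3'⟩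
  · have t3 : ∀ D, Three Φ.toFilt D := fun D i a _ => by rw [h3]; exact zero_mem _
    obtain ⟨x, hx, hx'⟩ := h.toW3.exists_exact h3 fun c r => by
      obtain ⟨m, h1, -, h2⟩ := exists_rep r (2 * c + 3)
      exact ⟨m, by simpa using h2, h.restr h1 (t3 _)⟩
    exact h.exists_hom3 h3 hx hx' (key ⟨hx, fun i j => by rw [hx', sub_self]; exact zero_mem _⟩
      (t3 _)).2.2
  · have t3 : ∀ D : ℤ, D ≤ 45 → Three Φ.toFilt D := fun D hD i a ha =>
      Φ.mono (h.three_of_link L ha) (by omega)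
    obtain ⟨x, hx⟩ := h.toW3.exists_wb 7 (t3 _ (by norm_num)) fun r => by
      obtain ⟨m, h1, h2, h4⟩ := exists_rep r 17
      exact ⟨m, by simpa using h4, h.restr (c := 7) h1 (t3 _ (by push_cast; omega))⟩
    obtain ⟨b1, b2, b3⟩ := key hx (t3 _ (by norm_num))
    obtain ⟨B, _, β, n, c1, c2, c3, c4, c5⟩ := h.kill hd h3 h3'
    exact (h.mix hx (t3 _ (by norm_num)) b1 b2 b3 c1 c2 c3 c4 c5).elim

variable {G : Type u} [Group G] [TopologicalSpace G] [IsTopologicalGroup G]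

lemma iso_of_hom {p : ℕ} [hp : Fact p.Prime] (hG : IsProP G p) {K : ℕ → Subgroup G}
    [∀ i, (K i).Normal] {lG : ℕ → G → ZMod p} (h : NT K lG) (hc : ∀ i, IsClosed (K i : Set G))
    (hs : ∀ g, (∀ i, g ∈ K i) → g = 1) (θ : G →* Nott p) (hθ : ∀ i, 1 ≤ i → ∀ g ∈ K i,
      θ g ∈ Jn p i ∧ -coeff (i + 1) ((θ g).ser - X) = lG i g) : Nonempty (G ≃ₜ* Nott p) := by
  obtain ⟨_, _, -⟩ := hG
  have cont : Continuous θ := continuous_of_continuousAt_one θ (by
    rw [ContinuousAt, map_one]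
    refine (nhds_basis _).tendsto_right_iff.2 fun n _ => ?_
    have : (K (n + 1)).FiniteIndex := ⟨h.index n ▸ pow_ne_zero _ hp.out.ne_zero⟩
    filter_upwards [(isOpen_of_isClosed_of_finiteIndex _ (hc (n + 1))).mem_nhds (one_mem _)]
      with g hg using (pow_dvd_pow _ (by omega)).trans (hθ _ (by omega) g hg).1)
  have inj : Function.Injective θ := (injective_iff_map_eq_one θ).2 fun g hg => hs g fun i => by
    refine h.anti i.le_succ ?_
    induction i with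
    | zero => exact h.top ▸ mem_top g
    | succ i ih =>
      rw [← (h.cls _ (by omega)).zero ih, ← (hθ _ (by omega) g ih).2, hg]
      simp [one_ser]
  have sur : Function.Surjective θ := fun f => topologicalClosure_minimal θ.range le_rfl
    (isCompact_range cont).isClosed (Nott.mem_closure (nt.approx le_rfl (fun r hr => by
      obtain ⟨g, hg, hg'⟩ := h.surj r hr
      exact ⟨θ g, ⟨g, rfl⟩, (hθ r hr g hg).1, by simp only [(hθ r hr g hg).2, hg']; simp⟩)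
      (mem_one f)))
  exact ⟨⟨MulEquiv.ofBijective θ ⟨inj, sur⟩, cont,
    Continuous.continuous_symm_of_equiv_compact_to_t2
      (f := (MulEquiv.ofBijective θ ⟨inj, sur⟩).toEquiv) cont⟩⟩

theorem rigid3 {f : ℕ} (hH : IsApprox G 3 f → ∀ i, 1 ≤ i →
    Nonempty (Factor G i ≃* Factor (Nott 3) i)) (hG : IsApprox G 3 (max f 200)) :
    Nonempty (G ≃ₜ* Nott 3) := by
  obtain ⟨K, _, lG, R, nt, hc, hs, L⟩ := exists_link (by norm_num) (mono3 hG (le_max_right _ _))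
    (hH (mono3 hG (le_max_left _ _)))
  obtain ⟨θ, hθ⟩ := exists_hom_link nt L
  exact iso_of_hom hG.1 nt hc hs θ hθ

end Pool.Agent.Lib.MP_ffb54b_al.P3
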