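import Pool.Agent.Lib.MP_ffb54b_al.P3.Op

set_option autoImplicit false
set_option linter.unusedSectionVars false

namespace Pool.Agent.Lib.MP_ffb54b_al.P3

open PowerSeries
open scoped commutatorElement

/-- The second order remainder in the Taylor expansion. -/
noncomputable def jsT (g : Nott 3) (F : (ZMod 3)⟦X⟧) : (ZMod 3)⟦X⟧ :=
  F.subst g.ser - F - d⁄dX _ F * (g.ser - X)

lemma jsT_X_mul (g : Nott 3) (H : (ZMod 3)⟦X⟧) :
    jsT g (X * H) = d⁄dX _ H * (g.ser - X) ^ 2 + g.ser * jsT g H := by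
  simp only [jsT, subst_mul g.hasSubst, subst_X g.hasSubst, Derivation.leibniz, smul_eq_mul,
    derivative_X]
  ring

lemma jsT_add_C (g : Nott 3) (H : (ZMod 3)⟦X⟧) (c : ZMod 3) : jsT g (H + C c) = jsT g H := by
  have h : (C c : (ZMod 3)⟦X⟧).subst g.ser = C c := by
    rw [← Polynomial.coe_C, subst_coe g.hasSubst, Polynomial.aeval_C, Polynomial.coe_C]
    rfl
  simp only [jsT, subst_add g.hasSubst, h, map_add, derivative_C]
  ring

lemma js_X_dvd (g : Nott 3) : X ∣ g.ser := X_dvd_iff.2 g.coeff_zero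

lemma js_dvd_deriv {n : ℕ} {F : (ZMod 3)⟦X⟧} (h : X ^ n ∣ F) : X ^ n ∣ X * d⁄dX _ F := by
  rcases n with _ | n
  · simp
  · rw [pow_succ']
    exact mul_dvd_mul_left _ (dvd_deriv h)

lemma jsT_dvd_zero {j : ℕ} {g : Nott 3} (hg : g ∈ Nott.Jn 3 j) (m : ℕ) (hm : m ≤ 2 * j)
    (F : (ZMod 3)⟦X⟧) : X ^ m ∣ jsT g F := by
  induction m generalizing F with
  | zero => simp
  | succ m ih =>
    rw [eq_X_mul_shift_add_const F, jsT_add_C, jsT_X_mul]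
    refine dvd_add (Dvd.dvd.mul_left ?_ _) ?_
    · refine dvd_trans ?_ (pow_dvd_pow_of_dvd hg 2)
      rw [← pow_mul]
      exact pow_dvd_pow _ (by omega)
    · rw [pow_succ']
      exact mul_dvd_mul (js_X_dvd g) (ih (by omega) _)

lemma jsT_dvd {j : ℕ} {g : Nott 3} (hg : g ∈ Nott.Jn 3 j) {n : ℕ} {F : (ZMod 3)⟦X⟧}
    (hF : X ^ n ∣ F) : X ^ (n + 2 * j) ∣ jsT g F := by
  induction n generalizing F with
  | zero => exact jsT_dvd_zero hg _ (by omega) F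
  | succ n ih =>
    obtain ⟨H, rfl⟩ := hF
    obtain ⟨G, hG⟩ := hg
    rw [pow_succ', mul_assoc, jsT_X_mul]
    refine dvd_add ?_ ?_
    · obtain ⟨Q, hQ⟩ := js_dvd_deriv (Dvd.intro H rfl : X ^ n ∣ X ^ n * H)
      exact ⟨Q * G ^ 2, by rw [hG]; linear_combination X ^ (2 * j + 1) * G ^ 2 * hQ⟩
    · rw [show n + 1 + 2 * j = n + 2 * j + 1 by ring, pow_succ']
      exact mul_dvd_mul (js_X_dvd g) (ih (Dvd.intro H rfl))

lemma js_subst_sub {j : ℕ} {g : Nott 3} (hg : g ∈ Nott.Jn 3 j) {n : ℕ} {F : (ZMod 3)⟦X⟧}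
    (hF : X ^ (n + 1) ∣ F) : X ^ (n + j + 1) ∣ F.subst g.ser - F := by
  have h1 := (pow_dvd_pow X (show n + j + 1 ≤ n + 1 + 2 * j by omega)).trans (jsT_dvd hg hF)
  have h2 := mul_dvd_mul (dvd_deriv hF) hg
  rw [← pow_add] at h2
  simpa [jsT] using dvd_add h1 h2

/-- The infinitesimal part of an element. -/
noncomputable def jsI (f : Nott 3) : (ZMod 3)⟦X⟧ := X - f.ser

lemma jsI_dvd {i : ℕ} {f : Nott 3} : f ∈ Nott.Jn 3 i ↔ X ^ (i + 1) ∣ jsI f := by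
  rw [Nott.mem_Jn, jsI, dvd_sub_comm]

lemma jsI_subst (f g : Nott 3) : (jsI f).subst g.ser = g.ser - (f * g).ser := by
  rw [jsI, subst_sub g.hasSubst, subst_X g.hasSubst, Nott.mul_ser]

lemma jsI_mul {i j : ℕ} {f g : Nott 3} (hf : f ∈ Nott.Jn 3 i) (hg : g ∈ Nott.Jn 3 j) :
    X ^ (i + j + 1) ∣ jsI (f * g) - jsI f - jsI g := by
  have := js_subst_sub hg (jsI_dvd.1 hf)
  rw [jsI_subst] at this
  convert this using 1
  simp only [jsI]
  ring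

lemma cube_mem {m : ℕ} {f : Nott 3} (hf : f ∈ Nott.Jn 3 m) : f ^ 3 ∈ Nott.Jn 3 (2 * m) := by
  have h1 := jsI_mul hf hf
  have h2 := jsI_mul (mul_mem hf hf) hf
  have h3 : (3 : (ZMod 3)⟦X⟧) = 0 := by
    rw [← map_ofNat C 3, show (3 : ZMod 3) = 0 from rfl, map_zero]
  rw [jsI_dvd, two_mul, pow_three']
  convert dvd_add h1 h2 using 1
  linear_combination jsI f * h3

lemma js_mul_ser (f g : Nott 3) :
    (f * g).ser = f.ser - d⁄dX _ f.ser * jsI g + jsT g f.ser := by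
  simp only [jsT, jsI, Nott.mul_ser]
  ring

lemma jsI_comm {i j m : ℕ} {f g : Nott 3} (hf : f ∈ Nott.Jn 3 i) (hg : g ∈ Nott.Jn 3 j)
    (hi : m ≤ i) (hj : m ≤ j) : X ^ (i + j + m + 1) ∣ jsI ⁅f, g⁆ - br (jsI f) (jsI g) := by
  have e : ⁅f, g⁆ * (g * f) = f * g := by
    rw [commutatorElement_def]; group
  have h1 := js_subst_sub (mul_mem (Nott.nt.anti hj hg) (Nott.nt.anti hi hf))
    (jsI_dvd.1 (Nott.nt.comm hf hg))
  rw [jsI_subst, e] at h1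
  have h2 := (pow_dvd_pow X (show i + j + m + 1 ≤ i + 1 + 2 * j by omega)).trans
    (jsT_dvd hg (jsI_dvd.1 hf))
  have h3 := (pow_dvd_pow X (show i + j + m + 1 ≤ j + 1 + 2 * i by omega)).trans
    (jsT_dvd hf (jsI_dvd.1 hg))
  rw [jsT, jsI_subst] at h2 h3
  convert dvd_sub (dvd_sub h2 h3) h1 using 1
  simp only [br, jsI]
  ring

lemma js_br_dvd {i j : ℕ} {u v : (ZMod 3)⟦X⟧} (hu : X ^ (i + 1) ∣ u) (hv : X ^ (j + 1) ∣ v) :
    X ^ (i + j + 1) ∣ br u v := by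
  have h1 := mul_dvd_mul hu (dvd_deriv hv)
  have h2 := mul_dvd_mul (dvd_deriv hu) hv
  rw [← pow_add] at h1 h2
  rw [show i + 1 + j = i + j + 1 by ring] at h1
  exact dvd_sub h1 h2

/-- The element `f` of depth `i` is approximated by the vector field `u`. -/
def jsAp (f : Nott 3) (u : (ZMod 3)⟦X⟧) (i : ℕ) : Prop :=
  f ∈ Nott.Jn 3 i ∧ X ^ (i + 7 + 1) ∣ jsI f - u

lemma jsAp_self {f : Nott 3} {i : ℕ} (hf : f ∈ Nott.Jn 3 i) : jsAp f (jsI f) i :=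
  ⟨hf, by simp⟩

lemma jsAp.comm {f g : Nott 3} {u v : (ZMod 3)⟦X⟧} {i j : ℕ} (hf : jsAp f u i) (hg : jsAp g v j)
    (hi : 7 ≤ i) (hj : 7 ≤ j) : jsAp ⁅f, g⁆ (br u v) (i + j) := by
  refine ⟨Nott.nt.comm hf.1 hg.1, ?_⟩
  have h0 : X ^ (i + 1) ∣ u := by
    simpa using dvd_sub (jsI_dvd.1 hf.1) ((pow_dvd_pow X (by omega)).trans hf.2)
  have h1 := jsI_comm hf.1 hg.1 hi hj
  have h2 := js_br_dvd hf.2 (jsI_dvd.1 hg.1)
  have h3 := js_br_dvd h0 hg.2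
  rw [show i + 7 + j + 1 = i + j + 7 + 1 by ring] at h2
  rw [← add_assoc] at h3
  convert dvd_add (dvd_add h1 h2) h3 using 1
  simp only [br, map_sub]
  ring

lemma jsAp.mul {f g : Nott 3} {u v : (ZMod 3)⟦X⟧} {i : ℕ} (hf : jsAp f u i) (hg : jsAp g v i)
    (hi : 7 ≤ i) : jsAp (f * g) (u + v) i := by
  refine ⟨mul_mem hf.1 hg.1, ?_⟩
  have h1 := (pow_dvd_pow X (show i + 7 + 1 ≤ i + i + 1 by omega)).trans (jsI_mul hf.1 hg.1)
  convert dvd_add (dvd_add h1 hf.2) hg.2 using 1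
  ring

lemma js_wd {a b c h : Nott 3} (ha : a ∈ Nott.Jn 3 18) (hb : b ∈ Nott.Jn 3 19)
    (hc : c ∈ Nott.Jn 3 20) (hh : h ∈ Nott.Jn 3 18) :
    jsAp (wd a b c h) (tri (jsI a) (jsI b) (jsI c) 1 * jsI h) 75 := by
  have ha := jsAp_self ha
  have hb := jsAp_self hb
  have hc := jsAp_self hc
  have hh := jsAp_self hh
  have h1 := ha.comm ((hb.comm hc (by omega) (by omega)).comm hh (by omega) (by omega))
    (by omega) (by omega)
  have h2 := hb.comm ((hc.comm ha (by omega) (by omega)).comm hh (by omega) (by omega))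
    (by omega) (by omega)
  have h3 := hc.comm ((ha.comm hb (by omega) (by omega)).comm hh (by omega) (by omega))
    (by omega) (by omega)
  rw [← tri_eq]
  exact (jsAp.mul (i := 75) h1 h2 (by omega)).mul h3 (by omega)

lemma js_tri : tri (X ^ 19) (X ^ 20) (X ^ 21) (1 : (ZMod 3)⟦X⟧) = -4 * X ^ 57 := by
  have hn : ∀ n : ℕ, d⁄dX (ZMod 3) (n : (ZMod 3)⟦X⟧) = 0 := fun n => Derivation.map_natCast _ n
  simp only [tri, br, Derivation.leibniz_pow, derivative_X, smul_eq_mul, nsmul_eq_mul, map_sub,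
    Derivation.leibniz, hn, Derivation.map_one_eq_zero, map_add, mul_zero, mul_one,
    zero_sub, map_neg, add_zero]
  push_cast
  ring

lemma js_conj {i : ℕ} {f : Nott 3} (hf : f ∈ Nott.Jn 3 i) (g : Nott 3) :
    X ^ (1 + 2 * i) ∣ (jsI (g * f * g⁻¹)).subst g.ser - d⁄dX _ g.ser * jsI f := by
  have h := jsT_dvd hf (n := 1) (F := g.ser) (by simpa using js_X_dvd g)
  rw [jsI_subst, inv_mul_cancel_right, js_mul_ser g f, ← dvd_neg]
  convert h using 1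
  ring

lemma js_pow {r : ℕ} {g : Nott 3} {G : (ZMod 3)⟦X⟧} (hG : g.ser - X = X ^ (r + 1) * G) :
    ∃ z, g.ser ^ 57 = X ^ 57 + X ^ (57 + 3 * r) * (G ^ 3 * (19 + X ^ (3 * r) * z)) := by
  have h3 : (3 : (ZMod 3)⟦X⟧) = 0 := by
    rw [← map_ofNat C 3, show (3 : ZMod 3) = 0 from rfl, map_zero]
  have h1 : ∀ (y : (ZMod 3)⟦X⟧) (n : ℕ), ∃ z, (1 + y) ^ n = 1 + n * y + y ^ 2 * z := fun y n => by
    induction n with
    | zero => exact ⟨0, by simp⟩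
    | succ n ih =>
      obtain ⟨z, hz⟩ := ih
      exact ⟨z + n + y * z, by rw [pow_succ, hz]; push_cast; ring⟩
  obtain ⟨z, hz⟩ := h1 (X ^ (3 * r) * G ^ 3) 19
  have e : g.ser ^ 3 = X ^ 3 * (1 + X ^ (3 * r) * G ^ 3) := by
    rw [show g.ser = X + X ^ (r + 1) * G by linear_combination hG]
    linear_combination (X ^ 2 * (X ^ (r + 1) * G) + X * (X ^ (r + 1) * G) ^ 2) * h3
  refine ⟨G ^ 3 * z, ?_⟩
  rw [show 57 = 3 * 19 from rfl, pow_mul, e, mul_pow, hz]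
  push_cast
  ring

lemma js_main {a b c : Nott 3} (ha : jsI a = X ^ 19) (hb : jsI b = X ^ 20) (hc : jsI c = X ^ 21)
    (g : Nott 3) : X ^ 83 ∣ (jsI (wdc g a b c)).subst g.ser -
      4 * (g.ser ^ 57 - X ^ 57) * (d⁄dX _ g.ser * X ^ 19) := by
  have ha' : a ∈ Nott.Jn 3 18 := jsI_dvd.2 (ha ▸ dvd_rfl)
  have hb' : b ∈ Nott.Jn 3 19 := jsI_dvd.2 (hb ▸ dvd_rfl)
  have hc' : c ∈ Nott.Jn 3 20 := jsI_dvd.2 (hc ▸ dvd_rfl)
  have hn : ∀ {i : ℕ} {f : Nott 3}, f ∈ Nott.Jn 3 i → g * f * g⁻¹ ∈ Nott.Jn 3 i := fun hf =>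
    Subgroup.Normal.conj_mem inferInstance _ hf g
  obtain ⟨h1, h2⟩ := js_wd ha' hb' hc' ha'
  obtain ⟨h3, h4⟩ := js_wd ha' hb' hc' (hn ha')
  rw [ha, hb, hc, js_tri] at h2 h4
  have h5 : wdc g a b c ∈ Nott.Jn 3 75 := mul_mem (hn h1) (inv_mem h3)
  have h6 := g.X_pow_dvd_subst
    ((pow_dvd_pow X (show 83 ≤ 75 + 75 + 1 by omega)).trans (jsI_mul h5 h3))
  rw [show wdc g a b c * wd a b c (g * a * g⁻¹) = g * wd a b c a * g⁻¹ from
    inv_mul_cancel_right _ _, subst_sub g.hasSubst, subst_sub g.hasSubst] at h6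
  have h7 := (pow_dvd_pow X (show 83 ≤ 1 + 2 * 75 by omega)).trans (js_conj h1 g)
  have h8 := g.X_pow_dvd_subst h4
  have hneg : (-4 : (ZMod 3)⟦X⟧).subst g.ser = -4 := by
    rw [← coe_substAlgHom g.hasSubst, map_neg, map_ofNat]
  rw [subst_sub g.hasSubst, subst_mul g.hasSubst, subst_mul g.hasSubst, subst_pow g.hasSubst,
    subst_X g.hasSubst, hneg] at h8
  have h9 := mul_dvd_mul (pow_dvd_pow_of_dvd (js_X_dvd g) 57) (js_conj ha' g)
  rw [← pow_add, ha] at h9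
  have h10 := (pow_dvd_pow X (show 83 ≤ 57 + (1 + 2 * 18) by omega)).trans h9
  convert dvd_add (dvd_sub (dvd_add (dvd_sub h7 h6) (h2.mul_left (d⁄dX _ g.ser))) h8)
    (h10.mul_left 4) using 1
  ring

theorem jside : ∃ a b c : Nott 3, (a ∈ Nott.Jn 3 18 ∧ -coeff (18 + 1) (a.ser - X) = 1) ∧
    (b ∈ Nott.Jn 3 19 ∧ -coeff (19 + 1) (b.ser - X) = 1) ∧
    (c ∈ Nott.Jn 3 20 ∧ -coeff (20 + 1) (c.ser - X) = 1) ∧
    ∀ r : ℕ, 1 ≤ r → r ≤ 2 → ∀ g ∈ Nott.Jn 3 r, wdc g a b c ∈ Nott.Jn 3 (75 + 3 * r) ∧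
      -coeff (75 + 3 * r + 1) ((wdc g a b c).ser - X) = coeff (r + 1) (g.ser - X) := by
  have ex : ∀ i : ℕ, 1 ≤ i → ∃ a : Nott 3, jsI a = X ^ (i + 1) ∧ a ∈ Nott.Jn 3 i ∧
      -coeff (i + 1) (a.ser - X) = 1 := fun i hi =>
    ⟨⟨X - X ^ (i + 1), by simp, by simp [coeff_X_pow, show i ≠ 0 by omega]⟩, by simp [jsI],
      by simp [Nott.mem_Jn], by simp [coeff_X_pow]⟩
  obtain ⟨a, ha, ha'⟩ := ex 18 (by omega)
  obtain ⟨b, hb, hb'⟩ := ex 19 (by omega)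
  obtain ⟨c, hc, hc'⟩ := ex 20 (by omega)
  refine ⟨a, b, c, ha', hb', hc', fun r h1 h2 g hg => ?_⟩
  obtain ⟨G, hG⟩ := hg
  obtain ⟨z, hz⟩ := js_pow hG
  have h := js_main ha hb hc g
  have e : 4 * (g.ser ^ 57 - X ^ 57) * (d⁄dX _ g.ser * X ^ 19) =
      X ^ (75 + 3 * r + 1) * (4 * (G ^ 3 * (19 + X ^ (3 * r) * z)) * d⁄dX _ g.ser) := by
    rw [hz]
    ring
  rw [e, jsI_subst] at h
  have hm : wdc g a b c ∈ Nott.Jn 3 (75 + 3 * r) := by
    rw [← mul_inv_cancel_right (wdc g a b c) g, Nott.mul_inv_mem, dvd_sub_comm]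
    exact (dvd_sub_left (dvd_mul_right _ _)).1
      ((pow_dvd_pow X (show 75 + 3 * r + 1 ≤ 83 by omega)).trans h)
  refine ⟨hm, ?_⟩
  have h3 := X_pow_dvd_iff.1 h (75 + 3 * r + 1) (by omega)
  rw [map_sub, sub_eq_zero] at h3
  rw [← Nott.coeff_mul_sub hm g, ← map_neg, neg_sub, h3, hG]
  have h4 : constantCoeff (d⁄dX (ZMod 3) g.ser) = 1 := by
    rw [← coeff_zero_eq_constantCoeff_apply, coeff_derivative, zero_add, g.coeff_one]
    simp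
  have h5 : ∀ (n : ℕ) (F : (ZMod 3)⟦X⟧), coeff n (X ^ n * F) = constantCoeff F := fun n F => by
    simp [coeff_X_pow_mul']
  rw [h5, h5]
  simp only [map_mul, map_add, map_pow, h4, constantCoeff_X, map_ofNat,
    zero_pow (show 3 * r ≠ 0 by omega), zero_mul]
  generalize constantCoeff G = t
  revert t
  decide

end Pool.Agent.Lib.MP_ffb54b_al.P3
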