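import Pool.Agent.Lib.MP_ffb54b_al.P3.NT3a

set_option autoImplicit false
set_option linter.unusedSectionVars false

namespace Pool.Agent.Lib.MP_ffb54b_al.P3.N3

open Subgroup Nott PowerSeries
open scoped commutatorElement

universe u

variable {G : Type u} [Group G] [TopologicalSpace G] [IsTopologicalGroup G]
  {Y : Subgroup G} [Y.Normal] {x y : G}

lemma t3 : (3 : ZMod 3) = 0 := by decide

lemma t2 : (2 : ZMod 3) ≠ 0 := by decide

namespace Ctx

lemma cyc {p : ℕ} [hp : Fact p.Prime] (h : Ctx p Y x y) {M : ℕ}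
    (hM : (WS Y (M + 2)).relIndex (WS Y (M + 1)) ≤ p) : ∃ u, GenBy (WS Y) u (M + 1) := by
  obtain ⟨Q, _, _, cls, c⟩ := h.ex_cls M
  by_cases h0 : ∀ a ∈ WS Y (M + 1), cls a = 0
  · exact ⟨1, one_mem _, fun a ha => ⟨0, by
      rw [pr_one.2 ((c.zero ha).1 (h0 a ha))]; simp⟩⟩
  push Not at h0
  obtain ⟨u, hu, hu'⟩ := h0
  have h1 : (WS Y (M + 2)).relIndex (WS Y (M + 1)) ≠ 0 := fun h1 => h.index_ne (M + 1) (by
    rw [← relIndex_mul_index (h.ns.anti (Nat.le_succ (M + 1))), h1, zero_mul])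
  rw [c.relIndex] at hM h1
  have hf : (cls '' WS Y (M + 1)).Finite := Nat.finite_of_card_ne_zero h1
  have hs : (Set.range fun r : ZMod p => r • cls u) ⊆ cls '' WS Y (M + 1) := by
    rintro _ ⟨r, rfl⟩
    exact ⟨_, zpow_mem hu r.val, by rw [c.zpow hu, ← Int.cast_smul_eq_zsmul (ZMod p)]; simp⟩
  have he := Set.eq_of_subset_of_ncard_le hs (by
    rw [← Nat.card_coe_set_eq, ← Nat.card_coe_set_eq,
      Nat.card_range_of_injective (smul_left_injective _ hu'), Nat.card_zmod]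
    exact hM) hf
  refine ⟨u, hu, fun a ha => ?_⟩
  obtain ⟨r, hr⟩ : cls a ∈ Set.range fun r : ZMod p => r • cls u := he ▸ ⟨a, ha, rfl⟩
  refine ⟨r.val, (c.eq_iff ha (zpow_mem hu _)).1 ?_⟩
  rw [c.zpow hu, ← Int.cast_smul_eq_zsmul (ZMod p), ← hr]
  simp

variable (h : Ctx 3 Y x y)
include h

lemma loc {M : ℕ} {Q : Type*} [AddCommGroup Q] [Module (ZMod 3) Q] {cls : G → Q}
    (c : IsCls (WS Y) M cls) {s : ℕ} (hs1 : 1 ≤ s) (hs : s ≤ 3) (hM0 : (M : ZMod 3) ≠ 0)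
    (r : ∀ d, d + s ≤ M → Rel (WS Y) (gs 3 x y) d) {l : ℕ} (h1 : s ≤ l) (h2 : 2 * l + 6 ≤ M)
    (h3 : l + 7 ≤ M) :
    (M : ZMod 3) • cls ⁅gs 3 x y l, gs 3 x y (M - l)⁆ =
      ((M : ZMod 3) - 2 * l) • cls ⁅gs 3 x y 3, gs 3 x y (M - 3)⁆ := by
  have a1 := h.jac c (k := l) (l := l + 3) (by omega) (by omega) (by omega) (r _ (by omega))
    (r _ (by omega)) (r _ (by omega))
  have a2 := h.jac c (k := l) (l := 3) (by omega) (by omega) (by omega) (r _ (by omega))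
    (r _ (by omega)) (r _ (by omega))
  generalize cls ⁅gs 3 x y (l + (l + 3)), gs 3 x y (M - (l + (l + 3)))⁆ = q1 at a1
  generalize cls ⁅gs 3 x y (l + 3), gs 3 x y (M - (l + 3))⁆ = q2 at a1 a2
  generalize cls ⁅gs 3 x y l, gs 3 x y (M - l)⁆ = q3 at a1 a2 ⊢
  generalize cls ⁅gs 3 x y 3, gs 3 x y (M - 3)⁆ = q4 at a2 ⊢
  have e1 : ((l + 3 : ℕ) : ZMod 3) = l := by push_cast; rw [t3, add_zero]
  have e2 : ((3 : ℕ) : ZMod 3) = 0 := by decide
  rw [e1, show (M : ZMod 3) - l - 2 * l = M by linear_combination (-l : ZMod 3) * t3, sub_self,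
    zero_smul, eq_comm, sub_eq_zero] at a1
  rw [e2, ← smul_right_injective _ hM0 a1] at a2
  linear_combination (norm := module) -a2

lemma F2 {i : ℕ} (hM : 15 ≤ i + 3) (hi : (i : ZMod 3) = 0)
    (r : ∀ d, d < i + 3 → Rel (WS Y) (gs 3 x y) d) (g2 : GenBy (WS Y) (gs 3 x y (i + 2)) (i + 2))
    {u : G} (hu : GenBy (WS Y) u (i + 3)) : ⁅gs 3 x y 3, gs 3 x y i⁆ ∈ WS Y (i + 4) := by
  by_contra hne
  set w := ⁅gs 3 x y 3, gs 3 x y i⁆ with hw
  have m3 : w ∈ WS Y (i + 3) := h.ns.comm' (h.mem 3) (h.mem i) (by omega)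
  have gw : GenBy (WS Y) w (i + 3) := by
    obtain ⟨Q, _, _, cls, c⟩ := h.ex_cls (i + 2)
    refine ⟨m3, fun a ha => ?_⟩
    obtain ⟨n, hn⟩ := hu.2 w m3
    obtain ⟨m, hm⟩ := hu.2 a ha
    rw [← c.eq_iff m3 (zpow_mem hu.1 _), c.zpow hu.1, ← Int.cast_smul_eq_zsmul (ZMod 3)] at hn
    have h0 : (n : ZMod 3) ≠ 0 := fun h0 => hne (by
      rwa [h0, zero_smul, c.zero m3] at hn)
    refine ⟨((m : ZMod 3) / n).val, hm.trans ((c.eq_iff (zpow_mem hu.1 _) (zpow_mem m3 _)).1 ?_)⟩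
    rw [c.zpow hu.1, c.zpow m3, hn, ← Int.cast_smul_eq_zsmul (ZMod 3),
      ← Int.cast_smul_eq_zsmul (ZMod 3), Int.cast_natCast, ZMod.natCast_zmod_val, smul_smul,
      div_mul_cancel₀ _ h0]
  have hc : ∀ e : ℕ, ((i + 3 + e : ℕ) : ZMod 3) = e := fun e => by
    push_cast; rw [hi, t3]; ring
  have key : ∀ {e : ℕ}, 1 ≤ e → e ≤ 2 → ∀ {Q : Type u} [AddCommGroup Q] [Module (ZMod 3) Q]
      {cls : G → Q}, IsCls (WS Y) (i + 3 + e) cls → cls ⁅gs 3 x y e, w⁆ = 0 := by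
    intro e he1 he2 Q _ _ cls c
    have he : (e : ZMod 3) ≠ 0 := by interval_cases e <;> decide
    have a1 := h.loc c (s := e + 1) (l := e + 3) (by omega) (by omega) (by rwa [hc])
      (fun d hd => r d (by omega)) (by omega) (by omega) (by omega)
    have a3 := c.jacobi h.ns (show 1 ≤ 3 by omega) (show 1 ≤ i by omega) he1 (h.mem _)
      (h.mem _) (h.mem _) (by omega)
    rw [h.rel_left c (i := i) (by omega) he1 (r _ (by omega)) (h.mem _) (by omega),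
      h.rel_left c (i := e) he1 (by omega) (r _ (by omega)) (h.mem _) (by omega),
      c.anti h.ns (h.mem (i + e)) (h.mem _) (by omega), hi] at a3
    rw [show i + 3 + e - (e + 3) = i by omega, show i + 3 + e - 3 = i + e by omega, hc] at a1
    rw [c.anti h.ns (h.mem e) m3 (by omega), neg_eq_zero]
    generalize cls ⁅gs 3 x y (e + 3), gs 3 x y i⁆ = q1 at a1 a3
    generalize cls ⁅gs 3 x y 3, gs 3 x y (i + e)⁆ = q2 at a1 a3
    have e1 : ((e + 3 : ℕ) : ZMod 3) = e := by push_cast; rw [t3, add_zero]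
    have e2 : ((3 : ℕ) : ZMod 3) = 0 := by decide
    rw [e1] at a1
    rw [e2] at a3
    linear_combination (norm := module) a3 + a1
  have b1 : WS Y (i + 4) ≤ WS Y (i + 5) := by
    obtain ⟨Q, _, _, cls, c⟩ := h.ex_cls (i + 3)
    have a1 := key le_rfl (by omega) c
    refine h.span gw g2 le_rfl ((c.zero (h.ns.comm' h.gen1.1 m3 (by omega))).1 a1)
      ((c.zero (h.ns.comm' h.gen2.1 (h.mem _) (by omega))).1 ?_)
    have a3 := h.loc c (s := 2) (l := 2) (by omega) (by omega) (by rw [hc]; decide)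
      (fun d hd => r d (by omega)) le_rfl (by omega) (by omega)
    rw [hc, show ((1 : ℕ) : ZMod 3) - 2 * (2 : ℕ) = 0 by decide, zero_smul, Nat.cast_one,
      one_smul] at a3
    exact a3
  have b2 : WS Y (i + 5) ≤ WS Y (i + 6) := by
    obtain ⟨Q, _, _, cls, c⟩ := h.ex_cls (i + 4)
    exact h.span (u := 1) ⟨one_mem _, fun a ha => ⟨0, by rw [pr_one.2 (b1 ha)]; simp⟩⟩ gw le_rfl
      (by simp) ((c.zero (h.ns.comm' h.gen2.1 m3 (by omega))).1 (key (by omega) le_rfl c))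
  exact h.collapse b1 b2

lemma rel_gen {i : ℕ} (hM : 15 ≤ i + 3) (r : ∀ d, d < i + 3 → Rel (WS Y) (gs 3 x y) d)
    (g1 : GenBy (WS Y) (gs 3 x y (i + 1)) (i + 1)) (g2 : GenBy (WS Y) (gs 3 x y (i + 2)) (i + 2))
    (hu : ((i + 3 : ℕ) : ZMod 3) = 0 → ∃ u, GenBy (WS Y) u (i + 3)) :
    Rel (WS Y) (gs 3 x y) (i + 3) ∧ GenBy (WS Y) (gs 3 x y (i + 3)) (i + 3) := by
  obtain ⟨Q, _, _, cls, c⟩ := h.ex_cls (i + 2)
  by_cases h0 : ((i + 3 : ℕ) : ZMod 3) = 0
  · obtain ⟨u, hu⟩ := hu h0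
    have hi : (i : ZMod 3) = 0 := by push_cast at h0; linear_combination h0 - t3
    have a1 := (c.zero (h.ns.comm' (h.mem 3) (h.mem i) (by omega))).2 (h.F2 hM hi r g2 hu)
    have a2 := h.jac c (k := 1) (l := 2) le_rfl (by omega) (by omega) (r _ (by omega))
      (r _ (by omega)) (r _ (by omega))
    rw [show cls ⁅gs 3 x y (1 + 2), gs 3 x y (i + 2 + 1 - (1 + 2))⁆ = 0 from a1,
      show ((i + 2 + 1 : ℕ) : ZMod 3) = 0 from h0,
      show (0 : ZMod 3) - (1 : ℕ) - 2 * (2 : ℕ) = 1 by decide,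
      show (0 : ZMod 3) - (2 : ℕ) - 2 * (1 : ℕ) = -1 by decide] at a2
    refine h.F1 c r g1 g2 (cls ⁅x, gs 3 x y (i + 2)⁆) ?_ ?_
    · rw [hi, zero_add, one_smul]
    · rw [hi]
      change _ = (1 : ZMod 3) • cls ⁅x, gs 3 x y (i + 2)⁆ -
        (-1 : ZMod 3) • cls ⁅y, gs 3 x y (i + 1)⁆ at a2
      linear_combination (norm := module) -a2
  · have L := fun l h1 h2 h3 => h.loc c (s := 1) (l := l) le_rfl (by omega) h0
      (fun d hd => r d hd) h1 h2 h3
    refine h.F1 c r g1 g2 (((i + 3 : ℕ) : ZMod 3)⁻¹ • cls ⁅gs 3 x y 3, gs 3 x y (i + 3 - 3)⁆) ?_ ?_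
    · rw [smul_comm, eq_inv_smul_iff₀ h0]
      refine (L 1 le_rfl (by omega) (by omega)).trans ?_
      congr 1; push_cast; ring
    · rw [smul_comm, eq_inv_smul_iff₀ h0]
      refine (L 2 (by omega) (by omega) (by omega)).trans ?_
      congr 1; push_cast; ring

section Idx

variable {N : ℕ} (hN : ∀ M, M < N → Good 3 Y x y (M + 1))
include hN

lemma step (hM : 15 ≤ N + 1) : Good 3 Y x y (N + 1) := by
  have h5 := h.h5
  obtain ⟨i, rfl⟩ := Nat.exists_eq_add_of_le' (show 2 ≤ N by omega)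
  have r : ∀ d, d < i + 3 → Rel (WS Y) (gs 3 x y) d := fun d hd => by
    rcases d with _ | d
    · intro i j hi hj e; omega
    · exact (hN d (by omega)).1
  have g1 := (hN i (by omega)).2.1
  have g2 := (hN (i + 1) (by omega)).2.1
  obtain ⟨R, g3⟩ := h.rel_gen hM r g1 g2 fun h0 => by
    have hi : (i : ZMod 3) = 0 := by push_cast at h0; linear_combination h0 - t3
    obtain ⟨k, h1, h2⟩ := h.lcs hN (i + 2) le_rfl (by push_cast; rw [hi]; decide)
    have h3 : gamma (Nott 3) (k + 2) = Jn 3 (i + 4) := by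
      rw [gamma, h2, comm_ne_one h5 (M := i + 2) (by push_cast; rw [hi]; decide)]
    have h4 : gamma G (k + 2) ≤ WS Y (i + 4) := by
      rw [gamma, h1]
      exact topologicalClosure_minimal _ (commutator_le.2 fun a ha b _ =>
        h.ns.comm' (j := 1) ha (mem_top b) le_rfl) (WS_closed h.closed _)
    have h6 := index_dvd_of_le h4
    rw [h.idx, h3, nt.index, ← relIndex_mul_index (h.ns.anti (Nat.le_succ (i + 3))),
      h.index hN le_rfl, pow_succ' 3 (i + 2)] at h6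
    exact h.cyc (Nat.le_of_dvd (by norm_num)
      (Nat.dvd_of_mul_dvd_mul_right (k := 3 ^ (i + 2)) (by positivity) h6))
  refine ⟨R, g3, fun hg => ?_⟩
  have b1 : WS Y (i + 3) ≤ WS Y (i + 4) := fun a ha => by
    obtain ⟨n, hn⟩ := g3.2 a ha
    exact pr_mem le_rfl hn (zpow_mem hg n)
  have m1 : ⁅x, gs 3 x y (i + 3)⁆ ∈ WS Y (i + 5) := h.ns.comm' h.gen1.1 hg (by omega)
  obtain ⟨R', g4⟩ := h.rel_gen (i := i + 1) (by omega)
    (fun d hd => (Nat.lt_succ_iff_lt_or_eq.1 hd).elim (r d) fun e => e ▸ R) g2 g3 fun _ =>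
      ⟨_, h.span_gen g3 g2 (h.ns.comm' h.gen2.1 g2.1 (by omega)) (n := 0) (m := 1)
        (by rw [pr_one.2 m1]; simp) (by simp)⟩
  by_cases h0 : ((i + 2 : ℕ) : ZMod 3) = 0
  · obtain ⟨k, h1, h2⟩ := h.lcs hN (i + 2) le_rfl (by simp [h0])
    have h3 : WS Y (i + 5) ≤ gamma G (k + 2) := by
      rw [gamma, h1]
      exact topologicalClosure_mono (sup_le (commutator_mono (h.ns.anti (by omega)) le_rfl)
        (commutator_mono le_rfl le_top))
    have h4 := Nat.le_of_dvd (Nat.pos_of_ne_zero (h.index_ne _)) (index_dvd_of_le h3)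
    rw [h.idx, gamma, h2, comm_eq_one h5 h0, nt.index,
      ← relIndex_mul_index (h.ns.anti (Nat.le_succ (i + 4))),
      le_antisymm (h.ns.anti (Nat.le_succ (i + 3))) b1, h.index hN le_rfl] at h4
    have h6 := (h.relIndex_le g4).1
    rw [le_antisymm (h.ns.anti (Nat.le_succ (i + 3))) b1] at h6
    have h7 := h4.trans (Nat.mul_le_mul_right _ h6)
    rw [← pow_succ', Nat.pow_le_pow_iff_right (by norm_num : 1 < 3)] at h7
    omega
  · obtain ⟨Q, _, _, cls, c⟩ := h.ex_cls (i + 3)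
    have a1 := (c.eq_iff (h.ns.anti (by omega) m1) (zpow_mem (h.mem _) _)).2
      (R' 1 (i + 3) le_rfl (by omega) (by omega))
    rw [(c.zero (h.ns.anti (by omega) m1)).2 m1, c.zpow (h.mem _),
      ← Int.cast_smul_eq_zsmul (ZMod 3), eq_comm, smul_eq_zero_iff_right (fun h1 => h0 (by
        push_cast at h1 ⊢; linear_combination h1)), c.zero (h.mem _)] at a1
    refine h.collapse b1 fun a ha => ?_
    obtain ⟨n, hn⟩ := g4.2 a ha
    exact pr_mem le_rfl hn (zpow_mem a1 n)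

end Idx

theorem exists_nt (base : ∀ M, M + 1 < 15 → Good 3 Y x y (M + 1)) :
    ∃ ℓ : ℕ → G → ZMod 3, NT (WS Y) ℓ ∧ ∀ i, 1 ≤ i → ℓ i (gs 3 x y i) = 1 := by
  have good : ∀ M, Good 3 Y x y (M + 1) := fun M => by
    induction M using Nat.strong_induction_on with
    | _ M ih => exact (lt_or_ge _ _).elim (base M) (h.step ih)
  have key : ∀ M, ∃ ℓ : G → ZMod 3, 1 ≤ M → IsCls (WS Y) M ℓ ∧ ℓ (gs 3 x y M) = 1 := by
    rintro (_ | M)
    · exact ⟨0, fun h => absurd h (by omega)⟩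
    obtain ⟨Q, _, _, cls, c⟩ := h.ex_cls M
    have h0 : cls (gs 3 x y (M + 1)) ≠ 0 := fun h1 => (good M).2.2 ((c.zero (h.mem _)).1 h1)
    have : ∀ a, ∃ r : ZMod 3, a ∈ WS Y (M + 1) → cls a = r • cls (gs 3 x y (M + 1)) := fun a => by
      by_cases ha : a ∈ WS Y (M + 1)
      · obtain ⟨n, hn⟩ := (good M).2.1.2 a ha
        exact ⟨n, fun _ => by rw [(c.eq_iff ha (zpow_mem (h.mem _) n)).2 hn, c.zpow (h.mem _),
          Int.cast_smul_eq_zsmul]⟩
      · exact ⟨0, fun h => absurd h ha⟩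
    choose ℓ hℓ using this
    refine ⟨ℓ, fun _ => ⟨⟨fun {a b} ha hb => smul_left_injective _ h0 ?_, fun {a} ha => ?_⟩,
      smul_left_injective _ h0 ?_⟩⟩
    · simp only [add_smul, ← hℓ _ ha, ← hℓ _ hb, ← hℓ _ (mul_mem ha hb), c.mul ha hb]
    · rw [← c.zero ha, hℓ a ha, smul_eq_zero_iff_left h0]
    · simp only [← hℓ _ (h.mem _), one_smul]
  choose ℓ hℓ using key
  refine ⟨ℓ, ⟨h.ns, rfl, fun i hi => (hℓ i hi).1, fun i hi => ⟨_, h.mem i, (hℓ i hi).2⟩,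
    fun {i j a b} hi hj ha hb => ?_⟩, fun i hi => (hℓ i hi).2⟩
  obtain ⟨i, rfl⟩ := Nat.exists_eq_add_of_le' hi
  obtain ⟨j, rfl⟩ := Nat.exists_eq_add_of_le' hj
  obtain ⟨n, hn⟩ := (good i).2.1.2 a ha
  obtain ⟨m, hm⟩ := (good j).2.1.2 b hb
  obtain ⟨c, c'⟩ := hℓ (i + 1 + (j + 1)) (by omega)
  rw [c.lead_left h.ns hi ha (h.mem _) hn hb le_rfl,
    c.lead_right h.ns hj (h.mem _) hb (h.mem _) hm le_rfl,
    (c.eq_iff (h.ns.comm (h.mem _) (h.mem _)) (zpow_mem (h.mem _) _)).2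
      ((good (i + 1 + j)).1 _ _ hi hj rfl), c.zpow (h.mem _), c',
    ((hℓ _ hi).1.eq_iff ha (zpow_mem (h.mem _) _)).2 hn, (hℓ _ hi).1.zpow (h.mem _), (hℓ _ hi).2,
    ((hℓ _ hj).1.eq_iff hb (zpow_mem (h.mem _) _)).2 hm, (hℓ _ hj).1.zpow (h.mem _), (hℓ _ hj).2]
  simp only [zsmul_eq_mul]
  push_cast
  ring

end Ctx

section Gen

variable {p : ℕ} [hp : Fact p.Prime]

lemma discrete_quot (h5 : (2 : ZMod p) ≠ 0) (n : ℕ) : DiscreteTopology (Nott p ⧸ gamma (Nott p) n) :=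
  QuotientGroup.discreteTopology (isOpen_mono (gamma_anti n.le_succ) (by
    obtain ⟨M, h⟩ := gamma_Jn_step h5 n
    exact h ▸ isOpen_Jn _))

end Gen

end Pool.Agent.Lib.MP_ffb54b_al.P3.N3

namespace Pool.Agent.Lib.MP_ffb54b_al.P3

open PowerSeries
open scoped commutatorElement

universe u

variable {G : Type u} [Group G] [TopologicalSpace G] [IsTopologicalGroup G]

theorem mono3 {n m : ℕ} (h : IsApprox G 3 n) (hm : m ≤ n) : IsApprox G 3 m := by
  obtain ⟨f, h1, h2, h3⟩ := h.exists_hom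
  have := N3.discrete_quot N3.t2 n
  obtain ⟨⟨e⟩, _⟩ := quot_equiv h1 h2 (h3.le.trans (gamma_anti hm))
  obtain ⟨⟨e'⟩, _⟩ := quot_equiv (f := QuotientGroup.mk' (gamma (Nott 3) n))
    QuotientGroup.continuous_mk (QuotientGroup.mk'_surjective _)
    ((QuotientGroup.ker_mk' _).le.trans (gamma_anti hm))
  exact ⟨h.1, h.2.1, ⟨⟨e.trans e'.symm, continuous_of_discreteTopology,
    continuous_of_discreteTopology⟩⟩⟩

open Subgroup Nott N3 in
theorem exists_link {n : ℕ} (hn : 20 ≤ n) (hG : IsApprox G 3 n)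
    (hH : ∀ i, 1 ≤ i → Nonempty (Factor G i ≃* Factor (Nott 3) i)) :
    ∃ (K : ℕ → Subgroup G) (_ : ∀ i, (K i).Normal) (lG : ℕ → G → ZMod 3)
      (R : G → Nott 3 → Prop), NT K lG ∧ (∀ i, IsClosed (K i : Set G)) ∧
      (∀ g, (∀ i, g ∈ K i) → g = 1) ∧ Link K lG R n := by
  have h5 := N3.t2
  obtain ⟨f, h1, h2, h3⟩ := hG.exists_hom
  have := N3.discrete_quot h5 n
  let π := QuotientGroup.mk' (gamma (Nott 3) n)
  have h1' : Continuous π := QuotientGroup.continuous_mk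
  have h2' : Function.Surjective π := QuotientGroup.mk'_surjective _
  let Y := ((Jn 3 2).map π).comap f
  have : Y.Normal := (Normal.map inferInstance π h2').comap f
  have hY : IsClosed (Y : Set G) := (isClosed_discrete ((Jn 3 2).map π).carrier).preimage h1
  choose t ht using fun a => h2' (f a)
  have comm : ⁅(⊤ : Subgroup G), ⊤⁆ ≤ Y := commutator_le.2 fun a _ b _ =>
    ⟨⁅t a, t b⁆, nt.comm' (mem_one _) (mem_one _) le_rfl, by simp only [map_commutatorElement, ht]⟩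
  have link : ∀ {i a b}, i + 1 ≤ n → f a = π b → (a ∈ WS Y (i + 1) ↔ b ∈ Jn 3 (i + 1)) := by
    intro i a b hi e
    rw [mem_WS_iff h1 h2 (h3.le.trans ((gamma_anti hi).trans (gamma_le_WS hY comm _))),
      ← N3.WS_eq h5, mem_WS_iff h1' h2' ((QuotientGroup.ker_mk' _).le.trans ((gamma_anti hi).trans
        (N3.WS_eq h5 i ▸ N3.gamma_le_Jn h5 i))), e, map_comap_eq_self_of_surjective h2]
  obtain ⟨x', hx1, hx2⟩ := (nt (p := 3)).surj 1 le_rfl
  obtain ⟨y', hy1, hy2⟩ := (nt (p := 3)).surj 2 (by omega)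
  obtain ⟨x, hx⟩ := h2 (π x')
  obtain ⟨y, hy⟩ := h2 (π y')
  have e : ∀ i, f (gs 3 x y i) = π (gs 3 x' y' i) := fun i => by rw [map_gs, map_gs, hx, hy]
  have m := gs_mem (p := 3) nt.toNS hx1 hy1
  have o := N3.gs_one h5 nt hx2 hy1 hy2
  have good : ∀ M, M + 1 < 15 → Good 3 Y x y (M + 1) := fun M hM => by
    have c := (nt (p := 3)).cls (M + 1) (by omega)
    refine ⟨fun i j hi hj hij => ?_, ⟨(link (by omega) (e _)).2 (m _), fun a ha => ?_⟩, fun h => ?_⟩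
    · obtain ⟨i, rfl⟩ := Nat.exists_eq_add_of_le' hi
      obtain ⟨j, rfl⟩ := Nat.exists_eq_add_of_le' hj
      refine pr_eq.2 ((link (b := ⁅gs 3 x' y' (i + 1), gs 3 x' y' (j + 1)⁆ *
        (gs 3 x' y' (M + 1) ^ (((j + 1 : ℕ) : ℤ) - (i + 1 : ℕ)))⁻¹) (by omega)
        (by simp only [map_mul, map_inv, map_zpow, map_commutatorElement, e])).2 (pr_eq.1
        ((c.eq_iff (nt.comm' (m _) (m _) hij.ge) (zpow_mem (m _) _)).1 ?_)))
      have := nt.lead hi hj (m (i + 1)) (m (j + 1))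
      rw [hij, o, o] at this
      rw [this, c.zpow (m _), o]
      simp
    · obtain ⟨k, hk⟩ := nt.pr_zpow (by omega) ((link (by omega) (ht a).symm).1 ha) (m _)
        (o M ▸ one_ne_zero)
      exact ⟨k, pr_eq.2 ((link (by omega) (by
        simp only [map_mul, map_inv, map_zpow, e, ht])).2 (pr_eq.1 hk))⟩
    · exact one_ne_zero ((o M).symm.trans ((c.zero (m _)).2 ((link (by omega) (e _)).1 h)))
  have tors : ∀ i, i + 2 ≤ n → ∀ a ∈ WS Y (i + 1), a ^ 3 ∈ WS Y (i + 2) := fun i hi a ha => by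
    have c := (nt (p := 3)).cls (i + 1) (by omega)
    have ha' := (link (by omega) (ht a).symm).1 ha
    rw [link (b := t a ^ 3) hi (by simp only [map_pow, ht]), ← c.zero (pow_mem ha' _),
      ← zpow_natCast, c.zpow ha']
    simp [N3.t3]
  have C : N3.Ctx 3 Y x y := ⟨h5, hY, comm, fun k => ?_, fun a => tors 0 (by omega) a (mem_top a),
    tors 1 (by omega), (good 0 (by omega)).2.1, (good 1 (by omega)).2.1⟩
  · obtain ⟨ℓ, hℓ, hℓ'⟩ := C.exists_nt good
    have lk : ∀ {i a b}, 1 ≤ i → i ≤ n → f a = π b → (a ∈ WS Y i ↔ b ∈ Jn 3 i) := by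
      intro i a b hi hi' e
      obtain ⟨i, rfl⟩ := Nat.exists_eq_add_of_le' hi
      exact link hi' e
    refine ⟨WS Y, inferInstance, ℓ, fun a a' => f a = π a', hℓ, WS_closed hY,
      fun g hg => hG.1.eq_one fun i => gamma_anti i.le_succ (WS_le_gamma Y C.ns i (hg _)),
      fun a => ⟨t a, (ht a).symm⟩, fun a' => h2 (π a'), fun {a b a' b'} ha hb => ?_,
      fun {a a'} ha => ?_, fun {a a' i} ha hi hi' => lk hi hi' ha,
      fun {a a' i} ha hi hi' hm => ?_⟩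
    · simp only [map_mul, ha, hb]
    · simp only [map_inv, ha]
    · have o' : -coeff (i + 1) ((gs 3 x' y' i).ser - X) = 1 := by
        obtain ⟨i, rfl⟩ := Nat.exists_eq_add_of_le' hi
        exact o i
      have c := (nt (p := 3)).cls i hi
      obtain ⟨k, hk⟩ := nt.pr_zpow hi hm (m i) (o' ▸ one_ne_zero)
      have a1 : a ∈ WS Y i := (lk hi hi'.le ha).2 hm
      have a2 : pr (WS Y) (i + 1) a = pr (WS Y) (i + 1) (gs 3 x y i ^ k) :=
        pr_eq.2 ((lk (by omega) (by omega) (by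
          simp only [map_mul, map_inv, map_zpow, e, ha])).2 (pr_eq.1 hk))
      have a3 := (c.eq_iff hm (zpow_mem (m i) k)).2 hk
      rw [c.zpow (m i), o'] at a3
      rw [((hℓ.cls i hi).eq_iff a1 (zpow_mem (C.mem i) k)).2 a2, (hℓ.cls i hi).zpow (C.mem i),
        hℓ' i hi, a3]
  · induction k with
    | zero => exact index_top.trans index_top.symm
    | succ k ih =>
      obtain ⟨e⟩ := hH (k + 1) (by omega)
      rw [← relIndex_mul_index (gamma_anti (k + 1).le_succ),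
        ← relIndex_mul_index (gamma_anti (G := Nott 3) (k + 1).le_succ), ih]
      exact congrArg (· * _) (Nat.card_congr e.toEquiv)

end Pool.Agent.Lib.MP_ffb54b_al.P3
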