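import Pool.Agent.Lib.MP_ffb54b_al.P3.Op

set_option autoImplicit false
set_option linter.unusedSectionVars false

namespace Pool.Agent.Lib.MP_ffb54b_al.P3.N3

open Subgroup Nott PowerSeries
open scoped commutatorElement

universe u

section A

variable {G : Type*} [Group G] {p : ℕ} {K : ℕ → Subgroup G} [hp : Fact p.Prime]
  {ℓ : ℕ → G → ZMod p}

lemma gs_one (h5 : (2 : ZMod p) ≠ 0) (h : NT K ℓ) {x y : G} (hx : ℓ 1 x = 1) (hy : y ∈ K 2)
    (hy' : ℓ 2 y = 1) : ∀ i, ℓ (i + 1) (gs p x y (i + 1)) = 1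
  | 0 => hx
  | 1 => hy'
  | i + 2 => by
    have hx' : x ∈ K 1 := h.top ▸ mem_top x
    have m := gs_mem (p := p) h.toNS hx' hy
    have c := h.cls (i + 3) (by omega)
    simp only [gs]
    split_ifs with h0
    · have := h.lead (by omega) (by omega) hy (m (i + 1))
      rw [hy', gs_one h5 h hx hy hy' i, show 2 + (i + 1) = i + 3 by omega] at this
      rw [← zpow_natCast, c.zpow (h.comm' hy (m (i + 1)) (by omega)), this]
      have h1 : (i - 1 : ZMod p) ≠ 0 := fun h1 => h5 (by linear_combination h0 - h1)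
      rw [zsmul_eq_mul, Int.cast_natCast, ZMod.natCast_zmod_val]
      push_cast
      field_simp
      ring
    · have := h.lead (by omega) (by omega) hx' (m (i + 2))
      rw [hx, gs_one h5 h hx hy hy' (i + 1), show 1 + (i + 2) = i + 3 by omega] at this
      rw [← zpow_natCast, c.zpow (h.comm' hx' (m (i + 2)) (by omega)), this]
      rw [zsmul_eq_mul, Int.cast_natCast, ZMod.natCast_zmod_val]
      push_cast
      field_simp
      ring

lemma closure_eq (h5 : (2 : ZMod p) ≠ 0) {M : ℕ} {S : Subgroup (Nott p)} (h1 : S ≤ Jn p (M + 3))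
    (h2 : ⁅Jn p (M + 2), ⊤⁆ ≤ S) (h3 : ⁅Jn p (M + 1), Jn p 2⁆ ≤ S) :
    S.topologicalClosure = Jn p (M + 3) := by
  refine le_antisymm (topologicalClosure_minimal _ h1
    (Subgroup.isClosed_of_isOpen _ (isOpen_Jn _))) fun f hf => mem_closure
    (nt.approx (by omega) (fun r hr => ?_) hf)
  obtain ⟨r, rfl⟩ := Nat.exists_eq_add_of_le' (show 3 ≤ r by omega)
  obtain ⟨x, hx, hx'⟩ := (nt (p := p)).surj 1 le_rfl
  obtain ⟨y, hy, hy'⟩ := (nt (p := p)).surj 2 (by omega)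
  obtain ⟨a, ha, ha'⟩ := (nt (p := p)).surj (r + 1) (by omega)
  obtain ⟨b, hb, hb'⟩ := (nt (p := p)).surj (r + 2) (by omega)
  by_cases h0 : (r + 1 : ZMod p) = 0
  · refine ⟨_, h3 (commutator_mem_commutator (nt.anti (by omega) ha) hy),
      nt.comm' ha hy le_rfl, ?_⟩
    have := nt.lead (by omega) (by omega) ha hy
    rw [this, ha', hy']
    push_cast
    exact fun h => h5 (by linear_combination h + h0)
  · refine ⟨_, h2 (commutator_mem_commutator (nt.anti (by omega) hb) (mem_top x)),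
      nt.comm' hb hx le_rfl, ?_⟩
    have := nt.lead (by omega) (by omega) hb hx
    rw [this, hb', hx']
    push_cast
    exact fun h => h0 (by linear_combination -h)

lemma WS_eq (h5 : (2 : ZMod p) ≠ 0) : ∀ i, WS (Jn p 2) (i + 1) = Jn p (i + 1)
  | 0 => nt.top.symm
  | 1 => rfl
  | i + 2 => by
    rw [WS, WS_eq h5 i, WS_eq h5 (i + 1)]
    exact closure_eq h5 (sup_le
      (commutator_le.2 fun _ ha b _ => nt.comm' ha (mem_one b) le_rfl)
      (commutator_le.2 fun _ ha _ hb => nt.comm' ha hb le_rfl)) le_sup_left le_sup_right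

lemma comm_eq_one (h5 : (2 : ZMod p) ≠ 0) {M : ℕ} (hM : (M : ZMod p) = 0) :
    (⁅Jn p (M + 1), ⊤⁆ : Subgroup _).topologicalClosure = Jn p (M + 3) :=
  closure_eq h5 (commutator_le.2 fun a ha b _ => by
      have h := nt.lead (by omega) le_rfl ha (mem_one b)
      rw [Nat.cast_add, hM, zero_add, sub_self, zero_mul, zero_mul] at h
      exact ((nt.cls (M + 2) (by omega)).zero (nt.comm' ha (mem_one b) le_rfl)).1 h)
    (commutator_mono (nt.anti (by omega)) le_rfl) (commutator_mono le_rfl le_top)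

lemma comm_ne_one (h5 : (2 : ZMod p) ≠ 0) {M : ℕ} (hM : (M : ZMod p) ≠ 0) :
    (⁅Jn p (M + 1), ⊤⁆ : Subgroup _).topologicalClosure = Jn p (M + 2) := by
  refine le_antisymm (topologicalClosure_minimal _
    (commutator_le.2 fun _ ha b _ => nt.comm' ha (mem_one b) le_rfl)
    (Subgroup.isClosed_of_isOpen _ (isOpen_Jn _))) fun f hf => ?_
  obtain ⟨x, hx, hx'⟩ := (nt (p := p)).surj 1 le_rfl
  obtain ⟨a, ha, ha'⟩ := (nt (p := p)).surj (M + 1) (by omega)
  obtain ⟨n, hn⟩ := nt.pr_zpow (by omega) hf (nt.comm' ha hx le_rfl) (by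
    have h := nt.lead (by omega) le_rfl ha hx
    rw [ha', hx'] at h
    exact fun h1 => hM (by simpa using h.symm.trans h1))
  refine pr_mem ?_ hn (zpow_mem (le_topologicalClosure _
    (commutator_mem_commutator ha (mem_top x))) n)
  rw [← closure_eq (S := ⁅Jn p (M + 2), ⊤⁆ ⊔ ⁅Jn p (M + 1), Jn p 2⁆) h5 (sup_le
      (commutator_le.2 fun _ ha b _ => nt.comm' ha (mem_one b) le_rfl)
      (commutator_le.2 fun _ ha _ hb => nt.comm' ha hb le_rfl)) le_sup_left le_sup_right]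
  exact topologicalClosure_mono (sup_le (commutator_mono (nt.anti (by omega)) le_rfl)
    (commutator_mono le_rfl le_top))

end A

variable {G : Type u} [Group G] [TopologicalSpace G] [IsTopologicalGroup G] {p : ℕ}
  [hp : Fact p.Prime] {Y : Subgroup G} [Y.Normal] {x y : G}

lemma gamma_le_Jn (h5 : (2 : ZMod p) ≠ 0) (i : ℕ) : gamma (Nott p) (i + 1) ≤ Jn p (i + 1) := by
  rw [← WS_eq h5]
  exact gamma_le_WS (Subgroup.isClosed_of_isOpen _ (isOpen_Jn _))
    (commutator_le.2 fun a _ b _ => nt.comm' (mem_one a) (mem_one b) le_rfl) _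

lemma gamma_Jn_step (h5 : (2 : ZMod p) ≠ 0) (k : ℕ) : ∃ M, gamma (Nott p) (k + 1) = Jn p (M + 1) := by
  induction k with
  | zero => exact ⟨0, nt.top.symm⟩
  | succ k ih =>
    obtain ⟨M, h⟩ := ih
    rw [gamma, h]
    by_cases hM : (M : ZMod p) = 0
    exacts [⟨_, comm_eq_one h5 hM⟩, ⟨_, comm_ne_one h5 hM⟩]

/-- The standing hypotheses of the induction. -/
structure Ctx (p : ℕ) (Y : Subgroup G) [Y.Normal] (x y : G) : Prop where
  h5 : (2 : ZMod p) ≠ 0
  closed : IsClosed (Y : Set G)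
  comm : ⁅(⊤ : Subgroup G), ⊤⁆ ≤ Y
  idx : ∀ k, (gamma G (k + 1)).index = (gamma (Nott p) (k + 1)).index
  tors1 : ∀ a, a ^ p ∈ WS Y 2
  tors2 : ∀ a ∈ WS Y 2, a ^ p ∈ WS Y 3
  gen1 : GenBy (WS Y) x 1
  gen2 : GenBy (WS Y) y 2

namespace Ctx

variable (h : Ctx p Y x y)
include h

lemma ns : NS (WS Y) := WS_ns h.closed h.comm

lemma mem (i : ℕ) : gs p x y i ∈ WS Y i := gs_mem h.ns h.gen1.1 h.gen2.1 i

lemma index_ne (M : ℕ) : (WS Y (M + 1)).index ≠ 0 := by
  refine ne_zero_of_dvd_ne_zero ?_ (index_dvd_of_le (gamma_le_WS h.closed h.comm (M + 1)))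
  obtain ⟨N, hN⟩ := gamma_Jn_step h.h5 M
  rw [h.idx, hN, nt.index]
  exact pow_ne_zero _ hp.out.ne_zero

lemma WS_le {i : ℕ} {S : Subgroup G} (hS : WS Y (i + 4) ≤ S)
    (h1 : ∀ a ∈ WS Y (i + 2), ∀ b : G, ⁅b, a⁆ ∈ S)
    (h2 : ∀ a ∈ WS Y (i + 1), ∀ b ∈ WS Y 2, ⁅b, a⁆ ∈ S) : WS Y (i + 3) ≤ S := by
  have : (WS Y (i + 4)).FiniteIndex := ⟨h.index_ne _⟩
  refine topologicalClosure_minimal _ (sup_le (commutator_le.2 fun a ha b _ => ?_)
    (commutator_le.2 fun a ha b hb => ?_)) (Subgroup.isClosed_of_isOpen _ (isOpen_mono hS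
      (isOpen_of_isClosed_of_finiteIndex _ (WS_closed h.closed _))))
  · rw [← commutatorElement_inv]; exact inv_mem (h1 a ha b)
  · rw [← commutatorElement_inv]; exact inv_mem (h2 a ha b hb)

lemma tors : ∀ M, ∀ a ∈ WS Y (M + 1), a ^ p ∈ WS Y (M + 2)
  | 0 => fun a _ => h.tors1 a
  | 1 => h.tors2
  | i + 2 => by
    obtain ⟨Q, _, _, cls, c⟩ := exists_cls h.ns (p := 0) (M := i + 3) (by omega) (by simp)
    let S : Subgroup G :=
      { carrier := {a | a ∈ WS Y (i + 3) ∧ (p : ℤ) • cls a = 0}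
        one_mem' := ⟨one_mem _, by simp [c.one]⟩
        mul_mem' := fun ha hb => ⟨mul_mem ha.1 hb.1, by
          rw [c.mul ha.1 hb.1, smul_add, ha.2, hb.2, add_zero]⟩
        inv_mem' := fun ha => ⟨inv_mem ha.1, by rw [c.inv ha.1, smul_neg, ha.2, neg_zero]⟩ }
    have key : ∀ {j k : ℕ} {a b : G}, 1 ≤ k → a ∈ WS Y j → b ∈ WS Y k → b ^ p ∈ WS Y (k + 1) →
        i + 3 ≤ k + j → ⁅b, a⁆ ∈ S := fun hk ha hb hb' e => ⟨h.ns.comm' hb ha e, by
      rw [← c.zpow_left h.ns hk hb ha e, zpow_natCast, c.zero (h.ns.comm' (pow_mem hb _) ha e)]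
      exact h.ns.comm' hb' ha (by omega)⟩
    intro a ha
    have := h.WS_le (S := S) (fun a ha => ⟨h.ns.anti (by omega) ha, by
        rw [(c.zero (h.ns.anti (by omega) ha)).2 ha, smul_zero]⟩)
      (fun a ha b => key le_rfl ha (mem_top b) (h.tors1 b) (by omega))
      (fun a ha b hb => key (by omega) ha hb (h.tors2 b hb) (by omega)) ha
    rw [← c.zero (pow_mem ha _), ← zpow_natCast, c.zpow ha]
    exact this.2

lemma ex_cls (M : ℕ) : ∃ (Q : Type u) (_ : AddCommGroup Q) (_ : Module (ZMod p) Q) (cls : G → Q),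
    IsCls (WS Y) (M + 1) cls := exists_cls h.ns (by omega) (h.tors M)

lemma span {i : ℕ} {u v : G} (hu : GenBy (WS Y) u (i + 2)) (hv : GenBy (WS Y) v (i + 1))
    {S : Subgroup G} (hS : WS Y (i + 4) ≤ S) (h1 : ⁅x, u⁆ ∈ S) (h2 : ⁅y, v⁆ ∈ S) :
    WS Y (i + 3) ≤ S := by
  obtain ⟨Q, _, _, cls, c⟩ := h.ex_cls (i + 2)
  have key : ∀ {j k : ℕ} {u z : G}, 1 ≤ j → 1 ≤ k → i + 3 ≤ k + j → GenBy (WS Y) u j →
      GenBy (WS Y) z k → ⁅z, u⁆ ∈ S → ∀ a ∈ WS Y j, ∀ b ∈ WS Y k, ⁅b, a⁆ ∈ S := by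
    intro j k u z hj hk e hu hz h1 a ha b hb
    obtain ⟨n, hn⟩ := hu.2 a ha
    obtain ⟨m, hm⟩ := hz.2 b hb
    have h2 := h.ns.comm' hz.1 hu.1 e
    refine pr_mem hS ((c.eq_iff (h.ns.comm' hb ha e) (zpow_mem h2 (m * n))).1 ?_) (zpow_mem h1 _)
    rw [c.lead_left h.ns hk hb hz.1 hm ha e, c.lead_right h.ns hj hz.1 ha hu.1 hn e, c.zpow h2,
      mul_smul]
  exact h.WS_le hS (fun a ha b => key (by omega) le_rfl (by omega) hu h.gen1 h1 a ha b (mem_top b))
    (key (by omega) (by omega) (by omega) hv h.gen2 h2)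

lemma span_gen {i : ℕ} {u v w : G} (hu : GenBy (WS Y) u (i + 2)) (hv : GenBy (WS Y) v (i + 1))
    (hw : w ∈ WS Y (i + 3)) {n m : ℤ}
    (h1 : pr (WS Y) (i + 4) ⁅x, u⁆ = pr (WS Y) (i + 4) (w ^ n))
    (h2 : pr (WS Y) (i + 4) ⁅y, v⁆ = pr (WS Y) (i + 4) (w ^ m)) : GenBy (WS Y) w (i + 3) := by
  refine ⟨hw, fun a ha => ?_⟩
  obtain ⟨n, hn⟩ := h.span (S := (zpowers (pr (WS Y) (i + 4) w)).comap (pr (WS Y) (i + 4))) hu hv
    (fun a ha => by rw [mem_comap, pr_one.2 ha]; exact one_mem _)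
    ⟨n, by rw [h1, map_zpow]⟩ ⟨m, by rw [h2, map_zpow]⟩ ha
  exact ⟨n, by rw [map_zpow]; exact hn.symm⟩

lemma collapse {M : ℕ} (h1 : WS Y (M + 1) ≤ WS Y (M + 2)) (h2 : WS Y (M + 2) ≤ WS Y (M + 3)) :
    False := by
  have a1 : WS Y (M + 3) ≤ WS Y (M + 4) := topologicalClosure_mono
    (sup_le_sup (commutator_mono h2 le_rfl) (commutator_mono h1 le_rfl))
  have a2 : ∀ j, WS Y (M + 1) ≤ gamma G (j + 1) := fun j => by
    induction j with
    | zero => exact le_top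
    | succ j ih =>
      exact h1.trans (h2.trans (topologicalClosure_mono (sup_le
        (commutator_mono ((h.ns.anti (by omega)).trans ih) le_rfl) (commutator_mono ih le_top))))
  have a3 := index_dvd_of_le (a2 (WS Y (M + 1)).index)
  rw [h.idx] at a3
  have a4 := (index_dvd_of_le (gamma_le_Jn h.h5 _)).trans a3
  rw [nt.index] at a4
  exact (Nat.lt_pow_self hp.out.one_lt).not_ge
    (Nat.le_of_dvd (Nat.pos_of_ne_zero (h.index_ne M)) a4)

lemma relIndex_le {M : ℕ} {u : G} (hu : GenBy (WS Y) u (M + 1)) :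
    (WS Y (M + 2)).relIndex (WS Y (M + 1)) ≤ p ∧
      (u ∉ WS Y (M + 2) → (WS Y (M + 2)).relIndex (WS Y (M + 1)) = p) := by
  obtain ⟨Q, _, _, cls, c⟩ := h.ex_cls M
  have e : cls '' WS Y (M + 1) = Set.range fun r : ZMod p => r • cls u := by
    refine Set.ext fun q => ⟨?_, ?_⟩
    · rintro ⟨a, ha, rfl⟩
      obtain ⟨n, hn⟩ := hu.2 a ha
      exact ⟨n, by
        rw [(c.eq_iff ha (zpow_mem hu.1 n)).2 hn, c.zpow hu.1]; exact Int.cast_smul_eq_zsmul ..⟩
    · rintro ⟨r, rfl⟩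
      exact ⟨_, zpow_mem hu.1 r.val, by rw [c.zpow hu.1, ← Int.cast_smul_eq_zsmul (ZMod p)]; simp⟩
  rw [c.relIndex, e]
  refine ⟨(Finite.card_range_le _).trans (Nat.card_zmod p).le, fun h1 => ?_⟩
  rw [Nat.card_range_of_injective (smul_left_injective _ fun h2 => h1 ((c.zero hu.1).1 h2)),
    Nat.card_zmod]

section Loc

variable {M : ℕ} {Q : Type*} [AddCommGroup Q] [Module (ZMod p) Q] {cls : G → Q}
  (c : IsCls (WS Y) M cls)
include c

lemma rel_left {i j k : ℕ} {b : G} (hi : 1 ≤ i) (hj : 1 ≤ j) (r : Rel (WS Y) (gs p x y) (i + j))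
    (hb : b ∈ WS Y k) (hM : M ≤ i + j + k) : cls ⁅⁅gs p x y i, gs p x y j⁆, b⁆ =
      ((j : ZMod p) - i) • cls ⁅gs p x y (i + j), b⁆ := by
  rw [c.lead_left h.ns (by omega) (h.ns.comm (h.mem i) (h.mem j)) (h.mem _) (r i j hi hj rfl) hb hM,
    ← Int.cast_smul_eq_zsmul (ZMod p)]
  push_cast
  rfl

lemma jac {k l : ℕ} (hk : 1 ≤ k) (hl : 1 ≤ l) (hM : k + l < M) (r1 : Rel (WS Y) (gs p x y) (k + l))
    (r2 : Rel (WS Y) (gs p x y) (M - k)) (r3 : Rel (WS Y) (gs p x y) (M - l)) :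
    ((l : ZMod p) - k) • cls ⁅gs p x y (k + l), gs p x y (M - (k + l))⁆ =
      ((M : ZMod p) - k - 2 * l) • cls ⁅gs p x y k, gs p x y (M - k)⁆ -
      ((M : ZMod p) - l - 2 * k) • cls ⁅gs p x y l, gs p x y (M - l)⁆ := by
  obtain ⟨m, rfl⟩ : ∃ m, M = k + l + m := ⟨M - (k + l), by omega⟩
  rw [show k + l + m - k = l + m by omega] at r2 ⊢
  rw [show k + l + m - l = m + k by omega] at r3 ⊢
  have := c.jacobi h.ns hk hl (show 1 ≤ m by omega) (h.mem k) (h.mem l) (h.mem m) le_rfl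
  rw [h.rel_left c hk hl r1 (h.mem m) le_rfl, h.rel_left c hl (by omega) r2 (h.mem k) (by omega),
    h.rel_left c (by omega) hk r3 (h.mem l) (by omega),
    c.anti h.ns (h.mem (l + m)) (h.mem k) (by omega),
    c.anti h.ns (h.mem (m + k)) (h.mem l) (by omega)] at this
  rw [Nat.add_sub_cancel_left]
  push_cast
  linear_combination (norm := module) this
end Loc

lemma F1 {i : ℕ} {Q : Type*} [AddCommGroup Q] [Module (ZMod p) Q] {cls : G → Q}
    (c : IsCls (WS Y) (i + 3) cls) (r : ∀ d, d < i + 3 → Rel (WS Y) (gs p x y) d)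
    (g1 : GenBy (WS Y) (gs p x y (i + 1)) (i + 1)) (g2 : GenBy (WS Y) (gs p x y (i + 2)) (i + 2))
    (z : Q) (c1 : cls ⁅x, gs p x y (i + 2)⁆ = (i + 1 : ZMod p) • z)
    (c2 : cls ⁅y, gs p x y (i + 1)⁆ = (i - 1 : ZMod p) • z) :
    Rel (WS Y) (gs p x y) (i + 3) ∧ GenBy (WS Y) (gs p x y (i + 3)) (i + 3) := by
  have hz : cls (gs p x y (i + 3)) = z := by
    simp only [gs]
    split_ifs with h0
    · have h1 : (i - 1 : ZMod p) ≠ 0 := fun h1 => h.h5 (by linear_combination h0 - h1)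
      rw [← zpow_natCast, c.zpow (h.ns.comm' h.gen2.1 g1.1 (by omega)), c2,
        ← Int.cast_smul_eq_zsmul (ZMod p), Int.cast_natCast, ZMod.natCast_zmod_val,
        inv_smul_smul₀ h1]
    · rw [← zpow_natCast, c.zpow (h.ns.comm' h.gen1.1 g2.1 (by omega)), c1,
        ← Int.cast_smul_eq_zsmul (ZMod p), Int.cast_natCast, ZMod.natCast_zmod_val,
        inv_smul_smul₀ h0]
  have key : ∀ k, k + 1 < i + 3 → cls ⁅gs p x y (k + 1), gs p x y (i + 3 - (k + 1))⁆ =
      (i + 1 - 2 * k : ZMod p) • z := by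
    intro k
    induction k using Nat.strong_induction_on with
    | _ k ih =>
    intro hk
    rcases k with _ | _ | k
    · simpa [gs] using c1
    · refine c2.trans ?_
      congr 1; push_cast; ring
    generalize ht : cls ⁅gs p x y (k + 1 + 1 + 1), gs p x y (i + 3 - (k + 1 + 1 + 1))⁆ = t
    by_cases h0 : (k + 1 : ZMod p) = 0
    · have := h.jac c (k := k + 1) (l := 2) (by omega) (by omega) (by omega) (r _ (by omega))
        (r _ (by omega)) (r _ (by omega))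
      rw [ih k (by omega) (by omega), show cls ⁅gs p x y 2, gs p x y (i + 3 - 2)⁆ = _ from c2,
        show cls ⁅gs p x y (k + 1 + 2), gs p x y (i + 3 - (k + 1 + 2))⁆ = t from ht] at this
      have h1 : (1 - k : ZMod p) ≠ 0 := fun h1 => h.h5 (by linear_combination h0 + h1)
      refine smul_right_injective _ h1 ?_
      push_cast at this ⊢
      linear_combination (norm := module) this
    · have := h.jac c (k := k + 2) (l := 1) (by omega) (by omega) (by omega) (r _ (by omega))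
        (r _ (by omega)) (r _ (by omega))
      rw [ih (k + 1) (by omega) (by omega), 
        show cls ⁅gs p x y 1, gs p x y (i + 3 - 1)⁆ = _ from c1,
        show cls ⁅gs p x y (k + 2 + 1), gs p x y (i + 3 - (k + 2 + 1))⁆ = t from ht] at this
      refine smul_right_injective _ h0 ?_
      push_cast at this ⊢
      linear_combination (norm := module) -this
  have R : Rel (WS Y) (gs p x y) (i + 3) := fun k l hk hl e => by
    obtain ⟨k, rfl⟩ := Nat.exists_eq_add_of_le' hk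
    have := key k (by omega)
    rw [show i + 3 - (k + 1) = l by omega] at this
    rw [← c.eq_iff (h.ns.comm' (h.mem _) (h.mem _) e.ge) (zpow_mem (h.mem _) _), this,
      c.zpow (h.mem _), hz, ← Int.cast_smul_eq_zsmul (ZMod p)]
    congr 1
    have := congrArg (Nat.cast (R := ZMod p)) e
    push_cast at this ⊢
    linear_combination -this
  exact ⟨R, h.span_gen g2 g1 (h.mem _) (R 1 (i + 2) le_rfl (by omega) (by omega))
    (R 2 (i + 1) (by omega) (by omega) (by omega))⟩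

section Idx

variable {N : ℕ} (hN : ∀ M, M < N → Good p Y x y (M + 1))
include hN

lemma index {M : ℕ} (hM : M ≤ N) : (WS Y (M + 1)).index = p ^ M := by
  induction M with
  | zero => exact index_top
  | succ M ih =>
    rw [← relIndex_mul_index (h.ns.anti (Nat.le_succ (M + 1))), ih (by omega), pow_succ',
      (h.relIndex_le (hN M hM).2.1).2 (hN M hM).2.2]

lemma lcs_eq {k M : ℕ} (hM : M ≤ N) (h1 : gamma G (k + 1) ≤ WS Y (M + 1))
    (h2 : gamma (Nott p) (k + 1) = Jn p (M + 1)) : gamma G (k + 1) = WS Y (M + 1) := by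
  have h3 := relIndex_mul_index h1
  rw [h.idx, h2, nt.index, h.index hN hM,
    mul_eq_right₀ (pow_ne_zero _ hp.out.ne_zero), relIndex_eq_one] at h3
  exact le_antisymm h1 h3

lemma lcs_ne {k M : ℕ} (hM : M + 1 ≤ N) (h0 : (M : ZMod p) ≠ 0) (h1 : gamma G (k + 1) = WS Y (M + 1))
    (h2 : gamma (Nott p) (k + 1) = Jn p (M + 1)) :
    gamma G (k + 2) = WS Y (M + 2) ∧ gamma (Nott p) (k + 2) = Jn p (M + 2) := by
  have h3 : gamma (Nott p) (k + 2) = Jn p (M + 2) := by rw [gamma, h2, comm_ne_one h.h5 h0]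
  refine ⟨h.lcs_eq hN hM ?_ h3, h3⟩
  rw [gamma, h1]
  exact topologicalClosure_minimal _ (commutator_le.2 fun a ha b _ =>
    h.ns.comm' (j := 1) ha (mem_top b) le_rfl) (WS_closed h.closed _)

lemma lcs (M : ℕ) (hM : M ≤ N) (h0 : (M : ZMod p) ≠ 1) :
    ∃ k, gamma G (k + 1) = WS Y (M + 1) ∧ gamma (Nott p) (k + 1) = Jn p (M + 1) := by
  induction M using Nat.strong_induction_on with
  | _ M ih =>
  rcases M with _ | M
  · exact ⟨0, rfl, nt.top.symm⟩
  by_cases h1 : (M : ZMod p) = 1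
  swap
  · obtain ⟨k, h2, h3⟩ := ih M (by omega) (by omega) h1
    exact ⟨k + 1, h.lcs_ne hN hM (fun h4 => h0 (by simp [h4])) h2 h3⟩
  rcases M with _ | M
  · simp at h1
  have h4 : (M : ZMod p) = 0 := by simpa using h1
  obtain ⟨k, h2, h3⟩ := ih M (by omega) (by omega) (by simp [h4])
  have h5 : gamma (Nott p) (k + 2) = Jn p (M + 3) := by rw [gamma, h3, comm_eq_one h.h5 h4]
  refine ⟨k + 1, h.lcs_eq hN hM ?_ h5, h5⟩
  rw [gamma, h2]
  refine topologicalClosure_minimal _ (commutator_le.2 fun a ha b _ => ?_) (WS_closed h.closed _)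
  obtain ⟨Q, _, _, cls, c⟩ := h.ex_cls (M + 1)
  obtain ⟨n, hn⟩ := (hN M (by omega)).2.1.2 a ha
  obtain ⟨m, hm⟩ := h.gen1.2 b (mem_top b)
  rw [← c.zero (h.ns.comm' (j := 1) ha (mem_top b) le_rfl),
    c.lead_left h.ns (j := 1) (by omega) ha (h.mem _) hn (mem_top b) le_rfl,
    c.lead_right h.ns le_rfl (h.mem _) (mem_top b) h.gen1.1 hm le_rfl,
    show cls ⁅gs p x y (M + 1), x⁆ = _ from (c.eq_iff (h.ns.comm (h.mem _) (h.mem 1))
      (zpow_mem (h.mem _) _)).2 ((hN (M + 1) (by omega)).1 (M + 1) 1 (by omega) le_rfl rfl),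
    c.zpow (h.mem _), ← Int.cast_smul_eq_zsmul (ZMod p) (_ - _)]
  simp [h4]

end Idx

end Ctx

end Pool.Agent.Lib.MP_ffb54b_al.P3.N3
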