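import Pool.Agent.Lib.MP_ffb54b_al.Final

set_option autoImplicit false
set_option linter.unusedSectionVars false

namespace Pool.Agent.Lib.MP_ffb54b_al.P3

open PowerSeries
open scoped commutatorElement

variable {A : Type*} [AddCommGroup A]

/-- A filtered Lie ring whose leading terms are those of the Witt algebra over `𝔽₃`. -/
structure W3 (Φ : Filt 3 A) (μ : A →+ A →+ A) : Prop where
  witt : Φ.Witt μ
  anti : ∀ a b, μ a b = -μ b a
  jac : ∀ a b c, μ (μ a b) c + μ (μ b c) a + μ (μ c a) b = 0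

/-- The operator `T` raises the filtration degree by at least `e`. -/
def DegE (Φ : Filt 3 A) (T : A →+ A) (e : ℤ) : Prop :=
  ∀ ⦃i : ℤ⦄ ⦃a : A⦄, a ∈ Φ.F i → T a ∈ Φ.F (i + e)

/-- The operator `T` has degree `e` and constant leading coefficient `r`. -/
def LeadE (Φ : Filt 3 A) (T : A →+ A) (e : ℤ) (r : ZMod 3) : Prop :=
  ∀ ⦃i : ℤ⦄ ⦃a : A⦄, a ∈ Φ.F i → T a ∈ Φ.F (i + e) ∧ Φ.ℓ (i + e) (T a) = r * Φ.ℓ i a

/-- The operator `T` commutes with the brackets up to degree `N`. -/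
def Cen (Φ : Filt 3 A) (μ : A →+ A →+ A) (T : A →+ A) (N : ℤ) : Prop :=
  ∀ ⦃i j : ℤ⦄ ⦃y a : A⦄, y ∈ Φ.F j → a ∈ Φ.F i → T (μ y a) - μ y (T a) ∈ Φ.F (i + j + N)

/-- Multiplication by three raises the degree by at least `D`. -/
def Three (Φ : Filt 3 A) (D : ℤ) : Prop := ∀ ⦃i : ℤ⦄ ⦃a : A⦄, a ∈ Φ.F i → 3 • a ∈ Φ.F (i + D)

/-- A family with leading coefficients one. -/
def BasZ (Φ : Filt 3 A) (x : ℤ → A) : Prop := ∀ i, x i ∈ Φ.F i ∧ Φ.ℓ i (x i) = 1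

/-- The Witt relations hold to relative depth `c`. -/
def WB (Φ : Filt 3 A) (μ : A →+ A →+ A) (x : ℤ → A) (c : ℤ) : Prop :=
  BasZ Φ x ∧ ∀ i j, μ (x i) (x j) - (j - i) • x (i + j) ∈ Φ.F (i + j + c)

/-- The cubes of the inner derivations of degree `m` are inner to relative depth `c`. -/
def Restr (Φ : Filt 3 A) (μ : A →+ A →+ A) (m c : ℤ) : Prop :=
  ∀ x ∈ Φ.F m, ∃ y, ∀ ⦃i : ℤ⦄ ⦃a : A⦄, a ∈ Φ.F i →
    μ x (μ x (μ x a)) - μ y a ∈ Φ.F (i + (3 * m + c))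

/-- The alternating triple operator. -/
def triE (μ : A →+ A →+ A) (a b c : A) : A →+ A :=
  (μ a).comp (μ (μ b c)) + (μ b).comp (μ (μ c a)) + (μ c).comp (μ (μ a b))

lemma triE_apply (μ : A →+ A →+ A) (a b c w : A) :
    triE μ a b c w = μ a (μ (μ b c) w) + μ b (μ (μ c a) w) + μ c (μ (μ a b) w) := rfl

/-- All triple operators are central to relative depth `c`. -/
def TriCen (Φ : Filt 3 A) (μ : A →+ A →+ A) (c : ℤ) : Prop :=
  ∀ ⦃i j k : ℤ⦄ ⦃a b d : A⦄, a ∈ Φ.F i → b ∈ Φ.F j → d ∈ Φ.F k →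
    Cen Φ μ (triE μ a b d) (i + j + k + c)

namespace W3

variable {Φ : Filt 3 A} {μ : A →+ A →+ A} (h : W3 Φ μ) {i j k : ℤ} {a b : A}
include h

lemma mem (ha : a ∈ Φ.F i) (hb : b ∈ Φ.F j) (hk : k ≤ i + j) : μ a b ∈ Φ.F k :=
  Φ.mono (h.witt.1 ha hb) (by omega)

lemma lead (ha : a ∈ Φ.F i) (hb : b ∈ Φ.F j) (hk : k = i + j) :
    Φ.ℓ k (μ a b) = ((j : ZMod 3) - i) * Φ.ℓ i a * Φ.ℓ j b := by
  have := h.witt.1.lead ha hb
  rw [h.witt.2, add_zero] at this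
  rw [hk, this]; ring

/-- The Jacobi identity in Leibniz form. -/
lemma leib (a b c : A) : μ (μ a b) c = μ a (μ b c) - μ b (μ a c) := by
  have := h.jac a b c
  rw [h.anti (μ b c), h.anti (μ c a), h.anti c a, map_neg] at this
  linear_combination (norm := abel) this

end W3

/-- To check that `F i` lies in a subgroup it suffices to check a basis to bounded depth. -/
lemma BasZ.le {Φ : Filt 3 A} {x : ℤ → A} (hx : BasZ Φ x) {S : AddSubgroup A} {i : ℤ} (c : ℕ)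
    (h1 : ∀ j, i ≤ j → x j ∈ S) (h2 : Φ.F (i + c) ≤ S) : Φ.F i ≤ S := by
  induction c generalizing i with
  | zero => simpa using h2
  | succ c ih =>
    intro a ha
    have h3 : Φ.F (i + 1) ≤ S := ih (fun j hj => h1 j (by omega))
      (by rwa [show i + 1 + c = i + (c + 1 : ℕ) by push_cast; ring])
    have := add_mem (h3 (Φ.decomp ha (hx i).1 (hx i).2))
      (zsmul_mem (h1 i le_rfl) ((Φ.ℓ i a).val : ℤ))
    rwa [sub_add_cancel] at this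

lemma basZ_e (Φ : Filt 3 A) : BasZ Φ Φ.e := fun i => ⟨Φ.e_mem i, Φ.e_one i⟩

variable {G : Type*} [Group G] {K : ℕ → Subgroup G} {lG : ℕ → G → ZMod 3}

/-- The standing hypotheses on the limit ring of a group with a filtration of Nottingham type. -/
structure Lim (Φ : Act 3 A K lG) (μ : A →+ A →+ A) : Prop extends W3 Φ.toFilt μ where
  nt : NT K lG
  equi : ∀ g a b, Φ.ρ g (μ a b) = μ (Φ.ρ g a) (Φ.ρ g b)

/-- The element `g` acts as `1 + ad x` up to degree `s`. -/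
def Inn (Φ : Act 3 A K lG) (μ : A →+ A →+ A) (g : G) (x : A) (s : ℤ) : Prop :=
  ∀ ⦃i : ℤ⦄ ⦃a : A⦄, a ∈ Φ.F i → Φ.ρ g a - a - μ x a ∈ Φ.F (i + s)

/-- The commutator of the action of `g` with an operator. -/
def cm (Φ : Act 3 A K lG) (g : G) (T : A →+ A) : A →+ A := (Φ.ρ g).comp T - T.comp (Φ.ρ g)

lemma cm_apply (Φ : Act 3 A K lG) (g : G) (T : A →+ A) (a : A) :
    cm Φ g T a = Φ.ρ g (T a) - T (Φ.ρ g a) := rfl

lemma ρ_one (Φ : Act 3 A K lG) (a : A) : Φ.ρ 1 a = a := by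
  obtain ⟨i, hi⟩ := Φ.exh a
  exact sub_eq_zero.1 (Φ.sep' (i := i) fun c => Φ.ρ_deg (one_mem _) hi)

lemma ρ_inv_ρ (Φ : Act 3 A K lG) (g : G) (a : A) : Φ.ρ g⁻¹ (Φ.ρ g a) = a := by
  rw [← Φ.ρ_mul, inv_mul_cancel, ρ_one]

lemma ρ_ρ_inv (Φ : Act 3 A K lG) (g : G) (a : A) : Φ.ρ g (Φ.ρ g⁻¹ a) = a := by
  rw [← Φ.ρ_mul, mul_inv_cancel, ρ_one]

lemma ρ_lead_one (Φ : Act 3 A K lG) (nt : NT K lG) (g : G) : LeadE Φ.toFilt (Φ.ρ g) 0 1 := by
  intro i a ha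
  have h1 := Φ.ρ_deg (k := 1) (g := g) (nt.top ▸ Subgroup.mem_top g) ha
  have h2 : Φ.ρ g a ∈ Φ.F i := by simpa using add_mem (Φ.mono h1 (by omega)) ha
  have h3 := Φ.ℓ_zero (i := i) h1 (by omega)
  rw [Φ.ℓ_sub h2 ha, sub_eq_zero] at h3
  simp [h2, h3]

/-- The group `G` agrees with the Nottingham group `N(3)` to depth `n`. -/
structure Link (K : ℕ → Subgroup G) (lG : ℕ → G → ZMod 3) (R : G → Nott 3 → Prop) (n : ℕ) :
    Prop where
  left : ∀ a, ∃ a', R a a'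
  right : ∀ a', ∃ a, R a a'
  mul : ∀ {a b a' b'}, R a a' → R b b' → R (a * b) (a' * b')
  inv : ∀ {a a'}, R a a' → R a⁻¹ a'⁻¹
  mem : ∀ {a a' i}, R a a' → 1 ≤ i → i ≤ n → (a ∈ K i ↔ a' ∈ Nott.Jn 3 i)
  lead : ∀ {a a' i}, R a a' → 1 ≤ i → i < n → a' ∈ Nott.Jn 3 i →
    lG i a = -coeff (i + 1) (a'.ser - X)

/-- The group word that lifts the triple operator. -/
def wd (a b c h : G) : G := ⁅a, ⁅⁅b, c⁆, h⁆⁆ * ⁅b, ⁅⁅c, a⁆, h⁆⁆ * ⁅c, ⁅⁅a, b⁆, h⁆⁆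

/-- The group word that lifts the commutator of `g` with the triple operator. -/
def wdc (g a b c : G) : G := g * wd a b c a * g⁻¹ * (wd a b c (g * a * g⁻¹))⁻¹

/-- The action of the first two layers on a central operator `U` of degree three. -/
def KeyP (Φ : Act 3 A K lG) (U : A →+ A) : Prop :=
  ∀ r : ℕ, 1 ≤ r → r ≤ 2 → ∀ g ∈ K r, LeadE Φ.toFilt (cm Φ g U) (3 + 3 * r) (lG r g)

end Pool.Agent.Lib.MP_ffb54b_al.P3
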